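import Mathlib

set_option autoImplicit false

/-!
# Centers of distances: the abstract construction

Given continuous functions `u d : X → ℝ` on a σ-compact Polish space such that no relation
`∑ (c x * u x + e x * d x) = 0` holds with rational coefficients, `c ≠ 0` and `supp e ⊆ supp c`,
we build for every Borel set `D` of positive reals a Borel set whose center of distances is the
complement of `D` in `[0, ∞)`.
-/

namespace Pool.Agent.Lib.H38.Bdf

open Set

variable {X : Type*}

/-- The value of a pair of coefficient vectors. -/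
noncomputable def val (u d : X → ℝ) (c e : X →₀ ℚ) : ℝ :=
  Finsupp.linearCombination ℚ u c + Finsupp.linearCombination ℚ d e

lemma val_add (u d : X → ℝ) (c e c' e' : X →₀ ℚ) :
    val u d (c + c') (e + e') = val u d c e + val u d c' e' := by
  simp only [val, map_add]; ring

lemma val_sub (u d : X → ℝ) (c e c' e' : X →₀ ℚ) :
    val u d (c - c') (e - e') = val u d c e - val u d c' e' := by
  simp only [val, map_sub]; ring

lemma val_smul (u d : X → ℝ) (r : ℚ) (c e : X →₀ ℚ) :
    val u d (r • c) (r • e) = r * val u d c e := by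
  simp only [val, map_smul, Rat.smul_def]; ring

lemma val_single (u d : X → ℝ) (x : X) (r s : ℚ) :
    val u d (Finsupp.single x r) (Finsupp.single x s) = r * u x + s * d x := by
  simp only [val, Finsupp.linearCombination_single, Rat.smul_def]

/-- The sum of the coefficients. -/
noncomputable def tot (c : X →₀ ℚ) : ℚ := Finsupp.linearCombination ℚ (fun _ : X => (1 : ℚ)) c

lemma tot_eq_sum (c : X →₀ ℚ) : tot c = ∑ x ∈ c.support, c x := by
  simp [tot, Finsupp.linearCombination_apply, Finsupp.sum]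

/-- The independence property of the pair `(u, d)`. -/
def Indep (u d : X → ℝ) : Prop :=
  ∀ c e : X →₀ ℚ, c ≠ 0 → (∀ x, c x = 0 → e x = 0) → val u d c e ≠ 0

/-- Numbers which are convex combinations of the edges `[u x, u x + 2 * d x]`. -/
def Good (u d : X → ℝ) (z : ℝ) : Prop :=
  ∃ c e : X →₀ ℚ, (∀ x, 0 ≤ e x ∧ e x ≤ 2 * c x) ∧ tot c = 1 ∧ z = val u d c e

lemma Good.mid {u d : X → ℝ} {z w : ℝ} (hz : Good u d z) (hw : Good u d w) :
    Good u d ((z + w) / 2) := by
  obtain ⟨c, e, h1, h2, h3⟩ := hz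
  obtain ⟨c', e', h1', h2', h3'⟩ := hw
  refine ⟨(1/2 : ℚ) • (c + c'), (1/2 : ℚ) • (e + e'), ?_, ?_, ?_⟩
  · intro x
    have a := h1 x
    have b := h1' x
    simp only [Finsupp.smul_apply, Finsupp.add_apply, smul_eq_mul]
    constructor
    · linarith [a.1, b.1]
    · linarith [a.2, b.2]
  · simp only [tot, map_smul, map_add] at *
    rw [h2, h2']; norm_num
  · rw [val_smul, val_add, ← h3, ← h3']; push_cast; ring

/-- The endpoints of the edges. -/
def E (u d : X → ℝ) : Set ℝ := range u ∪ range (fun x => u x + 2 * d x)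

/-- The iterated midpoints of the endpoints. -/
def T (u d : X → ℝ) : ℕ → Set ℝ
  | 0 => E u d
  | k + 1 => (fun p : ℝ × ℝ => (p.1 + p.2) / 2) '' (T u d k ×ˢ T u d k)

/-- The midpoint convex hull of the endpoints. -/
def N₀ (u d : X → ℝ) : Set ℝ := ⋃ k, T u d k

lemma T_subset_succ (u d : X → ℝ) (k : ℕ) : T u d k ⊆ T u d (k + 1) := by
  intro z hz
  exact ⟨(z, z), ⟨hz, hz⟩, by simp⟩

lemma T_mono (u d : X → ℝ) : Monotone (T u d) := monotone_nat_of_le_succ (T_subset_succ u d)

lemma N₀_mid {u d : X → ℝ} {z w : ℝ} (hz : z ∈ N₀ u d) (hw : w ∈ N₀ u d) :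
    (z + w) / 2 ∈ N₀ u d := by
  rw [N₀, mem_iUnion] at hz hw
  obtain ⟨k, hk⟩ := hz
  obtain ⟨l, hl⟩ := hw
  rw [N₀, mem_iUnion]
  refine ⟨max k l + 1, (z, w), ⟨T_mono u d (le_max_left k l) hk, T_mono u d (le_max_right k l) hl⟩,
    rfl⟩

lemma good_of_mem_T {u d : X → ℝ} : ∀ (k : ℕ) (z : ℝ), z ∈ T u d k → Good u d z := by
  intro k
  induction k with
  | zero =>
    rintro z (⟨x, rfl⟩ | ⟨x, rfl⟩)
    · refine ⟨Finsupp.single x 1, Finsupp.single x 0, ?_, ?_, ?_⟩
      · intro y
        simp only [Finsupp.single_zero, Finsupp.coe_zero, Pi.zero_apply, le_refl, true_and]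
        have : (0 : ℚ) ≤ Finsupp.single x 1 y := by
          classical
          rw [Finsupp.single_apply]; split_ifs <;> norm_num
        linarith
      · simp [tot]
      · rw [val_single]; simp
    · refine ⟨Finsupp.single x 1, Finsupp.single x 2, ?_, ?_, ?_⟩
      · intro y
        classical
        rw [Finsupp.single_apply, Finsupp.single_apply]
        split_ifs <;> norm_num
      · simp [tot]
      · rw [val_single]; simp
  | succ k ih =>
    rintro z ⟨⟨p, q⟩, ⟨hp, hq⟩, rfl⟩
    exact (ih p hp).mid (ih q hq)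

lemma good_of_mem {u d : X → ℝ} {z : ℝ} (h : z ∈ N₀ u d) : Good u d z := by
  rw [N₀, mem_iUnion] at h
  obtain ⟨k, hk⟩ := h
  exact good_of_mem_T k z hk

lemma left_mem (u d : X → ℝ) (x : X) : u x ∈ N₀ u d :=
  mem_iUnion.2 ⟨0, Or.inl ⟨x, rfl⟩⟩

lemma right_mem (u d : X → ℝ) (x : X) : u x + 2 * d x ∈ N₀ u d :=
  mem_iUnion.2 ⟨0, Or.inr ⟨x, rfl⟩⟩

/-- The union of the open edges of half-length in `D`. -/
def R (u d : X → ℝ) (D : Set ℝ) : Set ℝ :=
  ⋃ e : {e : ℚ // 0 < e ∧ e < 2}, (fun x => u x + (e.1 : ℝ) * d x) '' {x | d x ∈ D}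

lemma mem_R {u d : X → ℝ} {D : Set ℝ} {z : ℝ} :
    z ∈ R u d D ↔ ∃ e : ℚ, 0 < e ∧ e < 2 ∧ ∃ x, d x ∈ D ∧ z = u x + (e : ℝ) * d x := by
  simp only [R, mem_iUnion, mem_image, Set.mem_ofPred_eq, Subtype.exists, exists_prop]
  constructor
  · rintro ⟨e, ⟨h1, h2⟩, x, hx, rfl⟩
    exact ⟨e, h1, h2, x, hx, rfl⟩
  · rintro ⟨e, h1, h2, x, hx, rfl⟩
    exact ⟨e, ⟨h1, h2⟩, x, hx, rfl⟩

lemma single_eq {u d : X → ℝ} (hI : Indep u d) {x y : X} {e f : ℚ}
    (h : u x + (e : ℝ) * d x = u y + (f : ℝ) * d y) : x = y := by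
  by_contra hne
  have hc : Finsupp.single x (1 : ℚ) - Finsupp.single y 1 ≠ 0 := by
    intro h0
    have := DFunLike.congr_fun h0 x
    classical
    simp [Ne.symm hne] at this
  refine hI (Finsupp.single x 1 - Finsupp.single y 1) (Finsupp.single x e - Finsupp.single y f)
    hc ?_ ?_
  · intro z hz
    classical
    simp only [Finsupp.sub_apply, Finsupp.single_apply] at hz ⊢
    by_cases hxz : x = z
    · subst hxz
      rw [if_pos rfl, if_neg (Ne.symm hne)] at hz
      norm_num at hz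
    · by_cases hyz : y = z
      · subst hyz
        rw [if_neg hne, if_pos rfl] at hz
        norm_num at hz
      · simp [hxz, hyz]
  · rw [val_sub, val_single, val_single]; push_cast; linarith

/-- The key geometric fact: the edges are faces. -/
lemma face {u d : X → ℝ} (hI : Indep u d) {n₁ n₂ : ℝ} (h₁ : Good u d n₁) (h₂ : Good u d n₂)
    {x : X} {e : ℚ} (h : n₁ + n₂ = 2 * (u x + (e : ℝ) * d x)) :
    (∃ e₁ : ℚ, 0 ≤ e₁ ∧ e₁ ≤ 2 ∧ n₁ = u x + (e₁ : ℝ) * d x) ∧
    (∃ e₂ : ℚ, 0 ≤ e₂ ∧ e₂ ≤ 2 ∧ n₂ = u x + (e₂ : ℝ) * d x) := by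
  classical
  obtain ⟨c₁, e₁, a₁, b₁, rfl⟩ := h₁
  obtain ⟨c₂, e₂, a₂, b₂, rfl⟩ := h₂
  have c₁nn : ∀ y, 0 ≤ c₁ y := fun y => by linarith [(a₁ y).1, (a₁ y).2]
  have c₂nn : ∀ y, 0 ≤ c₂ y := fun y => by linarith [(a₂ y).1, (a₂ y).2]
  have e₁z : ∀ y, c₁ y = 0 → e₁ y = 0 := fun y hy => by
    have := a₁ y; rw [hy] at this; linarith [this.1, this.2]
  have e₂z : ∀ y, c₂ y = 0 → e₂ y = 0 := fun y hy => by
    have := a₂ y; rw [hy] at this; linarith [this.1, this.2]
  set c := c₁ + c₂ - Finsupp.single x 2 with hcdef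
  set f := e₁ + e₂ - Finsupp.single x (2 * e) with hfdef
  have hval : val u d c f = 0 := by
    rw [hcdef, hfdef, val_sub, val_add, val_single, h]; push_cast; ring
  have htot : tot c = 0 := by
    simp only [tot, hcdef, map_sub, map_add] at *
    rw [b₁, b₂]; simp; norm_num
  have hcy : ∀ y, y ≠ x → c y = c₁ y + c₂ y := by
    intro y hy
    simp [hcdef, Ne.symm hy]
  have hc0 : c = 0 := by
    by_contra hc
    refine hI c f hc ?_ hval
    intro y hy
    by_cases hyx : y = x
    · -- then `c` vanishes at `x`, is nonnegative elsewhere and has total zero, so it is zero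
      exfalso
      apply hc
      have hnn : ∀ z, 0 ≤ c z := by
        intro z
        by_cases hz : z = x
        · rw [hz, ← hyx, hy]
        · rw [hcy z hz]; linarith [c₁nn z, c₂nn z]
      rw [tot_eq_sum] at htot
      have := (Finset.sum_eq_zero_iff_of_nonneg (fun z _ => hnn z)).1 htot
      ext z
      by_cases hz : z ∈ c.support
      · exact this z hz
      · simpa using hz
    · rw [hcy y hyx] at hy
      have h1 : c₁ y = 0 := by linarith [c₁nn y, c₂nn y]
      have h2 : c₂ y = 0 := by linarith [c₁nn y, c₂nn y]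
      simp [hfdef, e₁z y h1, e₂z y h2, Ne.symm hyx]
  have hz₁ : ∀ y, y ≠ x → c₁ y = 0 := by
    intro y hy
    have := hcy y hy
    rw [hc0] at this
    simp only [Finsupp.coe_zero, Pi.zero_apply] at this
    linarith [c₁nn y, c₂nn y]
  have hz₂ : ∀ y, y ≠ x → c₂ y = 0 := by
    intro y hy
    have := hcy y hy
    rw [hc0] at this
    simp only [Finsupp.coe_zero, Pi.zero_apply] at this
    linarith [c₁nn y, c₂nn y]
  have key : ∀ (c' e' : X →₀ ℚ), (∀ y, 0 ≤ e' y ∧ e' y ≤ 2 * c' y) → tot c' = 1 →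
      (∀ y, y ≠ x → c' y = 0) →
      ∃ e₁ : ℚ, 0 ≤ e₁ ∧ e₁ ≤ 2 ∧ val u d c' e' = u x + (e₁ : ℝ) * d x := by
    intro c' e' ha hb hc'
    have hc1 : c' = Finsupp.single x (c' x) := by
      ext y
      rw [Finsupp.single_apply]
      split_ifs with hy
      · rw [hy]
      · exact hc' y (Ne.symm hy)
    have he1 : e' = Finsupp.single x (e' x) := by
      ext y
      rw [Finsupp.single_apply]
      split_ifs with hy
      · rw [hy]
      · have := ha y
        rw [hc' y (Ne.symm hy)] at this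
        linarith [this.1, this.2]
    have hone : c' x = 1 := by
      rw [hc1] at hb
      simpa [tot] using hb
    refine ⟨e' x, (ha x).1, ?_, ?_⟩
    · have := (ha x).2
      rw [hone] at this
      linarith
    · rw [hc1, he1, val_single, hone]
      simp
  exact ⟨key c₁ e₁ a₁ b₁ hz₁, key c₂ e₂ a₂ b₂ hz₂⟩

/-- The abstract computation of the center of distances. -/
theorem center_eq {u d : X → ℝ} (hI : Indep u d) {A : Set ℝ} (h0 : (0 : ℝ) ∈ A)
    (hA : A ⊆ Ici (0 : ℝ)) (hsurj : ∀ α : ℝ, 0 ≤ α → ∃ x, d x = α) :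
    {α : ℝ | 0 ≤ α ∧ ∀ x ∈ (N₀ u d \ R u d (Ici 0 \ A))ᶜ,
      ∃ y ∈ (N₀ u d \ R u d (Ici 0 \ A))ᶜ, |x - y| = α} = A := by
  set D : Set ℝ := Ici 0 \ A with hD
  set N : Set ℝ := N₀ u d \ R u d D with hN
  have hDpos : ∀ α ∈ D, 0 < α := by
    intro α hα
    rcases lt_or_eq_of_le (mem_Ici.1 hα.1) with h | h
    · exact h
    · exact absurd (h ▸ h0) hα.2
  ext α
  constructor
  · rintro ⟨hα0, hα⟩
    by_contra hαA
    have hαD : α ∈ D := ⟨hα0, hαA⟩
    obtain ⟨x, hx⟩ := hsurj α hα0
    -- the midpoint is in the complement of `N`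
    have hm : u x + d x ∈ R u d D :=
      mem_R.2 ⟨1, by norm_num, by norm_num, x, by rw [hx]; exact hαD, by simp⟩
    obtain ⟨y, hy, hxy⟩ := hα (u x + d x) (fun h => h.2 hm)
    apply hy
    have hnotR : ∀ f : ℚ, (f = 0 ∨ f = 2) → u x + (f : ℝ) * d x ∉ R u d D := by
      intro f hf hmem
      obtain ⟨e, he0, he2, x', hx', heq⟩ := mem_R.1 hmem
      have hxx' : x = x' := single_eq hI heq
      subst hxx'
      have h1 : ((f : ℝ) - e) * d x = 0 := by linarith
      have hdx : d x ≠ 0 := by rw [hx]; exact (hDpos α hαD).ne'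
      have h2 : (f : ℝ) - e = 0 := by
        rcases mul_eq_zero.1 h1 with h | h
        · exact h
        · exact absurd h hdx
      have h3 : f = e := by
        have : (f : ℝ) = e := by linarith
        exact_mod_cast this
      rcases hf with rfl | rfl
      · exact he0.ne h3
      · exact he2.ne' h3
    rcases abs_eq hα0 |>.1 hxy with h | h
    · have hy' : y = u x := by linarith
      rw [hy']
      refine ⟨left_mem u d x, ?_⟩
      have := hnotR 0 (Or.inl rfl)
      simpa using this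
    · have hy' : y = u x + 2 * d x := by linarith
      rw [hy']
      refine ⟨right_mem u d x, ?_⟩
      have := hnotR 2 (Or.inr rfl)
      simpa using this
  · intro hαA
    have hα0 : 0 ≤ α := hA hαA
    refine ⟨hα0, ?_⟩
    intro m hm
    by_contra hcon
    push Not at hcon
    have h1 : m - α ∈ N := by
      by_contra h
      exact hcon (m - α) h (by rw [sub_sub_cancel, abs_of_nonneg hα0])
    have h2 : m + α ∈ N := by
      by_contra h
      exact hcon (m + α) h (by
        rw [show m - (m + α) = -α by ring, abs_neg, abs_of_nonneg hα0])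
    have hmid : m ∈ N₀ u d := by
      have := N₀_mid h1.1 h2.1
      rwa [show (m - α + (m + α)) / 2 = m by ring] at this
    have hmR : m ∈ R u d D := by
      by_contra h
      exact hm ⟨hmid, h⟩
    obtain ⟨e, he0, he2, x, hx, rfl⟩ := mem_R.1 hmR
    obtain ⟨⟨e₁, p₁, q₁, r₁⟩, ⟨e₂, p₂, q₂, r₂⟩⟩ :=
      face hI (good_of_mem h1.1) (good_of_mem h2.1) (x := x) (e := e) (by ring)
    have hdpos := hDpos _ hx
    have t₁ : e₁ = 0 ∨ e₁ = 2 := by
      by_contra hh
      push Not at hh
      apply h1.2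
      rw [r₁]
      exact mem_R.2 ⟨e₁, lt_of_le_of_ne p₁ (Ne.symm hh.1), lt_of_le_of_ne q₁ hh.2, x, hx, rfl⟩
    have t₂ : e₂ = 0 ∨ e₂ = 2 := by
      by_contra hh
      push Not at hh
      apply h2.2
      rw [r₂]
      exact mem_R.2 ⟨e₂, lt_of_le_of_ne p₂ (Ne.symm hh.1), lt_of_le_of_ne q₂ hh.2, x, hx, rfl⟩
    have hαne : α ∉ D := fun h => h.2 hαA
    have hdiff : 2 * α = ((e₂ : ℝ) - e₁) * d x := by linarith
    rcases t₁ with rfl | rfl <;> rcases t₂ with rfl | rfl
    · -- α = 0
      have h3 : (e : ℝ) * d x = 0 := by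
        push_cast at r₁ r₂ hdiff
        have : α = 0 := by linarith
        rw [this] at r₁
        linarith
      have : 0 < (e : ℝ) * d x := mul_pos (by exact_mod_cast he0) hdpos
      linarith
    · push_cast at hdiff
      have : α = d x := by linarith
      exact hαne (this ▸ hx)
    · push_cast at hdiff
      have : α ≤ 0 := by nlinarith
      nlinarith
    · push_cast at hdiff r₁
      have h4 : α = 0 := by linarith
      rw [h4] at r₁
      have h5 : ((2 : ℝ) - e) * d x = 0 := by linarith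
      have h6 : (0 : ℝ) < 2 - e := by
        have : (e : ℝ) < 2 := by exact_mod_cast he2
        linarith
      have := mul_pos h6 hdpos
      linarith

section Measurability

variable [TopologicalSpace X]

lemma isSigmaCompact_prod {Y Z : Type*} [TopologicalSpace Y] [TopologicalSpace Z]
    {s : Set Y} {t : Set Z} (hs : IsSigmaCompact s) (ht : IsSigmaCompact t) :
    IsSigmaCompact (s ×ˢ t) := by
  obtain ⟨K, hK, rfl⟩ := hs
  obtain ⟨L, hL, rfl⟩ := ht
  have : (⋃ n, K n) ×ˢ (⋃ n, L n) = ⋃ p : ℕ × ℕ, K p.1 ×ˢ L p.2 := by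
    ext z
    simp only [mem_iUnion, Prod.exists, mem_prod]
    constructor
    · rintro ⟨⟨i, hi⟩, ⟨j, hj⟩⟩
      exact ⟨i, j, hi, hj⟩
    · rintro ⟨i, j, hi, hj⟩
      exact ⟨⟨i, hi⟩, ⟨j, hj⟩⟩
  rw [this]
  exact isSigmaCompact_iUnion_of_isCompact _ fun p => (hK p.1).prod (hL p.2)

lemma isSigmaCompact_T [SigmaCompactSpace X] {u d : X → ℝ} (hu : Continuous u)
    (hd : Continuous d) : ∀ k, IsSigmaCompact (T u d k) := by
  intro k
  induction k with
  | zero =>
    have h1 : IsSigmaCompact (range u) := isSigmaCompact_range hu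
    have h2 : IsSigmaCompact (range (fun x => u x + 2 * d x)) :=
      isSigmaCompact_range (by fun_prop)
    show IsSigmaCompact (range u ∪ range (fun x => u x + 2 * d x))
    rw [union_eq_iUnion]
    exact isSigmaCompact_iUnion _ (fun b => by cases b <;> simpa using by assumption)
  | succ k ih =>
    exact (isSigmaCompact_prod ih ih).image (by fun_prop)

lemma measurableSet_of_isSigmaCompact {s : Set ℝ} (hs : IsSigmaCompact s) : MeasurableSet s := by
  obtain ⟨K, hK, rfl⟩ := hs
  exact MeasurableSet.iUnion fun n => (hK n).isClosed.measurableSet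

lemma measurableSet_N₀ [SigmaCompactSpace X] {u d : X → ℝ} (hu : Continuous u)
    (hd : Continuous d) : MeasurableSet (N₀ u d) :=
  MeasurableSet.iUnion fun k => measurableSet_of_isSigmaCompact (isSigmaCompact_T hu hd k)

lemma measurableSet_R [PolishSpace X] {u d : X → ℝ} (hu : Continuous u)
    (hd : Continuous d) (hI : Indep u d) {D : Set ℝ} (hD : MeasurableSet D) :
    MeasurableSet (R u d D) := by
  borelize X
  refine MeasurableSet.iUnion fun e => ?_
  have hc : Continuous (fun x => u x + (e.1 : ℝ) * d x) := by fun_prop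
  have hinj : Function.Injective (fun x => u x + (e.1 : ℝ) * d x) :=
    fun x y hxy => single_eq hI hxy
  exact (hc.measurableEmbedding hinj).measurableSet_image.2 (hd.measurable hD)

end Measurability

/-- The abstract theorem. -/
theorem abstract_main [TopologicalSpace X] [PolishSpace X] [SigmaCompactSpace X]
    {u d : X → ℝ} (hu : Continuous u) (hd : Continuous d) (hI : Indep u d)
    (hsurj : ∀ α : ℝ, 0 ≤ α → ∃ x, d x = α) (A : Set ℝ) (hAm : MeasurableSet A)
    (h0 : (0 : ℝ) ∈ A) (hA : A ⊆ Ici (0 : ℝ)) :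
    ∃ B : Set ℝ, MeasurableSet B ∧
        {α : ℝ | 0 ≤ α ∧ ∀ x ∈ B, ∃ y ∈ B, |x - y| = α} = A :=
  ⟨(N₀ u d \ R u d (Ici 0 \ A))ᶜ,
    ((measurableSet_N₀ hu hd).diff (measurableSet_R hu hd hI (measurableSet_Ici.diff hAm))).compl,
    center_eq hI h0 hA hsurj⟩

end Pool.Agent.Lib.H38.Bdf
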