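import Mathlib
import Pool.Agent.Lib.H38.BdfAbstract

set_option autoImplicit false

/-!
# The key lemma

On `X = ℕ × (ℕ → Fin 2)` with `d (n, w) = n + 0.w₀w₁w₂…` (binary) we construct a continuous `u`
with the independence property `Indep u d`.
-/

namespace Pool.Agent.Lib.H38.Bdf

open Set Real

/-- The index space. -/
abbrev Idx : Type := ℕ × (ℕ → Fin 2)

/-- The tasks: a level and a finitely supported assignment of slopes and marks. -/
abbrev Task : Type := Σ t : ℕ, ((ℕ × (Fin t → Fin 2)) →₀ (ℚ × ℚ))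

/-- The label of level `t`. -/
def label (t : ℕ) (x : Idx) : ℕ × (Fin t → Fin 2) := (x.1, fun i => x.2 i)

lemma continuous_label (t : ℕ) : Continuous (label t) := by
  unfold label
  fun_prop

/-- slope of a task at a point -/
def slopeT (τ : Task) (x : Idx) : ℚ := (τ.2 (label τ.1 x)).1

/-- mark of a task at a point -/
noncomputable def markT (τ : Task) (x : Idx) : ℝ := if (τ.2 (label τ.1 x)).2 = 1 then 1 else 0

lemma continuous_slopeT (τ : Task) : Continuous (fun x => ((slopeT τ x : ℚ) : ℝ)) := by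
  have : (fun x => ((slopeT τ x : ℚ) : ℝ)) =
      (fun l => (((τ.2 l).1 : ℚ) : ℝ)) ∘ label τ.1 := rfl
  rw [this]
  exact continuous_of_discreteTopology.comp (continuous_label τ.1)

lemma continuous_markT (τ : Task) : Continuous (markT τ) := by
  have : markT τ = (fun l => if (τ.2 l).2 = 1 then (1 : ℝ) else 0) ∘ label τ.1 := rfl
  rw [this]
  exact continuous_of_discreteTopology.comp (continuous_label τ.1)

lemma markT_cases (τ : Task) (x : Idx) : markT τ x = 0 ∨ markT τ x = 1 := by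
  unfold markT
  split_ifs
  · right; rfl
  · left; rfl

/-- A natural number bounding all the slopes of a task and all their denominators. -/
lemma exists_bound (τ : Task) : ∃ K : ℕ, 1 ≤ K ∧ ∀ x, |((slopeT τ x : ℚ) : ℝ)| ≤ K ∧
    ∃ z : ℤ, (K : ℝ) * ((slopeT τ x : ℚ) : ℝ) = z := by
  classical
  set M : ℕ := ∏ l ∈ τ.2.support, (τ.2 l).1.den with hM
  have hMpos : 0 < M := Finset.prod_pos fun l _ => (τ.2 l).1.den_pos
  obtain ⟨B, hB⟩ : ∃ B : ℕ, ∀ l, |(((τ.2 l).1 : ℚ) : ℝ)| ≤ B := by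
    refine ⟨∑ l ∈ τ.2.support, ⌈|(((τ.2 l).1 : ℚ) : ℝ)|⌉₊, fun l => ?_⟩
    by_cases hl : l ∈ τ.2.support
    · have h1 : |(((τ.2 l).1 : ℚ) : ℝ)| ≤ ⌈|(((τ.2 l).1 : ℚ) : ℝ)|⌉₊ := Nat.le_ceil _
      have h2 : ⌈|(((τ.2 l).1 : ℚ) : ℝ)|⌉₊ ≤ ∑ l ∈ τ.2.support, ⌈|(((τ.2 l).1 : ℚ) : ℝ)|⌉₊ :=
        Finset.single_le_sum (f := fun l => ⌈|(((τ.2 l).1 : ℚ) : ℝ)|⌉₊)
          (fun _ _ => Nat.zero_le _) hl
      exact h1.trans (by exact_mod_cast h2)
    · have : τ.2 l = 0 := by simpa using hl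
      rw [this]
      simp only [Prod.fst_zero, Rat.cast_zero, abs_zero]
      positivity
  refine ⟨M * (B + 1), Nat.one_le_iff_ne_zero.2 (by positivity), fun x => ⟨?_, ?_⟩⟩
  · have h1 := hB (label τ.1 x)
    have h2 : (B : ℝ) ≤ ((M * (B + 1) : ℕ) : ℝ) := by
      have : B ≤ M * (B + 1) := by nlinarith
      exact_mod_cast this
    exact h1.trans h2
  · by_cases hl : label τ.1 x ∈ τ.2.support
    · have hdvd : (τ.2 (label τ.1 x)).1.den ∣ M := Finset.dvd_prod_of_mem _ hl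
      obtain ⟨k, hk⟩ := hdvd
      refine ⟨(τ.2 (label τ.1 x)).1.num * k * (B + 1), ?_⟩
      have h1 : (((τ.2 (label τ.1 x)).1 : ℚ) : ℝ) * ((τ.2 (label τ.1 x)).1.den : ℝ) =
          ((τ.2 (label τ.1 x)).1.num : ℝ) := by
        exact_mod_cast Rat.mul_den_eq_num (τ.2 (label τ.1 x)).1
      unfold slopeT
      rw [hk]
      push_cast
      rw [← h1]
      ring
    · have : τ.2 (label τ.1 x) = 0 := by simpa using hl
      refine ⟨0, ?_⟩
      unfold slopeT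
      rw [this]
      simp

/-- The truncations of `d`. -/
noncomputable def dtr (m : ℕ) (x : Idx) : ℝ := x.1 + ∑ i ∈ Finset.range m, ofDigitsTerm x.2 i

/-- The half-length function. -/
noncomputable def dd (x : Idx) : ℝ := x.1 + ofDigits x.2

lemma continuous_dd : Continuous dd := by
  unfold dd
  have := continuous_ofDigits (b := 2)
  fun_prop

lemma dd_surj (α : ℝ) (hα : 0 ≤ α) : ∃ x, dd x = α := by
  refine ⟨(⌊α⌋₊, digits (Int.fract α) 2), ?_⟩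
  unfold dd
  rw [ofDigits_digits (by norm_num) ⟨Int.fract_nonneg α, Int.fract_lt_one α⟩]
  have h1 : ((⌊α⌋₊ : ℕ) : ℝ) = ((⌊α⌋ : ℤ) : ℝ) := by
    exact_mod_cast (natCast_floor_eq_intCast_floor hα)
  simp only
  rw [h1]
  exact Int.floor_add_fract α

lemma continuous_dtr (m : ℕ) : Continuous (dtr m) := by
  unfold dtr ofDigitsTerm
  have : Continuous fun x : Fin 2 => ((x : ℕ) : ℝ) := continuous_of_discreteTopology
  fun_prop

lemma dd_eq (m : ℕ) (x : Idx) : ∃ t : ℝ, 0 ≤ t ∧ t ≤ 1 ∧ dd x = dtr m x + ((2 : ℝ) ^ m)⁻¹ * t := by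
  refine ⟨ofDigits (fun i ↦ x.2 (i + m)), ofDigits_nonneg _, ofDigits_le_one _, ?_⟩
  unfold dd dtr
  rw [ofDigits_eq_sum_add_ofDigits x.2 m]
  push_cast
  ring

/-- The ring of integers inside the reals. -/
abbrev ZR : Subring ℝ := (Int.castRingHom ℝ).range

lemma natCast_mem (n : ℕ) : (n : ℝ) ∈ ZR := ⟨n, by simp⟩
lemma intCast_mem (n : ℤ) : (n : ℝ) ∈ ZR := ⟨n, by simp⟩
lemma two_pow_mem (n : ℕ) : (2 : ℝ) ^ n ∈ ZR := by
  have := natCast_mem (2 ^ n)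
  push_cast at this
  exact this

lemma two_pow_mul_inv_mem {a b : ℕ} (h : b ≤ a) : (2 : ℝ) ^ a * ((2 : ℝ) ^ b)⁻¹ ∈ ZR := by
  obtain ⟨k, rfl⟩ := Nat.exists_eq_add_of_le h
  rw [pow_add, mul_comm ((2 : ℝ) ^ b), mul_assoc, mul_inv_cancel₀ (by positivity), mul_one]
  exact two_pow_mem k

lemma dtr_mem {m n : ℕ} (h : m ≤ n) (x : Idx) : (2 : ℝ) ^ n * dtr m x ∈ ZR := by
  unfold dtr
  rw [mul_add, Finset.mul_sum]
  refine add_mem (mul_mem (two_pow_mem n) (natCast_mem _)) (sum_mem fun i hi => ?_)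
  have hi' : i + 1 ≤ n := by
    have := Finset.mem_range.1 hi
    lia
  unfold ofDigitsTerm
  have : (2 : ℝ) ^ n * (((x.2 i : ℕ) : ℝ) * (((2 : ℕ) : ℝ) ^ (i + 1))⁻¹) =
      ((x.2 i : ℕ) : ℝ) * ((2 : ℝ) ^ n * ((2 : ℝ) ^ (i + 1))⁻¹) := by
    push_cast
    ring
  rw [this]
  exact mul_mem (natCast_mem _) (two_pow_mul_inv_mem hi')

lemma dtr_le_dtr {m n : ℕ} (h : m ≤ n) (x : Idx) : dtr m x ≤ dtr n x := by
  unfold dtr
  have := Finset.sum_le_sum_of_subset_of_nonneg (f := fun i => ofDigitsTerm x.2 i)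
    (Finset.range_mono h) (fun i _ _ => ofDigitsTerm_nonneg)
  linarith

lemma dtr_sub_le {m n : ℕ} (x : Idx) : dtr n x - dtr m x ≤ ((2 : ℝ) ^ m)⁻¹ := by
  obtain ⟨t, ht0, ht1, ht⟩ := dd_eq m x
  obtain ⟨t', ht0', ht1', ht'⟩ := dd_eq n x
  have h1 : 0 ≤ ((2 : ℝ) ^ n)⁻¹ * t' := by positivity
  have h2 : ((2 : ℝ) ^ m)⁻¹ * t ≤ ((2 : ℝ) ^ m)⁻¹ * 1 :=
    mul_le_mul_of_nonneg_left ht1 (by positivity)
  linarith

section Scales

variable (K : ℕ → ℕ)

/-- products of the bounds -/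
def PP (s : ℕ) : ℕ := ∏ r ∈ Finset.range s, K r

/-- the block boundaries -/
def nn : ℕ → ℕ
  | 0 => 0
  | s + 1 => (K (s + 1) + 2) * 2 ^ (s + 3) * 2 ^ (2 * (s + 1) * (2 ^ (nn s) * PP K s))

/-- the exponents of the marks -/
def mm (s : ℕ) : ℕ := 2 * (s + 1) * (2 ^ (nn K s) * PP K s)

variable {K}

lemma PP_pos (hK : ∀ s, 1 ≤ K s) (s : ℕ) : 1 ≤ PP K s :=
  Nat.one_le_iff_ne_zero.2 (Finset.prod_ne_zero_iff.2 fun r _ => by have := hK r; lia)

lemma nn_le_mm (hK : ∀ s, 1 ≤ K s) (s : ℕ) : nn K s ≤ mm K s := by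
  have h1 : nn K s < 2 ^ nn K s := Nat.lt_two_pow_self
  have h2 := PP_pos hK s
  unfold mm
  have h3 : 2 ^ nn K s ≤ 2 ^ nn K s * PP K s := Nat.le_mul_of_pos_right _ h2
  have h4 : 2 ^ nn K s * PP K s ≤ 2 * (s + 1) * (2 ^ nn K s * PP K s) :=
    Nat.le_mul_of_pos_left _ (by positivity)
  lia

lemma mm_spec (K : ℕ → ℕ) (s : ℕ) : 2 * (s + 1) * (2 ^ nn K s * PP K s) ≤ 2 ^ mm K s :=
  Nat.lt_two_pow_self.le

lemma nn_spec (K : ℕ → ℕ) (s : ℕ) :
    (K (s + 1) + 2) * 2 ^ (s + 3) * 2 ^ mm K s ≤ 2 ^ nn K (s + 1) := by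
  have : (K (s + 1) + 2) * 2 ^ (s + 3) * 2 ^ mm K s = nn K (s + 1) := rfl
  rw [this]
  exact Nat.lt_two_pow_self.le

lemma mm_le_nn (K : ℕ → ℕ) (s : ℕ) : mm K s ≤ nn K (s + 1) := by
  have h1 : mm K s < 2 ^ mm K s := Nat.lt_two_pow_self
  have h2 : nn K (s + 1) = (K (s + 1) + 2) * 2 ^ (s + 3) * 2 ^ mm K s := rfl
  have h3 : 2 ^ mm K s ≤ (K (s + 1) + 2) * 2 ^ (s + 3) * 2 ^ mm K s :=
    Nat.le_mul_of_pos_left _ (by positivity)
  lia

lemma nn_mono (hK : ∀ s, 1 ≤ K s) : Monotone (nn K) :=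
  monotone_nat_of_le_succ fun s => (nn_le_mm hK s).trans (mm_le_nn K s)

lemma mm_mono (hK : ∀ s, 1 ≤ K s) : Monotone (mm K) :=
  monotone_nat_of_le_succ fun s => (mm_le_nn K s).trans (nn_le_mm hK (s + 1))

end Scales

section Construction

variable (τ : ℕ → Task) (K : ℕ → ℕ)

/-- the `s`-th term of the series defining `u` -/
noncomputable def ff (s : ℕ) (x : Idx) : ℝ :=
  -((slopeT (τ s) x : ℚ) : ℝ) * (dtr (nn K (s + 1)) x - dtr (nn K s) x)
    + markT (τ s) x * ((2 : ℝ) ^ mm K s)⁻¹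

/-- the function `u` -/
noncomputable def uu (x : Idx) : ℝ := ∑' s, ff τ K s x

/-- bounds of the terms -/
noncomputable def BB (s : ℕ) : ℝ := (K s + 1) * ((2 : ℝ) ^ nn K s)⁻¹

lemma continuous_ff (s : ℕ) : Continuous (ff τ K s) := by
  unfold ff
  have h1 := continuous_slopeT (τ s)
  have h2 := continuous_markT (τ s)
  have h3 := continuous_dtr (nn K (s + 1))
  have h4 := continuous_dtr (nn K s)
  fun_prop

variable {τ K}

lemma ff_le (hK : ∀ s, 1 ≤ K s) (hKb : ∀ s x, |((slopeT (τ s) x : ℚ) : ℝ)| ≤ K s) (s : ℕ)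
    (x : Idx) : |ff τ K s x| ≤ BB K s := by
  unfold ff BB
  have h1 : |dtr (nn K (s + 1)) x - dtr (nn K s) x| ≤ ((2 : ℝ) ^ nn K s)⁻¹ := by
    rw [abs_of_nonneg (sub_nonneg.2 (dtr_le_dtr (nn_mono hK (Nat.le_succ s)) x))]
    exact dtr_sub_le x
  have h2 : |markT (τ s) x| ≤ 1 := by
    rcases markT_cases (τ s) x with h | h <;> rw [h] <;> norm_num
  have h3 : ((2 : ℝ) ^ mm K s)⁻¹ ≤ ((2 : ℝ) ^ nn K s)⁻¹ := by
    apply inv_anti₀ (by positivity)
    exact pow_le_pow_right₀ (by norm_num) (nn_le_mm hK s)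
  calc |-((slopeT (τ s) x : ℚ) : ℝ) * (dtr (nn K (s + 1)) x - dtr (nn K s) x)
    + markT (τ s) x * ((2 : ℝ) ^ mm K s)⁻¹|
      ≤ |-((slopeT (τ s) x : ℚ) : ℝ) * (dtr (nn K (s + 1)) x - dtr (nn K s) x)|
        + |markT (τ s) x * ((2 : ℝ) ^ mm K s)⁻¹| := abs_add_le _ _
    _ = |((slopeT (τ s) x : ℚ) : ℝ)| * |dtr (nn K (s + 1)) x - dtr (nn K s) x|
        + |markT (τ s) x| * ((2 : ℝ) ^ mm K s)⁻¹ := by
          rw [abs_mul, abs_neg, abs_mul, abs_of_nonneg (a := ((2 : ℝ) ^ mm K s)⁻¹) (by positivity)]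
    _ ≤ K s * ((2 : ℝ) ^ nn K s)⁻¹ + 1 * ((2 : ℝ) ^ nn K s)⁻¹ := by
          gcongr
          exact hKb s x
    _ = (K s + 1) * ((2 : ℝ) ^ nn K s)⁻¹ := by ring

lemma BB_nonneg (K : ℕ → ℕ) (s : ℕ) : 0 ≤ BB K s := by unfold BB; positivity

lemma BB_succ_le (K : ℕ → ℕ) (s : ℕ) :
    BB K (s + 1) ≤ ((2 : ℝ) ^ (s + 3))⁻¹ * ((2 : ℝ) ^ mm K s)⁻¹ := by
  unfold BB
  have h := nn_spec K s
  have h' : ((K (s + 1) : ℝ) + 2) * 2 ^ (s + 3) * 2 ^ mm K s ≤ 2 ^ nn K (s + 1) := by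
    exact_mod_cast h
  rw [← div_eq_mul_inv, ← mul_inv, ← one_div, div_le_div_iff₀ (by positivity) (by positivity)]
  have h3 : (0 : ℝ) < 2 ^ (s + 3) * 2 ^ mm K s := by positivity
  nlinarith

lemma BB_succ_le' (hK : ∀ s, 1 ≤ K s) (s j : ℕ) :
    BB K (s + j + 1) ≤ ((2 : ℝ) ^ (s + 3))⁻¹ * ((2 : ℝ) ^ mm K s)⁻¹ * (1 / 2) ^ j := by
  refine (BB_succ_le K (s + j)).trans ?_
  have h1 : ((2 : ℝ) ^ mm K (s + j))⁻¹ ≤ ((2 : ℝ) ^ mm K s)⁻¹ := by
    apply inv_anti₀ (by positivity)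
    exact pow_le_pow_right₀ (by norm_num) (mm_mono hK (Nat.le_add_right s j))
  have h2 : ((2 : ℝ) ^ (s + j + 3))⁻¹ = ((2 : ℝ) ^ (s + 3))⁻¹ * (1 / 2) ^ j := by
    rw [show s + j + 3 = (s + 3) + j by ring, pow_add, mul_inv, one_div, inv_pow]
  rw [h2]
  have h3 : (0 : ℝ) ≤ ((2 : ℝ) ^ (s + 3))⁻¹ * (1 / 2) ^ j := by positivity
  nlinarith [mul_le_mul_of_nonneg_left h1 h3]

lemma summable_BB (hK : ∀ s, 1 ≤ K s) : Summable (BB K) := by
  rw [← summable_nat_add_iff 1]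
  refine Summable.of_nonneg_of_le (fun s => BB_nonneg K _) (fun s => ?_)
    ((summable_geometric_of_lt_one (r := (1 / 2 : ℝ)) (by norm_num) (by norm_num)).mul_left
      (((2 : ℝ) ^ (0 + 3))⁻¹ * ((2 : ℝ) ^ mm K 0)⁻¹))
  have := BB_succ_le' hK 0 s
  rwa [zero_add] at this

lemma tsum_BB_le (hK : ∀ s, 1 ≤ K s) (s : ℕ) :
    ∑' j, BB K (j + (s + 1)) ≤ ((2 : ℝ) ^ (s + 2))⁻¹ * ((2 : ℝ) ^ mm K s)⁻¹ := by
  have hg : Summable fun j : ℕ => ((2 : ℝ) ^ (s + 3))⁻¹ * ((2 : ℝ) ^ mm K s)⁻¹ * (1 / 2) ^ j :=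
    (summable_geometric_of_lt_one (r := (1 / 2 : ℝ)) (by norm_num) (by norm_num)).mul_left _
  have h1 : ∑' j, BB K (j + (s + 1)) ≤
      ∑' j : ℕ, ((2 : ℝ) ^ (s + 3))⁻¹ * ((2 : ℝ) ^ mm K s)⁻¹ * (1 / 2) ^ j := by
    refine Summable.tsum_le_tsum (fun j => ?_) ((summable_nat_add_iff (s + 1)).2 (summable_BB hK)) hg
    have := BB_succ_le' hK s j
    rwa [show s + j + 1 = j + (s + 1) by ring] at this
  refine h1.trans_eq ?_
  rw [tsum_mul_left, tsum_geometric_of_lt_one (by norm_num) (by norm_num)]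
  rw [pow_succ (2 : ℝ) (s + 2)]
  field_simp
  norm_num

lemma summable_ff (hK : ∀ s, 1 ≤ K s) (hKb : ∀ s x, |((slopeT (τ s) x : ℚ) : ℝ)| ≤ K s)
    (x : Idx) : Summable fun s => ff τ K s x :=
  Summable.of_norm_bounded (summable_BB hK) fun s => by
    rw [Real.norm_eq_abs]; exact ff_le hK hKb s x

lemma continuous_uu (hK : ∀ s, 1 ≤ K s) (hKb : ∀ s x, |((slopeT (τ s) x : ℚ) : ℝ)| ≤ K s) :
    Continuous (uu τ K) :=
  continuous_tsum (continuous_ff τ K) (summable_BB hK) fun s x => by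
    rw [Real.norm_eq_abs]; exact ff_le hK hKb s x

lemma uu_eq (hK : ∀ s, 1 ≤ K s) (hKb : ∀ s x, |((slopeT (τ s) x : ℚ) : ℝ)| ≤ K s)
    (s : ℕ) (x : Idx) : ∃ t : ℝ, |t| ≤ ((2 : ℝ) ^ (s + 2))⁻¹ * ((2 : ℝ) ^ mm K s)⁻¹ ∧
    uu τ K x = ∑ r ∈ Finset.range s, ff τ K r x + ff τ K s x + t := by
  refine ⟨∑' j, ff τ K (j + (s + 1)) x, ?_, ?_⟩
  · have hs : Summable fun j => BB K (j + (s + 1)) :=
      (summable_nat_add_iff (s + 1)).2 (summable_BB hK)
    have h1 : |∑' j, ff τ K (j + (s + 1)) x| ≤ ∑' j, BB K (j + (s + 1)) := by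
      rw [← Real.norm_eq_abs]
      exact tsum_of_norm_bounded hs.hasSum fun j => by
        rw [Real.norm_eq_abs]; exact ff_le hK hKb _ x
    exact h1.trans (tsum_BB_le hK s)
  · unfold uu
    rw [← (summable_ff hK hKb x).sum_add_tsum_nat_add (s + 1), Finset.sum_range_succ]

lemma dd_eq' (hK : ∀ s, 1 ≤ K s) (s : ℕ) (x : Idx) :
    ∃ t : ℝ, |t| ≤ ((2 : ℝ) ^ (s + 2))⁻¹ * ((2 : ℝ) ^ mm K s)⁻¹ ∧
      dd x = dtr (nn K s) x + (dtr (nn K (s + 1)) x - dtr (nn K s) x) + t := by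
  obtain ⟨t, ht0, ht1, ht⟩ := dd_eq (nn K (s + 1)) x
  refine ⟨((2 : ℝ) ^ nn K (s + 1))⁻¹ * t, ?_, by rw [ht]; ring⟩
  have hnn : 0 ≤ ((2 : ℝ) ^ nn K (s + 1))⁻¹ := by positivity
  rw [abs_of_nonneg (mul_nonneg hnn ht0)]
  have h1 : ((2 : ℝ) ^ nn K (s + 1))⁻¹ * t ≤ BB K (s + 1) := by
    unfold BB
    have hk : (1 : ℝ) ≤ K (s + 1) := by exact_mod_cast hK (s + 1)
    nlinarith [mul_le_mul_of_nonneg_left ht1 hnn]
  refine h1.trans ((BB_succ_le K s).trans ?_)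
  have h2 : ((2 : ℝ) ^ (s + 3))⁻¹ ≤ ((2 : ℝ) ^ (s + 2))⁻¹ :=
    inv_anti₀ (by positivity) (pow_le_pow_right₀ (by norm_num) (by lia))
  exact mul_le_mul_of_nonneg_right h2 (by positivity)

/-- integrality of the truncations -/
lemma trunc_mem (hK : ∀ s, 1 ≤ K s)
    (hKi : ∀ s x, (K s : ℝ) * ((slopeT (τ s) x : ℚ) : ℝ) ∈ ZR) (s : ℕ) (x : Idx) :
    ((2 : ℝ) ^ nn K s * PP K s) * ∑ r ∈ Finset.range s, ff τ K r x ∈ ZR := by
  rw [Finset.mul_sum]
  refine sum_mem fun r hr => ?_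
  have hrs : r < s := Finset.mem_range.1 hr
  obtain ⟨Q, hQ⟩ : K r ∣ PP K s := Finset.dvd_prod_of_mem _ hr
  have hle1 : nn K (r + 1) ≤ nn K s := nn_mono hK hrs
  have hle0 : nn K r ≤ nn K s := nn_mono hK hrs.le
  have hle2 : mm K r ≤ nn K s := (mm_le_nn K r).trans hle1
  unfold ff
  have heq : ((2 : ℝ) ^ nn K s * PP K s) *
      (-((slopeT (τ r) x : ℚ) : ℝ) * (dtr (nn K (r + 1)) x - dtr (nn K r) x)
        + markT (τ r) x * ((2 : ℝ) ^ mm K r)⁻¹) =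
      -((Q : ℝ) * ((K r : ℝ) * ((slopeT (τ r) x : ℚ) : ℝ)) *
        ((2 : ℝ) ^ nn K s * dtr (nn K (r + 1)) x - (2 : ℝ) ^ nn K s * dtr (nn K r) x)) +
      (PP K s : ℝ) * (markT (τ r) x * ((2 : ℝ) ^ nn K s * ((2 : ℝ) ^ mm K r)⁻¹)) := by
    rw [hQ]; push_cast; ring
  rw [heq]
  have hmark : markT (τ r) x ∈ ZR := by
    rcases markT_cases (τ r) x with h | h
    · rw [h]; exact zero_mem _
    · rw [h]; exact one_mem _
  exact add_mem (neg_mem (mul_mem (mul_mem (natCast_mem _) (hKi r x))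
    (sub_mem (dtr_mem hle1 x) (dtr_mem hle0 x))))
    (mul_mem (natCast_mem _) (mul_mem hmark (two_pow_mul_inv_mem hle2)))

end Construction

/-- Distinct points have distinct labels at all large levels. -/
lemma exists_label_injOn (F : Finset Idx) : ∃ t, Set.InjOn (label t) (F : Set Idx) := by
  classical
  have h : ∀ p : Idx × Idx, ∃ t, ∀ t' ≥ t, label t' p.1 = label t' p.2 → p.1 = p.2 := by
    rintro ⟨⟨n, w⟩, ⟨n', w'⟩⟩
    by_cases hn : n = n'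
    · by_cases hw : w = w'
      · exact ⟨0, fun _ _ _ => by rw [hn, hw]⟩
      · obtain ⟨i, hi⟩ := Function.ne_iff.1 hw
        refine ⟨i + 1, fun t' ht' h => absurd ?_ hi⟩
        have := congrFun (congrArg Prod.snd h) ⟨i, by lia⟩
        exact this
    · exact ⟨0, fun t' _ h => absurd (congrArg Prod.fst h) hn⟩
  choose g hg using h
  refine ⟨(F ×ˢ F).sup g, ?_⟩
  intro x hx y hy hxy
  exact hg (x, y) _ (Finset.le_sup (f := g) (Finset.mem_product.2 ⟨hx, hy⟩)) hxy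

/-- For every finite set of points and every assignment there is a task realizing it. -/
lemma exists_task (F : Finset Idx) (σ : Idx → ℚ) (x₀ : Idx) (hx₀ : x₀ ∈ F) :
    ∃ τ : Task, (∀ x ∈ F, slopeT τ x = σ x) ∧ markT τ x₀ = 1 ∧
      ∀ x ∈ F, x ≠ x₀ → markT τ x = 0 := by
  classical
  obtain ⟨t, ht⟩ := exists_label_injOn F
  set g : (ℕ × (Fin t → Fin 2)) →₀ (ℚ × ℚ) :=
    ∑ x ∈ F, Finsupp.single (label t x) (σ x, if x = x₀ then (1 : ℚ) else 0) with hg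
  have hgv : ∀ x ∈ F, g (label t x) = (σ x, if x = x₀ then (1 : ℚ) else 0) := by
    intro x hx
    rw [hg, Finsupp.finsetSum_apply, Finset.sum_eq_single x]
    · simp
    · intro y hy hyx
      rw [Finsupp.single_apply, if_neg]
      intro h
      exact hyx (ht hy hx h)
    · intro h; exact absurd hx h
  refine ⟨⟨t, g⟩, ?_, ?_, ?_⟩
  · intro x hx
    unfold slopeT
    simp only
    rw [hgv x hx]
  · unfold markT
    simp only
    rw [hgv x₀ hx₀]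
    simp
  · intro x hx hne
    unfold markT
    simp only
    rw [hgv x hx]
    simp [hne]

/-- The key lemma, for a sequence of tasks in which every task occurs arbitrarily late. -/
lemma indep_uu {τ : ℕ → Task} {K : ℕ → ℕ} (hK : ∀ s, 1 ≤ K s)
    (hKb : ∀ s x, |((slopeT (τ s) x : ℚ) : ℝ)| ≤ K s)
    (hKi : ∀ s x, (K s : ℝ) * ((slopeT (τ s) x : ℚ) : ℝ) ∈ ZR)
    (hτ : ∀ (T : Task) (s₀ : ℕ), ∃ s ≥ s₀, τ s = T) : Indep (uu τ K) dd := by
  classical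
  intro c e hc hce hval
  set F := c.support with hF
  obtain ⟨x₀, hx₀⟩ : F.Nonempty := Finsupp.support_nonempty_iff.2 hc
  -- rewrite the relation as a finite sum over `F`
  have hsum : ∑ x ∈ F, ((c x : ℝ) * uu τ K x + (e x : ℝ) * dd x) = 0 := by
    have h1 : Finsupp.linearCombination ℚ (uu τ K) c = ∑ x ∈ F, (c x : ℝ) * uu τ K x := by
      rw [Finsupp.linearCombination_apply, Finsupp.sum]
      exact Finset.sum_congr rfl fun x _ => by rw [Rat.smul_def]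
    have hsub : e.support ⊆ F := by
      intro x hx
      rw [hF, Finsupp.mem_support_iff]
      intro h
      exact (Finsupp.mem_support_iff.1 hx) (hce x h)
    have h2 : Finsupp.linearCombination ℚ dd e = ∑ x ∈ F, (e x : ℝ) * dd x := by
      rw [Finsupp.linearCombination_apply,
        Finsupp.sum_of_support_subset e hsub (fun x r => r • dd x) (by simp)]
      exact Finset.sum_congr rfl fun x _ => by rw [Rat.smul_def]
    rw [Finset.sum_add_distrib, ← h1, ← h2]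
    exact hval
  -- clear denominators
  set L : ℕ := ∏ x ∈ F, (c x).den * (e x).den with hL
  have hLpos : 0 < L := Finset.prod_pos fun x _ => Nat.mul_pos (c x).den_pos (e x).den_pos
  have hLc : ∀ x ∈ F, (L : ℝ) * (c x : ℝ) ∈ ZR := by
    intro x hx
    obtain ⟨k, hk⟩ : (c x).den * (e x).den ∣ L := Finset.dvd_prod_of_mem _ hx
    refine ⟨(c x).num * ((e x).den * k), ?_⟩
    have h1 : (c x : ℝ) * ((c x).den : ℝ) = ((c x).num : ℝ) := by
      exact_mod_cast Rat.mul_den_eq_num (c x)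
    rw [hk]
    simp only [eq_intCast]
    push_cast
    rw [← h1]
    ring
  have hLe : ∀ x ∈ F, (L : ℝ) * (e x : ℝ) ∈ ZR := by
    intro x hx
    obtain ⟨k, hk⟩ : (c x).den * (e x).den ∣ L := Finset.dvd_prod_of_mem _ hx
    refine ⟨(e x).num * ((c x).den * k), ?_⟩
    have h1 : (e x : ℝ) * ((e x).den : ℝ) = ((e x).num : ℝ) := by
      exact_mod_cast Rat.mul_den_eq_num (e x)
    rw [hk]
    simp only [eq_intCast]
    push_cast
    rw [← h1]
    ring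
  -- the total mass
  obtain ⟨C, hC⟩ : ∃ C : ℕ, ∑ x ∈ F, (|(L : ℝ) * (c x : ℝ)| + |(L : ℝ) * (e x : ℝ)|) ≤ C :=
    exists_nat_ge _
  -- choose the task
  obtain ⟨T, hT1, hT2, hT3⟩ := exists_task F (fun x => e x / c x) x₀ hx₀
  obtain ⟨s, hs, hsT⟩ := hτ T (C + 1)
  choose tu htu htu' using fun x => uu_eq hK hKb s x
  choose td htd htd' using fun x => dd_eq' hK s x
  -- abbreviations
  set δ : ℝ := ((2 : ℝ) ^ mm K s)⁻¹ with hδ
  have hδpos : 0 < δ := by positivity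
  set P : ℝ := ∑ x ∈ F, ((L : ℝ) * (c x : ℝ) * ∑ r ∈ Finset.range s, ff τ K r x +
    (L : ℝ) * (e x : ℝ) * dtr (nn K s) x) with hP
  set R' : ℝ := ∑ x ∈ F, ((L : ℝ) * (c x : ℝ) * tu x + (L : ℝ) * (e x : ℝ) * td x) with hR
  have hmid : ∀ x ∈ F, (L : ℝ) * (c x : ℝ) * ff τ K s x +
      (L : ℝ) * (e x : ℝ) * (dtr (nn K (s + 1)) x - dtr (nn K s) x) =
      if x = x₀ then (L : ℝ) * (c x₀ : ℝ) * δ else 0 := by
    intro x hx
    have hcx : (c x : ℝ) ≠ 0 := by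
      have := Finsupp.mem_support_iff.1 hx
      exact_mod_cast this
    unfold ff
    rw [hsT, hT1 x hx]
    have h1 : ((e x / c x : ℚ) : ℝ) = (e x : ℝ) / (c x : ℝ) := by push_cast; ring
    rw [h1]
    by_cases hxx : x = x₀
    · rw [if_pos hxx, hxx, hT2, ← hδ]
      rw [hxx] at hcx
      field_simp
      ring
    · rw [if_neg hxx, hT3 x hx hxx]
      field_simp
      ring
  have htotal : P + (L : ℝ) * (c x₀ : ℝ) * δ + R' = 0 := by
    have h0 : (L : ℝ) * ∑ x ∈ F, ((c x : ℝ) * uu τ K x + (e x : ℝ) * dd x) = 0 := by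
      rw [hsum, mul_zero]
    rw [← h0, hP, hR, Finset.mul_sum]
    have h1 : (L : ℝ) * (c x₀ : ℝ) * δ = ∑ x ∈ F, if x = x₀ then (L : ℝ) * (c x₀ : ℝ) * δ else 0 := by
      rw [Finset.sum_ite_eq' F x₀]
      simp [hx₀]
    rw [h1, ← Finset.sum_add_distrib, ← Finset.sum_add_distrib]
    refine Finset.sum_congr rfl fun x hx => ?_
    rw [← hmid x hx, htu' x, htd' x]
    ring
  -- integrality
  set D : ℝ := (2 : ℝ) ^ nn K s * PP K s with hD
  have hDpos : 0 < D := by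
    have : (1 : ℝ) ≤ PP K s := by exact_mod_cast PP_pos hK s
    positivity
  have hPint : D * P ∈ ZR := by
    rw [hP, Finset.mul_sum]
    refine sum_mem fun x hx => ?_
    have h2 : D * ((L : ℝ) * (c x : ℝ) * ∑ r ∈ Finset.range s, ff τ K r x +
        (L : ℝ) * (e x : ℝ) * dtr (nn K s) x) =
        ((L : ℝ) * (c x : ℝ)) * (D * ∑ r ∈ Finset.range s, ff τ K r x) +
        ((L : ℝ) * (e x : ℝ)) * ((PP K s : ℝ) * ((2 : ℝ) ^ nn K s * dtr (nn K s) x)) := by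
      rw [hD]; ring
    rw [h2]
    exact add_mem (mul_mem (hLc x hx) (trunc_mem hK hKi s x))
      (mul_mem (hLe x hx) (mul_mem (natCast_mem _) (dtr_mem le_rfl x)))
  -- size estimates
  have hs1 : (C : ℝ) + 1 ≤ s := by exact_mod_cast hs
  have hδD : 2 * ((s : ℝ) + 1) * D * δ ≤ 1 := by
    have h := mm_spec K s
    have h' : 2 * ((s : ℝ) + 1) * ((2 : ℝ) ^ nn K s * PP K s) ≤ (2 : ℝ) ^ mm K s := by
      exact_mod_cast h
    rw [hδ, hD, ← div_eq_mul_inv, div_le_one (by positivity)]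
    exact h'
  have hRle : |R'| ≤ δ / 4 := by
    have h1 : |R'| ≤ ∑ x ∈ F, (|(L : ℝ) * (c x : ℝ)| + |(L : ℝ) * (e x : ℝ)|) *
        (((2 : ℝ) ^ (s + 2))⁻¹ * δ) := by
      refine (Finset.abs_sum_le_sum_abs _ _).trans (Finset.sum_le_sum fun x _ => ?_)
      refine (abs_add_le _ _).trans ?_
      rw [abs_mul ((L : ℝ) * (c x : ℝ)), abs_mul ((L : ℝ) * (e x : ℝ)), add_mul]
      exact add_le_add (mul_le_mul_of_nonneg_left (htu x) (abs_nonneg _))
        (mul_le_mul_of_nonneg_left (htd x) (abs_nonneg _))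
    rw [← Finset.sum_mul] at h1
    refine h1.trans ?_
    have h2 : (C : ℝ) ≤ 2 ^ s := by
      have h3 : s < 2 ^ s := Nat.lt_two_pow_self
      have h4 : C ≤ 2 ^ s := by lia
      exact_mod_cast h4
    have h5 : (∑ x ∈ F, (|(L : ℝ) * (c x : ℝ)| + |(L : ℝ) * (e x : ℝ)|)) *
        (((2 : ℝ) ^ (s + 2))⁻¹ * δ) ≤ 2 ^ s * (((2 : ℝ) ^ (s + 2))⁻¹ * δ) :=
      mul_le_mul_of_nonneg_right (hC.trans h2) (by positivity)
    refine h5.trans_eq ?_
    rw [pow_add]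
    field_simp
    norm_num
  obtain ⟨a₀, ha₀⟩ := hLc x₀ hx₀
  have ha₀' : (a₀ : ℝ) = (L : ℝ) * (c x₀ : ℝ) := by simpa using ha₀
  have ha₀ne : a₀ ≠ 0 := by
    intro h
    rw [h] at ha₀'
    have hcx : (c x₀ : ℝ) ≠ 0 := by
      have := Finsupp.mem_support_iff.1 hx₀
      exact_mod_cast this
    have : (L : ℝ) * (c x₀ : ℝ) ≠ 0 := mul_ne_zero (by exact_mod_cast hLpos.ne') hcx
    exact this (by rw [← ha₀']; simp)
  have ha₀1 : (1 : ℝ) ≤ |(a₀ : ℝ)| := by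
    have := Int.one_le_abs ha₀ne
    exact_mod_cast this
  have ha₀C : |(a₀ : ℝ)| ≤ C := by
    refine le_trans ?_ hC
    rw [ha₀']
    have h1 : |(L : ℝ) * (c x₀ : ℝ)| ≤ |(L : ℝ) * (c x₀ : ℝ)| + |(L : ℝ) * (e x₀ : ℝ)| := by
      have := abs_nonneg ((L : ℝ) * (e x₀ : ℝ))
      linarith
    exact h1.trans (Finset.single_le_sum
      (f := fun x => |(L : ℝ) * (c x : ℝ)| + |(L : ℝ) * (e x : ℝ)|)
      (fun x _ => by positivity) hx₀)
  -- conclusion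
  obtain ⟨z, hz⟩ := hPint
  have hz' : (z : ℝ) = D * P := by simpa using hz
  rw [← ha₀'] at htotal
  have hPabs : |P| ≤ (C + 1) * δ := by
    have hPeq : P = -((a₀ : ℝ) * δ + R') := by linarith
    rw [hPeq, abs_neg]
    refine (abs_add_le _ _).trans ?_
    rw [abs_mul, abs_of_pos hδpos]
    have := mul_le_mul_of_nonneg_right ha₀C hδpos.le
    linarith
  have hzabs : |(z : ℝ)| < 1 := by
    rw [hz', abs_mul, abs_of_pos hDpos]
    have h1 : D * |P| ≤ D * ((C + 1) * δ) := mul_le_mul_of_nonneg_left hPabs hDpos.le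
    have h2 : 0 < D * δ := mul_pos hDpos hδpos
    nlinarith
  have hz0 : z = 0 := by
    have : |z| < 1 := by exact_mod_cast hzabs
    exact Int.abs_lt_one_iff.1 this
  have hP0 : P = 0 := by
    rw [hz0] at hz'
    simp only [Int.cast_zero] at hz'
    rcases mul_eq_zero.1 hz'.symm with h | h
    · exact absurd h hDpos.ne'
    · exact h
  rw [hP0] at htotal
  have h3 : |(a₀ : ℝ)| * δ = |R'| := by
    have : (a₀ : ℝ) * δ = -R' := by linarith
    rw [← abs_neg R', ← this, abs_mul, abs_of_pos hδpos]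
  nlinarith

/-- The independent pair. -/
theorem exists_indep : ∃ u : Idx → ℝ, Continuous u ∧ Indep u dd := by
  classical
  obtain ⟨g, hg⟩ := exists_surjective_nat Task
  set τ : ℕ → Task := fun s => g s.unpair.1 with hτ
  choose K hK1 hK2 using fun s => exists_bound (τ s)
  refine ⟨uu τ K, continuous_uu hK1 (fun s x => (hK2 s x).1),
    indep_uu hK1 (fun s x => (hK2 s x).1) (fun s x => ?_) ?_⟩
  · obtain ⟨z, hz⟩ := (hK2 s x).2
    rw [hz]
    exact intCast_mem z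
  · intro T s₀
    obtain ⟨k, hk⟩ := hg T
    refine ⟨Nat.pair k s₀, Nat.right_le_pair k s₀, ?_⟩
    simp [hτ, hk]

/-- Every Borel set of nonnegative reals containing `0` is the center of distances of a Borel set. -/
theorem borel_center (A : Set ℝ) (hAm : MeasurableSet A)
    (h0 : (0 : ℝ) ∈ A) (hA : A ⊆ Ici (0 : ℝ)) :
    ∃ B : Set ℝ, MeasurableSet B ∧
        {α : ℝ | 0 ≤ α ∧ ∀ x ∈ B, ∃ y ∈ B, |x - y| = α} = A := by
  obtain ⟨u, hu, hI⟩ := exists_indep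
  exact abstract_main hu continuous_dd hI dd_surj A hAm h0 hA

end Pool.Agent.Lib.H38.Bdf
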