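import Mathlib

set_option autoImplicit false

/-!
# Taylor coefficients of `Θ (x z) / (1 - z)` with `x z = (1 + z) / (2 n (1 - z))`
-/

namespace Pool.Agent.Lib.H38.Kp

open Filter Topology Finset

/-- The coefficients of `((1 + z) / (1 - z)) ^ m / (1 - z)` (Delannoy numbers). -/
def Dl : ℕ → ℕ → ℕ
  | _, 0 => 1
  | 0, _ + 1 => 1
  | n + 1, m + 1 => Dl n (m + 1) + Dl (n + 1) m + Dl n m

@[simp] lemma Dl_zero_right (n : ℕ) : Dl n 0 = 1 := by cases n <;> rw [Dl]
@[simp] lemma Dl_zero_left (m : ℕ) : Dl 0 m = 1 := by cases m <;> rw [Dl]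
lemma Dl_succ (n m : ℕ) : Dl (n + 1) (m + 1) = Dl n (m + 1) + Dl (n + 1) m + Dl n m := by
  rw [Dl]

lemma Dl_le (m : ℕ) : ∀ n, Dl n m ≤ 2 ^ m * (n + m).choose m := by
  induction m with
  | zero => intro n; simp
  | succ m ihm =>
    intro n
    induction n with
    | zero =>
      simp only [Dl_zero_left, zero_add, Nat.choose_self, mul_one]
      exact Nat.one_le_two_pow
    | succ n ihn =>
      rw [Dl_succ]
      have h1 := ihm (n + 1)
      have h2 := ihm n
      have h3 : (n + m).choose m ≤ (n + 1 + m).choose m := Nat.choose_le_choose m (by lia)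
      have h4 : (n + 1 + (m + 1)).choose (m + 1) =
          (n + 1 + m).choose m + (n + (m + 1)).choose (m + 1) := by
        rw [show n + 1 + (m + 1) = (n + 1 + m) + 1 by ring, Nat.choose_succ_succ,
          show n + (m + 1) = n + 1 + m by ring]
      rw [h4, pow_succ]
      have h5 : 2 ^ m * (n + m).choose m ≤ 2 ^ m * (n + 1 + m).choose m :=
        Nat.mul_le_mul_left _ h3
      rw [pow_succ] at ihn
      nlinarith

lemma le_Dl (m : ℕ) : ∀ n, 2 ^ m * n.choose m ≤ Dl n m := by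
  induction m with
  | zero => intro n; simp
  | succ m ihm =>
    intro n
    induction n with
    | zero => simp
    | succ n ihn =>
      rw [Dl_succ]
      have h1 := ihm (n + 1)
      have h2 := ihm n
      have h3 : n.choose m ≤ (n + 1).choose m := Nat.choose_le_choose m (by lia)
      rw [Nat.choose_succ_succ, pow_succ]
      rw [pow_succ] at ihn
      have h5 : 2 ^ m * n.choose m ≤ 2 ^ m * (n + 1).choose m := Nat.mul_le_mul_left _ h3
      nlinarith

lemma summable_choose_geom (k : ℕ) {r : ℝ} (h0 : 0 ≤ r) (h1 : r < 1) :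
    Summable fun n : ℕ => ((n + k).choose k : ℝ) * r ^ n :=
  summable_choose_mul_geometric_of_norm_lt_one k (by rwa [Real.norm_eq_abs, abs_of_nonneg h0])

lemma summable_Dl (m : ℕ) {r : ℝ} (h0 : 0 ≤ r) (h1 : r < 1) :
    Summable fun n : ℕ => (Dl n m : ℝ) * r ^ n := by
  refine Summable.of_nonneg_of_le (fun n => by positivity) (fun n => ?_)
    ((summable_choose_geom m h0 h1).mul_left (2 ^ m))
  have h := Dl_le m n
  have h' : (Dl n m : ℝ) ≤ 2 ^ m * ((n + m).choose m : ℝ) := by exact_mod_cast h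
  calc (Dl n m : ℝ) * r ^ n ≤ (2 ^ m * ((n + m).choose m : ℝ)) * r ^ n := by gcongr
    _ = 2 ^ m * (((n + m).choose m : ℝ) * r ^ n) := by ring

/-- The generating function of the Delannoy numbers. -/
lemma hasSum_Dl (m : ℕ) {z : ℂ} (hz : ‖z‖ < 1) :
    HasSum (fun n : ℕ => (Dl n m : ℂ) * z ^ n) (((1 + z) / (1 - z)) ^ m / (1 - z)) := by
  have hz1 : (1 : ℂ) - z ≠ 0 := by
    intro h
    have : z = 1 := (sub_eq_zero.1 h).symm
    rw [this] at hz
    simp at hz
  induction m with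
  | zero =>
    simp only [Dl_zero_right, Nat.cast_one, one_mul, pow_zero, one_div]
    exact hasSum_geometric_of_norm_lt_one hz
  | succ m ih =>
    have hs : Summable (fun n : ℕ => (Dl n (m + 1) : ℂ) * z ^ n) := by
      refine Summable.of_norm ?_
      have := summable_Dl (m + 1) (norm_nonneg z) hz
      simpa [norm_mul, norm_pow] using this
    obtain ⟨s, hs'⟩ := hs
    have e1 : HasSum (fun n : ℕ => (Dl (n + 1) (m + 1) : ℂ) * z ^ (n + 1)) (s - 1) := by
      have := (hasSum_nat_add_iff' 1).2 hs'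
      simpa using this
    have e2 : HasSum (fun n : ℕ => (Dl (n + 1) m : ℂ) * z ^ (n + 1))
        (((1 + z) / (1 - z)) ^ m / (1 - z) - 1) := by
      have := (hasSum_nat_add_iff' 1).2 ih
      simpa using this
    have e3 : HasSum (fun n : ℕ => (Dl (n + 1) (m + 1) : ℂ) * z ^ (n + 1))
        (z * s + (((1 + z) / (1 - z)) ^ m / (1 - z) - 1) +
          z * (((1 + z) / (1 - z)) ^ m / (1 - z))) := by
      have := ((hs'.mul_left z).add e2).add (ih.mul_left z)
      have hfun : (fun n : ℕ => (Dl (n + 1) (m + 1) : ℂ) * z ^ (n + 1)) =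
          fun b => z * (↑(Dl b (m + 1)) * z ^ b) + ↑(Dl (b + 1) m) * z ^ (b + 1) +
            z * (↑(Dl b m) * z ^ b) := by
        funext k
        rw [Dl_succ]; push_cast; ring
      rw [hfun]
      exact this
    have e4 := e1.unique e3
    have e5 : s = ((1 + z) / (1 - z)) ^ (m + 1) / (1 - z) := by
      rw [pow_succ]
      field_simp
      field_simp at e4
      linear_combination e4
    rw [← e5]
    exact hs'

/-! ### Taylor coefficients -/

/-- The `n`-th Taylor coefficient at `0`. -/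
noncomputable def coef (n : ℕ) (f : ℂ → ℂ) : ℂ := iteratedDeriv n f 0 / (n.factorial : ℂ)

lemma coef_eq_of_hasSum {f : ℂ → ℂ} {c : ℕ → ℂ}
    (h : ∀ᶠ z in 𝓝 (0 : ℂ), HasSum (fun n => c n * z ^ n) (f z)) (n : ℕ) : coef n f = c n := by
  have h1 : HasFPowerSeriesAt f (FormalMultilinearSeries.ofScalars ℂ c) 0 := by
    rw [hasFPowerSeriesAt_iff]
    filter_upwards [h] with z hz
    simp only [FormalMultilinearSeries.coeff_ofScalars, smul_eq_mul, zero_add]
    simpa only [mul_comm] using hz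
  have h2 := (h1.analyticAt).hasFPowerSeriesAt
  have h3 := congrArg (fun p => p.coeff n) (h2.eq_formalMultilinearSeries h1)
  simp only [FormalMultilinearSeries.coeff_ofScalars] at h3
  exact h3

lemma coef_congr {f g : ℂ → ℂ} (h : f =ᶠ[𝓝 0] g) (n : ℕ) : coef n f = coef n g := by
  unfold coef
  rw [h.iteratedDeriv_eq]

lemma hasSum_coef {f : ℂ → ℂ} {r : ℝ} (hf : DifferentiableOn ℂ f (Metric.ball 0 r)) {z : ℂ}
    (hz : ‖z‖ < r) : HasSum (fun n => coef n f * z ^ n) (f z) := by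
  have := Complex.hasSum_taylorSeries_on_ball hf (z := z) (by simpa using hz)
  convert! this using 2 with n
  unfold coef
  simp only [sub_zero, smul_eq_mul]
  ring

lemma coef_add {f g : ℂ → ℂ} {r : ℝ} (hr : 0 < r) (hf : DifferentiableOn ℂ f (Metric.ball 0 r))
    (hg : DifferentiableOn ℂ g (Metric.ball 0 r)) (n : ℕ) :
    coef n (fun z => f z + g z) = coef n f + coef n g := by
  refine coef_eq_of_hasSum (c := fun n => coef n f + coef n g) ?_ n
  filter_upwards [Metric.ball_mem_nhds (0 : ℂ) hr] with z hz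
  have hz' : ‖z‖ < r := by simpa using hz
  have := (hasSum_coef hf hz').add (hasSum_coef hg hz')
  simpa only [add_mul] using this

lemma coef_const_mul {f : ℂ → ℂ} {r : ℝ} (hr : 0 < r) (hf : DifferentiableOn ℂ f (Metric.ball 0 r))
    (a : ℂ) (n : ℕ) :
    coef n (fun z => a * f z) = a * coef n f := by
  refine coef_eq_of_hasSum (c := fun n => a * coef n f) ?_ n
  filter_upwards [Metric.ball_mem_nhds (0 : ℂ) hr] with z hz
  have hz' : ‖z‖ < r := by simpa using hz
  have := (hasSum_coef hf hz').mul_left a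
  simpa only [mul_assoc] using this

/-- Cauchy estimate on an open ball. -/
lemma norm_coef_le {f : ℂ → ℂ} {r K : ℝ} (hr : 0 < r)
    (hf : DifferentiableOn ℂ f (Metric.ball 0 r)) (hK : ∀ z ∈ Metric.ball (0 : ℂ) r, ‖f z‖ ≤ K)
    (n : ℕ) : ‖coef n f‖ * r ^ n ≤ K := by
  have hlt : ∀ s : ℝ, 0 < s → s < r → ‖coef n f‖ * s ^ n ≤ K := by
    intro s hs hsr
    have h1 : DiffContOnCl ℂ f (Metric.ball 0 s) := by
      refine DifferentiableOn.diffContOnCl ?_
      rw [closure_ball _ hs.ne']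
      exact hf.mono (Metric.closedBall_subset_ball hsr)
    have h2 := Complex.norm_iteratedDeriv_le_of_forall_mem_sphere_norm_le n hs h1
      (C := K) (fun z hz => hK z (Metric.closedBall_subset_ball hsr
        (Metric.sphere_subset_closedBall hz)))
    unfold coef
    rw [norm_div, Complex.norm_natCast]
    have hfac : (0 : ℝ) < (n.factorial : ℝ) := by exact_mod_cast n.factorial_pos
    rw [div_mul_eq_mul_div, div_le_iff₀ hfac]
    rw [le_div_iff₀ (by positivity)] at h2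
    linarith
  have hcont : ContinuousWithinAt (fun s : ℝ => ‖coef n f‖ * s ^ n) (Set.Iio r) r := by
    apply Continuous.continuousWithinAt
    fun_prop
  refine le_of_tendsto hcont ?_
  have : Set.Ioo 0 r ∈ 𝓝[<] r := Ioo_mem_nhdsLT hr
  filter_upwards [this] with s hs
  exact hlt s hs.1 hs.2

/-! ### The substitution -/

/-- `x_n z = (1 + z) / (2 n (1 - z))`. -/
noncomputable def xn (n : ℕ) (z : ℂ) : ℂ := (1 / (2 * (n : ℂ))) * ((1 + z) / (1 - z))

lemma coef_monomial (n m k : ℕ) :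
    coef k (fun z => xn n z ^ m / (1 - z)) = (1 / (2 * (n : ℂ))) ^ m * (Dl k m : ℂ) := by
  refine coef_eq_of_hasSum (c := fun k => (1 / (2 * (n : ℂ))) ^ m * (Dl k m : ℂ)) ?_ k
  filter_upwards [Metric.ball_mem_nhds (0 : ℂ) one_pos] with z hz
  have hz' : ‖z‖ < 1 := by simpa using hz
  have := (hasSum_Dl m hz').mul_left ((1 / (2 * (n : ℂ))) ^ m)
  have e : xn n z ^ m / (1 - z) = (1 / (2 * (n : ℂ))) ^ m * (((1 + z) / (1 - z)) ^ m / (1 - z)) := by
    unfold xn
    rw [mul_pow, mul_div_assoc]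
  rw [e]
  simpa only [mul_assoc] using this

/-- the weights -/
noncomputable def wt (n m : ℕ) : ℝ := ((n + m).choose m : ℝ) / (n : ℝ) ^ m

lemma wt_nonneg (n m : ℕ) : 0 ≤ wt n m := by unfold wt; positivity

lemma wt_succ {n : ℕ} (hn : 1 ≤ n) (m : ℕ) :
    wt n (m + 1) = wt n m * (1 / ((m : ℝ) + 1) + 1 / (n : ℝ)) := by
  unfold wt
  have hn' : (0 : ℝ) < n := by exact_mod_cast hn
  have h : ((n + (m + 1)).choose (m + 1) : ℝ) * ((m : ℝ) + 1) =
      ((n : ℝ) + m + 1) * ((n + m).choose m : ℝ) := by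
    have := Nat.add_one_mul_choose_eq (n + m) m
    have h2 : ((n + m + 1 : ℕ) : ℝ) * ((n + m).choose m : ℝ) =
        ((n + m + 1).choose (m + 1) : ℝ) * ((m + 1 : ℕ) : ℝ) := by exact_mod_cast this
    push_cast at h2
    rw [show n + (m + 1) = n + m + 1 by ring]
    linarith
  have hm : (0 : ℝ) < (m : ℝ) + 1 := by positivity
  have h' : ((n + (m + 1)).choose (m + 1) : ℝ) =
      ((n : ℝ) + m + 1) * ((n + m).choose m : ℝ) / ((m : ℝ) + 1) := by
    rw [eq_div_iff hm.ne']; exact h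
  rw [h', pow_succ]
  field_simp
  ring

lemma wt_anti {n₀ n : ℕ} (h0 : 1 ≤ n₀) (h : n₀ ≤ n) (m : ℕ) : wt n m ≤ wt n₀ m := by
  induction m with
  | zero => simp [wt]
  | succ m ih =>
    rw [wt_succ h0, wt_succ (h0.trans h)]
    have h1 : (0 : ℝ) < n₀ := by exact_mod_cast h0
    have h2 : (n₀ : ℝ) ≤ n := by exact_mod_cast h
    have h3 : 1 / (n : ℝ) ≤ 1 / (n₀ : ℝ) := one_div_le_one_div_of_le h1 h2
    have := wt_nonneg n₀ m
    have h4 : (0 : ℝ) ≤ 1 / ((m : ℝ) + 1) + 1 / (n : ℝ) := by positivity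
    gcongr

lemma norm_Dl_le {n : ℕ} (hn : 1 ≤ n) (m : ℕ) :
    ‖(1 / (2 * (n : ℂ))) ^ m * (Dl n m : ℂ)‖ ≤ wt n m := by
  have hn' : (0 : ℝ) < n := by exact_mod_cast hn
  rw [norm_mul, norm_pow, norm_div, norm_mul, Complex.norm_natCast, Complex.norm_natCast]
  simp only [norm_one, Complex.norm_ofNat]
  have h := Dl_le m n
  have h' : (Dl n m : ℝ) ≤ 2 ^ m * ((n + m).choose m : ℝ) := by exact_mod_cast h
  calc (1 / (2 * (n : ℝ))) ^ m * (Dl n m : ℝ)
      ≤ (1 / (2 * (n : ℝ))) ^ m * (2 ^ m * ((n + m).choose m : ℝ)) := by gcongr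
    _ = wt n m := by
      unfold wt
      rw [div_pow, one_pow, mul_pow]
      field_simp

lemma tendsto_wt (m : ℕ) : Tendsto (fun n : ℕ => wt n m) atTop (𝓝 (1 / (m.factorial : ℝ))) := by
  induction m with
  | zero =>
    have : (fun n : ℕ => wt n 0) = fun _ => 1 := by funext n; simp [wt]
    rw [this]
    simp
  | succ m ih =>
    have h1 : Tendsto (fun n : ℕ => (1 / ((m : ℝ) + 1) + 1 / (n : ℝ))) atTop
        (𝓝 (1 / ((m : ℝ) + 1) + 0)) :=
      tendsto_const_nhds.add (tendsto_const_div_atTop_nhds_zero_nat 1)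
    have h2 := ih.mul h1
    have h3 : (1 / (m.factorial : ℝ)) * (1 / ((m : ℝ) + 1) + 0) = 1 / ((m + 1).factorial : ℝ) := by
      rw [Nat.factorial_succ]
      push_cast
      field_simp
      ring
    rw [h3] at h2
    refine h2.congr' ?_
    filter_upwards [eventually_ge_atTop 1] with n hn
    rw [wt_succ hn]

lemma tendsto_choose_div (m : ℕ) :
    Tendsto (fun n : ℕ => ((n.choose m : ℝ) / (n : ℝ) ^ m)) atTop (𝓝 (1 / (m.factorial : ℝ))) := by
  induction m with
  | zero => simp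
  | succ m ih =>
    have h1 : Tendsto (fun n : ℕ => (1 / ((m : ℝ) + 1) * (1 - (m : ℝ) / (n : ℝ)))) atTop
        (𝓝 (1 / ((m : ℝ) + 1) * (1 - 0))) :=
      (tendsto_const_nhds.sub (tendsto_const_div_atTop_nhds_zero_nat (m : ℝ))).const_mul _
    have h2 := ih.mul h1
    have h3 : (1 / (m.factorial : ℝ)) * (1 / ((m : ℝ) + 1) * (1 - 0)) =
        1 / ((m + 1).factorial : ℝ) := by
      rw [Nat.factorial_succ]
      push_cast
      field_simp
      ring
    rw [h3] at h2
    refine h2.congr' ?_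
    filter_upwards [eventually_ge_atTop (m + 1)] with n hn
    have hn' : (0 : ℝ) < n := by
      have : 0 < n := by lia
      exact_mod_cast this
    have h4 : (n.choose (m + 1) : ℝ) * ((m : ℝ) + 1) = (n.choose m : ℝ) * ((n : ℝ) - m) := by
      have := Nat.choose_succ_right_eq n m
      have h5 : ((n.choose (m + 1) : ℕ) : ℝ) * ((m + 1 : ℕ) : ℝ) =
          ((n.choose m : ℕ) : ℝ) * ((n - m : ℕ) : ℝ) := by exact_mod_cast this
      rw [Nat.cast_sub (by lia)] at h5
      push_cast at h5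
      exact h5
    have hm : (0 : ℝ) < (m : ℝ) + 1 := by positivity
    have h6 : (n.choose (m + 1) : ℝ) = (n.choose m : ℝ) * ((n : ℝ) - m) / ((m : ℝ) + 1) := by
      rw [eq_div_iff hm.ne']; exact h4
    rw [h6, pow_succ]
    field_simp

/-- The normalized monomial coefficients converge to `1 / m!`. -/
lemma tendsto_mono (m : ℕ) :
    Tendsto (fun n : ℕ => coef n (fun z => xn n z ^ m / (1 - z))) atTop
      (𝓝 ((1 / (m.factorial : ℝ) : ℝ) : ℂ)) := by
  have h : Tendsto (fun n : ℕ => (1 / (2 * (n : ℝ))) ^ m * (Dl n m : ℝ)) atTop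
      (𝓝 (1 / (m.factorial : ℝ))) := by
    refine tendsto_of_tendsto_of_tendsto_of_le_of_le' (tendsto_choose_div m) (tendsto_wt m) ?_ ?_
    · filter_upwards [eventually_ge_atTop 1] with n hn
      have hn' : (0 : ℝ) < n := by exact_mod_cast hn
      have h := le_Dl m n
      have h' : 2 ^ m * (n.choose m : ℝ) ≤ (Dl n m : ℝ) := by exact_mod_cast h
      calc ((n.choose m : ℝ) / (n : ℝ) ^ m) = (1 / (2 * (n : ℝ))) ^ m * (2 ^ m * (n.choose m : ℝ)) := by
            rw [div_pow, one_pow, mul_pow]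
            field_simp
        _ ≤ _ := by gcongr
    · filter_upwards [eventually_ge_atTop 1] with n hn
      have hn' : (0 : ℝ) < n := by exact_mod_cast hn
      have h := Dl_le m n
      have h' : (Dl n m : ℝ) ≤ 2 ^ m * ((n + m).choose m : ℝ) := by exact_mod_cast h
      calc (1 / (2 * (n : ℝ))) ^ m * (Dl n m : ℝ)
          ≤ (1 / (2 * (n : ℝ))) ^ m * (2 ^ m * ((n + m).choose m : ℝ)) := by gcongr
        _ = wt n m := by
          unfold wt
          rw [div_pow, one_pow, mul_pow]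
          field_simp
  have h2 : (fun n : ℕ => coef n (fun z => xn n z ^ m / (1 - z))) =
      fun n : ℕ => (((1 / (2 * (n : ℝ))) ^ m * (Dl n m : ℝ) : ℝ) : ℂ) := by
    funext n
    rw [coef_monomial]
    push_cast
    ring
  rw [h2]
  exact (Complex.continuous_ofReal.tendsto _).comp h

/-! ### The substitution formula and the uniform bound -/

lemma hasSum_Dl_real (m : ℕ) {r : ℝ} (h0 : 0 ≤ r) (h1 : r < 1) :
    HasSum (fun n : ℕ => (Dl n m : ℝ) * r ^ n) (((1 + r) / (1 - r)) ^ m / (1 - r)) := by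
  have h := hasSum_Dl m (z := (r : ℂ)) (by
    rw [Complex.norm_real, Real.norm_eq_abs, abs_of_nonneg h0]; exact h1)
  have h2 : (fun n : ℕ => (Dl n m : ℂ) * (r : ℂ) ^ n) =
      fun n : ℕ => (((Dl n m : ℝ) * r ^ n : ℝ) : ℂ) := by
    funext n; push_cast; ring
  have h3 : ((1 + (r : ℂ)) / (1 - (r : ℂ))) ^ m / (1 - (r : ℂ)) =
      ((((1 + r) / (1 - r)) ^ m / (1 - r) : ℝ) : ℂ) := by push_cast; ring
  rw [h2, h3] at h
  exact Complex.hasSum_ofReal.1 h

/-- a bound for `x_n z` -/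
noncomputable def Xb (n : ℕ) (r : ℝ) : ℝ := (1 / (2 * (n : ℝ))) * ((1 + r) / (1 - r))

lemma norm_xn_le (n : ℕ) {z : ℂ} (hz : ‖z‖ < 1) : ‖xn n z‖ ≤ Xb n ‖z‖ := by
  unfold xn Xb
  rw [norm_mul, norm_div, norm_div, norm_mul, Complex.norm_natCast]
  simp only [norm_one, Complex.norm_ofNat]
  have h1 : ‖(1 : ℂ) + z‖ ≤ 1 + ‖z‖ := by
    calc ‖(1 : ℂ) + z‖ ≤ ‖(1 : ℂ)‖ + ‖z‖ := norm_add_le _ _
      _ = 1 + ‖z‖ := by rw [norm_one]
  have h2 : 1 - ‖z‖ ≤ ‖(1 : ℂ) - z‖ := by
    calc 1 - ‖z‖ = ‖(1 : ℂ)‖ - ‖z‖ := by rw [norm_one]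
      _ ≤ ‖(1 : ℂ) - z‖ := norm_sub_norm_le _ _
  have h3 : 0 < 1 - ‖z‖ := by linarith
  gcongr

lemma continuousAt_Xb (n : ℕ) : ContinuousAt (Xb n) 0 := by
  unfold Xb
  have : (1 : ℝ) - 0 ≠ 0 := by norm_num
  fun_prop (disch := assumption)

lemma coef_subst {R : ℂ → ℂ} {δ K : ℝ} (hδ : 0 < δ)
    (hR : DifferentiableOn ℂ R (Metric.ball 0 δ)) (hK : ∀ z ∈ Metric.ball (0 : ℂ) δ, ‖R z‖ ≤ K)
    {n : ℕ} (hn : 1 / (2 * (n : ℝ)) < δ) (k : ℕ) :
    coef k (fun z => R (xn n z) / (1 - z)) =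
      ∑' m, coef m R * ((1 / (2 * (n : ℂ))) ^ m * (Dl k m : ℂ)) := by
  refine coef_eq_of_hasSum
    (c := fun k => ∑' m, coef m R * ((1 / (2 * (n : ℂ))) ^ m * (Dl k m : ℂ))) ?_ k
  have hX0 : Xb n 0 < δ := by unfold Xb; simpa using hn
  have hev : ∀ᶠ z in 𝓝 (0 : ℂ), Xb n ‖z‖ < δ := by
    have hc : ContinuousAt (fun z : ℂ => Xb n ‖z‖) 0 := by
      have h1 : ContinuousAt (Xb n) ‖(0 : ℂ)‖ := by rw [norm_zero]; exact continuousAt_Xb n
      exact h1.comp continuous_norm.continuousAt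
    have : Xb n ‖(0 : ℂ)‖ < δ := by rw [norm_zero]; exact hX0
    exact hc.eventually_lt_const this
  filter_upwards [Metric.ball_mem_nhds (0 : ℂ) one_pos, hev] with z hz hzX
  have hz' : ‖z‖ < 1 := by simpa using hz
  set r := ‖z‖ with hr
  have hr0 : 0 ≤ r := norm_nonneg z
  set X := Xb n r with hX
  have hXnn : 0 ≤ X := by
    rw [hX]; unfold Xb
    have : 0 < 1 - r := by linarith
    positivity
  have hxn : ‖xn n z‖ < δ := (norm_xn_le n hz').trans_lt hzX
  set F : ℕ × ℕ → ℂ := fun p => coef p.1 R * ((1 / (2 * (n : ℂ))) ^ p.1 * (Dl p.2 p.1 : ℂ)) *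
    z ^ p.2 with hF
  have hFn : ∀ m k, ‖F (m, k)‖ = ‖coef m R‖ * (1 / (2 * (n : ℝ))) ^ m * ((Dl k m : ℝ) * r ^ k) := by
    intro m k
    simp only [hF]
    rw [norm_mul, norm_mul, norm_mul, norm_pow, norm_pow, norm_div, norm_mul,
      Complex.norm_natCast, Complex.norm_natCast]
    simp only [norm_one, Complex.norm_ofNat]
    rw [← hr]
    ring
  have hFk : ∀ m, HasSum (fun k => ‖F (m, k)‖) (‖coef m R‖ * X ^ m / (1 - r)) := by
    intro m
    have h1 := (hasSum_Dl_real m hr0 hz').mul_left (‖coef m R‖ * (1 / (2 * (n : ℝ))) ^ m)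
    have h2 : ‖coef m R‖ * (1 / (2 * (n : ℝ))) ^ m * (((1 + r) / (1 - r)) ^ m / (1 - r)) =
        ‖coef m R‖ * X ^ m / (1 - r) := by
      rw [hX]; unfold Xb; rw [mul_pow]; ring
    rw [h2] at h1
    convert! h1 using 2 with k
    exact hFn m k
  have hsumF : Summable fun p => ‖F p‖ := by
    rw [summable_prod_of_nonneg (fun p => norm_nonneg _)]
    refine ⟨fun m => (hFk m).summable, ?_⟩
    have h1 : (fun m => ∑' k, ‖F (m, k)‖) = fun m => ‖coef m R‖ * X ^ m / (1 - r) := by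
      funext m; exact (hFk m).tsum_eq
    rw [h1]
    have hq : X / δ < 1 := by rw [div_lt_one hδ]; exact hzX
    have h1r : 0 < 1 - r := by linarith
    refine Summable.of_nonneg_of_le (fun m => by positivity) (fun m => ?_)
      ((summable_geometric_of_lt_one (by positivity) hq).mul_left (K / (1 - r)))
    have h2 := norm_coef_le hδ hR hK m
    calc ‖coef m R‖ * X ^ m / (1 - r) = (‖coef m R‖ * δ ^ m) * (X / δ) ^ m / (1 - r) := by
          rw [div_pow]; field_simp
      _ ≤ K * (X / δ) ^ m / (1 - r) := by gcongr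
      _ = K / (1 - r) * (X / δ) ^ m := by ring
  have hsum : Summable F := hsumF.of_norm
  have hinner : ∀ m, HasSum (fun k => F (m, k)) (coef m R * xn n z ^ m / (1 - z)) := by
    intro m
    have h1 := (hasSum_Dl m (z := z) hz').mul_left (coef m R * (1 / (2 * (n : ℂ))) ^ m)
    have h2 : coef m R * (1 / (2 * (n : ℂ))) ^ m * (((1 + z) / (1 - z)) ^ m / (1 - z)) =
        coef m R * xn n z ^ m / (1 - z) := by
      unfold xn; rw [mul_pow]; ring
    rw [h2] at h1
    convert! h1 using 2 with k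
    simp only [hF]
    ring
  have htot : HasSum F (R (xn n z) / (1 - z)) := by
    have h1 := (hasSum_coef hR hxn).mul_right (1 / (1 - z))
    have h2 : HasSum (fun m => coef m R * xn n z ^ m / (1 - z)) (R (xn n z) / (1 - z)) := by
      simpa only [mul_one_div] using h1
    have h3 := hsum.hasSum.prod_fiberwise hinner
    rw [← h3.unique h2]
    exact hsum.hasSum
  have hswap : HasSum (fun p : ℕ × ℕ => F (p.2, p.1)) (R (xn n z) / (1 - z)) :=
    (Equiv.prodComm ℕ ℕ).hasSum_iff.2 htot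
  refine hswap.prod_fiberwise (fun k => ?_)
  have hk : Summable fun m => F (m, k) := by
    have := hswap.summable.prod_factor k
    exact this
  have h4 : (∑' m, coef m R * ((1 / (2 * (n : ℂ))) ^ m * (Dl k m : ℂ))) * z ^ k =
      ∑' m, F (m, k) := by
    rw [← tsum_mul_right]
  rw [h4]
  exact hk.hasSum

/-- The constant of the uniform bound. -/
noncomputable def Gam (δ : ℝ) (n₀ : ℕ) : ℝ := ∑' m, wt n₀ m / δ ^ m

lemma hasSum_Gam {δ : ℝ} (hδ : 0 < δ) {n₀ : ℕ} (h0 : 1 < n₀ * δ) :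
    HasSum (fun m => wt n₀ m / δ ^ m) (1 / (1 - 1 / (n₀ * δ)) ^ (n₀ + 1)) := by
  have hq : ‖1 / ((n₀ : ℝ) * δ)‖ < 1 := by
    rw [Real.norm_eq_abs, abs_of_pos (by positivity), div_lt_one (by linarith)]
    exact h0
  have := hasSum_choose_mul_geometric_of_norm_lt_one n₀ hq
  convert! this using 2 with m
  unfold wt
  have hc : (n₀ + m).choose m = (m + n₀).choose n₀ := by
    rw [add_comm n₀ m]; exact Nat.choose_symm_add
  rw [hc, div_pow, one_pow, mul_pow]
  field_simp

lemma norm_coef_subst_le {R : ℂ → ℂ} {δ K : ℝ} (hδ : 0 < δ)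
    (hR : DifferentiableOn ℂ R (Metric.ball 0 δ)) (hK : ∀ z ∈ Metric.ball (0 : ℂ) δ, ‖R z‖ ≤ K)
    {n₀ n : ℕ} (h0 : 1 < n₀ * δ) (hn : n₀ ≤ n) :
    ‖coef n (fun z => R (xn n z) / (1 - z))‖ ≤ K * (1 / (1 - 1 / (n₀ * δ)) ^ (n₀ + 1)) := by
  have hn₀ : 1 ≤ n₀ := by
    rcases Nat.eq_zero_or_pos n₀ with h | h
    · rw [h] at h0; norm_num at h0
    · exact h
  have hn₀' : (0 : ℝ) < n₀ := by exact_mod_cast hn₀
  have hnn : (n₀ : ℝ) ≤ n := by exact_mod_cast hn
  have hnpos : (0 : ℝ) < n := by linarith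
  have hn' : 1 / (2 * (n : ℝ)) < δ := by
    rw [div_lt_iff₀ (by positivity)]
    nlinarith
  rw [coef_subst hδ hR hK hn' n]
  have hs := (hasSum_Gam hδ h0).mul_left K
  refine tsum_of_norm_bounded hs (fun m => ?_)
  rw [norm_mul]
  have h1 := norm_coef_le hδ hR hK m
  have h2 := (norm_Dl_le (hn₀.trans hn) m).trans (wt_anti hn₀ hn m)
  have hK0 : 0 ≤ K := (norm_nonneg _).trans (hK 0 (Metric.mem_ball_self hδ))
  have h3 : ‖coef m R‖ ≤ K / δ ^ m := by
    rw [le_div_iff₀ (by positivity)]; exact h1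
  calc ‖coef m R‖ * ‖(1 / (2 * (n : ℂ))) ^ m * (Dl n m : ℂ)‖ ≤ K / δ ^ m * wt n₀ m := by
        gcongr
    _ = K * (wt n₀ m / δ ^ m) := by ring

end Pool.Agent.Lib.H38.Kp
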