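import Mathlib
import Pool.Agent.Lib.H38.KpCoef

set_option autoImplicit false

/-!
# Square roots, logarithms and the competitor criterion
-/

namespace Pool.Agent.Lib.H38.Kp

open Filter Topology Finset

lemma sqrt_sq' (z : ℂ) : (Complex.sqrt z) ^ 2 = z := by
  unfold Complex.sqrt
  have := Complex.cpow_nat_inv_pow z (n := 2) (by norm_num)
  simpa using this

lemma re_sqrt_nonneg (z : ℂ) : 0 ≤ (Complex.sqrt z).re := by
  unfold Complex.sqrt
  rw [Complex.cpow_inv_two_re]
  positivity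

lemma re_sqrt_pos {z : ℂ} (hz : z ∈ Complex.slitPlane) : 0 < (Complex.sqrt z).re := by
  refine lt_of_le_of_ne (re_sqrt_nonneg z) (fun h => ?_)
  have h2 := sqrt_sq' z
  have hre : z.re = -((Complex.sqrt z).im) ^ 2 := by
    have := congrArg Complex.re h2
    simp only [sq, Complex.mul_re, ← h] at this
    rw [← this]
    ring
  have him : z.im = 0 := by
    have := congrArg Complex.im h2
    simp only [sq, Complex.mul_im, ← h] at this
    rw [← this]
    ring
  rw [Complex.mem_slitPlane_iff] at hz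
  rcases hz with hz | hz
  · rw [hre] at hz
    nlinarith [sq_nonneg (Complex.sqrt z).im]
  · exact hz him

lemma differentiableAt_sqrt' {z : ℂ} (hz : z ∈ Complex.slitPlane) :
    DifferentiableAt ℂ Complex.sqrt z := by
  unfold Complex.sqrt
  exact (differentiableAt_id).cpow_const hz

lemma eq_of_sq_of_re_pos {x y : ℂ} (h : x ^ 2 = y ^ 2) (hx : 0 < x.re) (hy : 0 < y.re) :
    x = y := by
  rcases sq_eq_sq_iff_eq_or_eq_neg.1 h with h | h
  · exact h
  · exfalso
    rw [h, Complex.neg_re] at hx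
    linarith

lemma norm_sub_mul_le {x y : ℂ} {m : ℝ} (hm : 0 < m) (h : m ≤ ‖x + y‖) :
    ‖x - y‖ ≤ ‖x ^ 2 - y ^ 2‖ / m := by
  rw [le_div_iff₀ hm]
  have : x ^ 2 - y ^ 2 = (x - y) * (x + y) := by ring
  rw [this, norm_mul]
  gcongr

lemma norm_sqrt_sub_one_le (u : ℂ) : ‖Complex.sqrt (1 + u) - 1‖ ≤ ‖u‖ := by
  have h1 : (1 : ℝ) ≤ ‖Complex.sqrt (1 + u) + 1‖ := by
    have h2 := Complex.re_le_norm (Complex.sqrt (1 + u) + 1)
    have h3 := re_sqrt_nonneg (1 + u)
    simp only [Complex.add_re, Complex.one_re] at h2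
    linarith
  have := norm_sub_mul_le one_pos h1
  rw [sqrt_sq'] at this
  simpa using this

lemma slit_of_norm_lt {u : ℂ} (h : ‖u‖ < 1) : 1 + u ∈ Complex.slitPlane := by
  rw [Complex.mem_slitPlane_iff]
  left
  have := Complex.abs_re_le_norm u
  have h2 := neg_le_of_abs_le this
  simp only [Complex.add_re, Complex.one_re]
  linarith

/-- The set of the problem, for `p = 1/2`. -/
def CS (n : ℕ) : Set ℝ := {c : ℝ | ∃ f : ℂ → ℂ, ∃ h : ℂ → ℂ,
            DifferentiableOn ℂ f (Metric.ball (0:ℂ) 1) ∧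
            Set.InjOn f (Metric.ball (0:ℂ) 1) ∧
            f 0 = 0 ∧ deriv f 0 = 1 ∧
            DifferentiableOn ℂ h (Metric.ball (0:ℂ) 1) ∧ h 0 = 0 ∧
            (∀ z ∈ Metric.ball (0:ℂ) 1, z ≠ 0 → z * Complex.exp (h z) = f z) ∧
            c = ‖iteratedDeriv n (fun z => Complex.exp ((((1 / 2 : ℝ)) : ℂ) * h z)) 0‖ /
              (n.factorial : ℝ)}

/-- a nonvanishing holomorphic function on the unit ball, equal to `1` at `0`, has a logarithm -/
lemma exists_log {φ : ℂ → ℂ} (hφ : DifferentiableOn ℂ φ (Metric.ball 0 1))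
    (h0 : ∀ z ∈ Metric.ball (0 : ℂ) 1, φ z ≠ 0) (h1 : φ 0 = 1) :
    ∃ h : ℂ → ℂ, DifferentiableOn ℂ h (Metric.ball (0 : ℂ) 1) ∧ h 0 = 0 ∧
      ∀ z ∈ Metric.ball (0 : ℂ) 1, Complex.exp (h z) = φ z := by
  have hd : DifferentiableOn ℂ (fun z => deriv φ z / φ z) (Metric.ball 0 1) :=
    (hφ.deriv Metric.isOpen_ball).div hφ h0
  obtain ⟨h, hh0, hh⟩ := hd.isExactOn_ball.with_val_at 0 0
  refine ⟨h, fun z hz => (hh z hz).differentiableAt.differentiableWithinAt, hh0, ?_⟩
  have hmem : (0 : ℂ) ∈ Metric.ball (0 : ℂ) 1 := Metric.mem_ball_self one_pos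
  have hder : ∀ z ∈ Metric.ball (0 : ℂ) 1,
      HasDerivAt (fun z => φ z * Complex.exp (-h z)) 0 z := by
    intro z hz
    have e1 : HasDerivAt φ (deriv φ z) z :=
      ((hφ z hz).differentiableAt (Metric.isOpen_ball.mem_nhds hz)).hasDerivAt
    have e2 := (hh z hz).neg.cexp
    have e3 := e1.mul e2
    convert! e3 using 1
    simp only [Pi.neg_apply]
    have := h0 z hz
    field_simp
    ring
  have hconst : ∀ z ∈ Metric.ball (0 : ℂ) 1, φ z * Complex.exp (-h z) = 1 := by
    intro z hz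
    have := Metric.isOpen_ball.is_const_of_deriv_eq_zero (𝕜 := ℂ)
      (convex_ball (0 : ℂ) 1).isPreconnected
      (f := fun z => φ z * Complex.exp (-h z))
      (fun z hz => (hder z hz).differentiableAt.differentiableWithinAt)
      (fun z hz => (hder z hz).deriv) hz hmem
    rw [this, hh0, h1]
    simp
  intro z hz
  have h2 := hconst z hz
  rw [Complex.exp_neg] at h2
  have h3 := Complex.exp_ne_zero (h z)
  field_simp at h2
  exact h2.symm

/-- Competitor criterion: a univalent `F` and a local holomorphic square root of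
`(F z - F 0) / z`. -/
lemma mem_CS {F N : ℂ → ℂ} {r : ℝ} (hr : 0 < r) (hr1 : r ≤ 1)
    (hF : DifferentiableOn ℂ F (Metric.ball 0 1)) (hinj : Set.InjOn F (Metric.ball 0 1))
    (hN : DifferentiableOn ℂ N (Metric.ball 0 r)) (hN0 : N 0 ≠ 0)
    (hNF : ∀ z ∈ Metric.ball (0 : ℂ) r, z * N z ^ 2 = F z - F 0) (n : ℕ) :
    ‖coef n N‖ / ‖N 0‖ ∈ CS n := by
  have hmem : (0 : ℂ) ∈ Metric.ball (0 : ℂ) 1 := Metric.mem_ball_self one_pos
  have hmemr : (0 : ℂ) ∈ Metric.ball (0 : ℂ) r := Metric.mem_ball_self hr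
  have hsub : Metric.ball (0 : ℂ) r ⊆ Metric.ball (0 : ℂ) 1 := Metric.ball_subset_ball hr1
  have hder : HasDerivAt F (N 0 ^ 2) 0 := by
    have h1 : HasDerivAt N (deriv N 0) 0 :=
      ((hN 0 hmemr).differentiableAt (Metric.isOpen_ball.mem_nhds hmemr)).hasDerivAt
    have h2 : HasDerivAt (fun z => F 0 + z * N z ^ 2) (N 0 ^ 2) 0 := by
      have := ((hasDerivAt_id (0 : ℂ)).mul (h1.pow 2)).const_add (F 0)
      convert! this using 1
      simp
    refine h2.congr_of_eventuallyEq ?_
    filter_upwards [Metric.isOpen_ball.mem_nhds hmemr] with z hz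
    rw [hNF z hz]; ring
  have hκ : N 0 ^ 2 ≠ 0 := pow_ne_zero 2 hN0
  set f : ℂ → ℂ := fun z => (F z - F 0) / N 0 ^ 2 with hf
  have hfd : DifferentiableOn ℂ f (Metric.ball 0 1) := (hF.sub_const _).div_const _
  have hfder : HasDerivAt f 1 0 := by
    have := (hder.sub_const (F 0)).div_const (N 0 ^ 2)
    convert! this using 1
    field_simp
  have hf0 : f 0 = 0 := by simp [hf]
  have hfinj : Set.InjOn f (Metric.ball 0 1) := by
    intro x hx y hy hxy
    apply hinj hx hy
    simp only [hf] at hxy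
    have := (div_left_inj' hκ).1 hxy
    linear_combination this
  set φ : ℂ → ℂ := dslope f 0 with hφ
  have hφd : DifferentiableOn ℂ φ (Metric.ball 0 1) :=
    (Complex.differentiableOn_dslope (Metric.isOpen_ball.mem_nhds hmem)).2 hfd
  have hφ0 : φ 0 = 1 := by rw [hφ, dslope_same, hfder.deriv]
  have hφz : ∀ z, z ≠ 0 → φ z = f z / z := by
    intro z hz
    rw [hφ, dslope_of_ne _ hz, slope_def_field, hf0]
    simp
  have hφne : ∀ z ∈ Metric.ball (0 : ℂ) 1, φ z ≠ 0 := by
    intro z hz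
    by_cases h : z = 0
    · rw [h, hφ0]; exact one_ne_zero
    · rw [hφz z h]
      refine div_ne_zero (fun h2 => h ?_) h
      exact hfinj hz hmem (by rw [h2, hf0])
  obtain ⟨h, hh, hh0, hhe⟩ := exists_log hφd hφne hφ0
  refine ⟨f, h, hfd, hfinj, hf0, hfder.deriv, hh, hh0, ?_, ?_⟩
  · intro z hz hz0
    rw [hhe z hz, hφz z hz0]
    field_simp
  · have hEq : Set.EqOn (fun z => N z / N 0)
        (fun z => Complex.exp ((((1 / 2 : ℝ)) : ℂ) * h z)) (Metric.ball 0 r) := by
      refine (convex_ball (0 : ℂ) r).isPreconnected.eq_of_sq_eq (hN.continuousOn.div_const _)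
        ?_ ?_ (fun {x} _ => Complex.exp_ne_zero _) hmemr ?_
      · exact (((hh.mono hsub).continuousOn).const_smul ((((1 / 2 : ℝ)) : ℂ))).cexp
      · intro z hz
        have e : Complex.exp ((((1 / 2 : ℝ)) : ℂ) * h z) ^ 2 = Complex.exp (h z) := by
          rw [← Complex.exp_nat_mul]
          congr 1
          push_cast
          ring
        simp only [Pi.pow_apply]
        rw [e, hhe z (hsub hz)]
        by_cases hz0 : z = 0
        · rw [hz0, hφ0, div_self hN0, one_pow]
        · rw [hφz z hz0, hf]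
          simp only
          rw [← hNF z hz]
          field_simp
      · simp only [hh0, mul_zero, Complex.exp_zero]
        exact div_self hN0
    have hc : coef n (fun z => Complex.exp ((((1 / 2 : ℝ)) : ℂ) * h z)) = coef n N / N 0 := by
      have e1 : coef n (fun z => Complex.exp ((((1 / 2 : ℝ)) : ℂ) * h z)) =
          coef n (fun z => (N 0)⁻¹ * N z) := by
        refine coef_congr ?_ n
        filter_upwards [Metric.isOpen_ball.mem_nhds hmemr] with z hz
        have e0 := hEq hz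
        simp only at e0
        rw [← e0]
        ring
      rw [e1, coef_const_mul hr hN]
      ring
    have e2 : ‖coef n (fun z => Complex.exp ((((1 / 2 : ℝ)) : ℂ) * h z))‖ =
        ‖iteratedDeriv n (fun z => Complex.exp ((((1 / 2 : ℝ)) : ℂ) * h z)) 0‖ /
          (n.factorial : ℝ) := by
      unfold coef
      rw [norm_div, Complex.norm_natCast]
    rw [← e2, hc, norm_div]

end Pool.Agent.Lib.H38.Kp
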