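import Mathlib
import Pool.Agent.Lib.H38.KpSqrt

set_option autoImplicit false

/-!
# The explicit slit family near the origin and its expansion in the parameter
-/

namespace Pool.Agent.Lib.H38.Kp

open Filter Topology Finset Complex

noncomputable def fA (x : ℂ) : ℂ := Complex.sqrt (1 + (23 / 4) ^ 2 * x ^ 2)
noncomputable def fB (x : ℂ) : ℂ := Complex.sqrt (1 + (13 / 2) ^ 2 * x ^ 2)
noncomputable def sw (w : ℝ) : ℂ := Complex.sqrt (((23 / 4 : ℂ) + I * w) ^ 2 + 147 / 16)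
noncomputable def fS (w : ℝ) (x : ℂ) : ℂ :=
  Complex.sqrt (1 + ((13 / 2) ^ 2 * x ^ 2 + 2 * I * w * x * fA x - w ^ 2 * x ^ 2))
noncomputable def fE (w : ℝ) (x : ℂ) : ℂ :=
  1 - 2 * I * w * (x * (fS w x - fA x) - x ^ 2 * (sw w - 23 / 4))
noncomputable def fU (x : ℂ) : ℂ := x * (fB x - fA x) - x ^ 2 * (3 / 4)
noncomputable def fW (x : ℂ) : ℂ := x ^ 2 * (fA x / fB x - 23 / 26)
noncomputable def fZ (x : ℂ) : ℂ :=
  x ^ 2 * (fA x / fB x - 23 / 26) + (3 / 2) * (x * (fB x - fA x) - x ^ 2 * (3 / 4)) ^ 2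
noncomputable def fPhi (w : ℝ) (x : ℂ) : ℂ := 1 / Complex.sqrt (fE w x)

section bounds

variable {x : ℂ}

lemma norm_sq_lt (hx : ‖x‖ < 1 / 16) : ‖x ^ 2‖ ≤ 1 / 256 := by
  rw [norm_pow]
  have := norm_nonneg x
  nlinarith

lemma normA1 (hx : ‖x‖ < 1 / 16) : ‖((23 / 4 : ℂ)) ^ 2 * x ^ 2‖ ≤ 13 / 100 := by
  rw [norm_mul]
  have h := norm_sq_lt hx
  have h2 : ‖((23 / 4 : ℂ)) ^ 2‖ = (23 / 4) ^ 2 := by
    rw [norm_pow, norm_div]; norm_num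
  rw [h2]
  nlinarith

lemma normB1 (hx : ‖x‖ < 1 / 16) : ‖((13 / 2 : ℂ)) ^ 2 * x ^ 2‖ ≤ 17 / 100 := by
  rw [norm_mul]
  have h := norm_sq_lt hx
  have h2 : ‖((13 / 2 : ℂ)) ^ 2‖ = (13 / 2) ^ 2 := by
    rw [norm_pow, norm_div]; norm_num
  rw [h2]
  nlinarith

lemma fA_sub (hx : ‖x‖ < 1 / 16) : ‖fA x - 1‖ ≤ 13 / 100 :=
  (norm_sqrt_sub_one_le _).trans (normA1 hx)

lemma fB_sub (hx : ‖x‖ < 1 / 16) : ‖fB x - 1‖ ≤ 17 / 100 :=
  (norm_sqrt_sub_one_le _).trans (normB1 hx)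

lemma fA_norm (hx : ‖x‖ < 1 / 16) : ‖fA x‖ ≤ 113 / 100 := by
  have h := fA_sub hx
  have := norm_add_le (fA x - 1) 1
  rw [sub_add_cancel, norm_one] at this
  linarith

lemma fB_norm (hx : ‖x‖ < 1 / 16) : ‖fB x‖ ≤ 117 / 100 := by
  have h := fB_sub hx
  have := norm_add_le (fB x - 1) 1
  rw [sub_add_cancel, norm_one] at this
  linarith

lemma fB_re (hx : ‖x‖ < 1 / 16) : 83 / 100 ≤ (fB x).re := by
  have h := fB_sub hx
  have h2 := Complex.abs_re_le_norm (fB x - 1)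
  have h3 := neg_le_of_abs_le h2
  simp only [Complex.sub_re, Complex.one_re] at h3
  linarith

lemma fB_norm_ge (hx : ‖x‖ < 1 / 16) : 83 / 100 ≤ ‖fB x‖ :=
  (fB_re hx).trans (Complex.re_le_norm _)

lemma fB_ne (hx : ‖x‖ < 1 / 16) : fB x ≠ 0 := by
  intro h
  have := fB_norm_ge hx
  rw [h, norm_zero] at this
  norm_num at this

lemma fAB_norm (hx : ‖x‖ < 1 / 16) : ‖fA x / fB x‖ ≤ 14 / 10 := by
  rw [norm_div]
  have h1 := fA_norm hx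
  have h2 := fB_norm_ge hx
  rw [div_le_iff₀ (by linarith)]
  nlinarith

lemma fU_norm (hx : ‖x‖ < 1 / 16) : ‖fU x‖ ≤ 1 / 2 := by
  unfold fU
  have h1 : ‖x * (fB x - fA x)‖ ≤ 1 / 16 * (230 / 100) := by
    rw [norm_mul]
    have := norm_sub_le (fB x) (fA x)
    have h1 := fA_norm hx
    have h2 := fB_norm hx
    gcongr
    linarith
  have h2 : ‖x ^ 2 * (3 / 4)‖ ≤ 1 / 256 := by
    rw [norm_mul]
    have h := norm_sq_lt hx
    have h3 : ‖(3 / 4 : ℂ)‖ = 3 / 4 := by rw [norm_div]; norm_num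
    rw [h3]
    nlinarith [norm_nonneg (x ^ 2)]
  have := norm_sub_le (x * (fB x - fA x)) (x ^ 2 * (3 / 4))
  linarith

lemma fW_norm (hx : ‖x‖ < 1 / 16) : ‖fW x‖ ≤ 1 / 100 := by
  unfold fW
  rw [norm_mul]
  have h := norm_sq_lt hx
  have h1 := fAB_norm hx
  have h3 : ‖(23 / 26 : ℂ)‖ = 23 / 26 := by rw [norm_div]; norm_num
  have h4 := norm_sub_le (fA x / fB x) (23 / 26)
  rw [h3] at h4
  have h5 : ‖fA x / fB x - 23 / 26‖ ≤ 24 / 10 := by linarith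
  nlinarith [norm_nonneg (x ^ 2), norm_nonneg (fA x / fB x - 23 / 26)]

lemma fZ_eq (x : ℂ) : fZ x = fW x + (3 / 2) * fU x ^ 2 := rfl

lemma fZ_norm (hx : ‖x‖ < 1 / 16) : ‖fZ x‖ ≤ 1 := by
  rw [fZ_eq]
  have h1 := fW_norm hx
  have h2 := fU_norm hx
  have h3 : ‖(3 / 2 : ℂ) * fU x ^ 2‖ ≤ 3 / 2 * (1 / 2) ^ 2 := by
    rw [norm_mul, norm_pow]
    have h3 : ‖(3 / 2 : ℂ)‖ = 3 / 2 := by rw [norm_div]; norm_num
    rw [h3]
    gcongr
  have := norm_add_le (fW x) ((3 / 2 : ℂ) * fU x ^ 2)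
  linarith

lemma fA_slit (hx : ‖x‖ < 1 / 16) : (1 + (23 / 4) ^ 2 * x ^ 2 : ℂ) ∈ slitPlane :=
  slit_of_norm_lt ((normA1 hx).trans_lt (by norm_num))

lemma fB_slit (hx : ‖x‖ < 1 / 16) : (1 + (13 / 2) ^ 2 * x ^ 2 : ℂ) ∈ slitPlane :=
  slit_of_norm_lt ((normB1 hx).trans_lt (by norm_num))

lemma fS_arg (hx : ‖x‖ < 1 / 16) {w : ℝ} (hw : |w| ≤ 1) :
    ‖((13 / 2 : ℂ) ^ 2 * x ^ 2 + 2 * I * w * x * fA x - w ^ 2 * x ^ 2)‖ < 1 := by
  have h1 := normB1 hx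
  have h2 : ‖2 * I * w * x * fA x‖ ≤ 2 * (1 / 16) * (113 / 100) := by
    rw [norm_mul, norm_mul, norm_mul, norm_mul, Complex.norm_I, Complex.norm_real,
      Real.norm_eq_abs]
    have := fA_norm hx
    have h0 := norm_nonneg x
    have h3 : ‖(2 : ℂ)‖ = 2 := by norm_num
    rw [h3]
    calc 2 * 1 * |w| * ‖x‖ * ‖fA x‖ ≤ 2 * 1 * 1 * (1 / 16) * (113 / 100) := by gcongr
      _ = _ := by ring
  have h3 : ‖(w : ℂ) ^ 2 * x ^ 2‖ ≤ 1 / 256 := by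
    rw [norm_mul, norm_pow, Complex.norm_real, Real.norm_eq_abs]
    have := norm_sq_lt hx
    have h4 : |w| ^ 2 ≤ 1 := pow_le_one₀ (abs_nonneg w) hw
    nlinarith [norm_nonneg (x ^ 2), abs_nonneg w]
  have e1 := norm_sub_le ((13 / 2 : ℂ) ^ 2 * x ^ 2 + 2 * I * w * x * fA x) ((w : ℂ) ^ 2 * x ^ 2)
  have e2 := norm_add_le ((13 / 2 : ℂ) ^ 2 * x ^ 2) (2 * I * w * x * fA x)
  linarith

lemma fS_slit (hx : ‖x‖ < 1 / 16) {w : ℝ} (hw : |w| ≤ 1) :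
    (1 + ((13 / 2) ^ 2 * x ^ 2 + 2 * I * w * x * fA x - w ^ 2 * x ^ 2) : ℂ) ∈ slitPlane :=
  slit_of_norm_lt (fS_arg hx hw)

lemma fA_diff : DifferentiableOn ℂ fA (Metric.ball 0 (1 / 16)) := by
  intro x hx
  have hx' : ‖x‖ < 1 / 16 := by simpa using hx
  refine DifferentiableAt.differentiableWithinAt ?_
  unfold fA
  have h1 : DifferentiableAt ℂ (fun x : ℂ => 1 + (23 / 4) ^ 2 * x ^ 2) x := by fun_prop
  exact (differentiableAt_sqrt' (fA_slit hx')).comp x h1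

lemma fB_diff : DifferentiableOn ℂ fB (Metric.ball 0 (1 / 16)) := by
  intro x hx
  have hx' : ‖x‖ < 1 / 16 := by simpa using hx
  refine DifferentiableAt.differentiableWithinAt ?_
  unfold fB
  have h1 : DifferentiableAt ℂ (fun x : ℂ => 1 + (13 / 2) ^ 2 * x ^ 2) x := by fun_prop
  exact (differentiableAt_sqrt' (fB_slit hx')).comp x h1

lemma fS_diff {w : ℝ} (hw : |w| ≤ 1) : DifferentiableOn ℂ (fS w) (Metric.ball 0 (1 / 16)) := by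
  intro x hx
  have hx' : ‖x‖ < 1 / 16 := by simpa using hx
  refine DifferentiableAt.differentiableWithinAt ?_
  unfold fS
  have h0 : DifferentiableAt ℂ fA x :=
    (fA_diff x hx).differentiableAt (Metric.isOpen_ball.mem_nhds hx)
  have h1 : DifferentiableAt ℂ (fun x : ℂ =>
      1 + ((13 / 2) ^ 2 * x ^ 2 + 2 * I * w * x * fA x - w ^ 2 * x ^ 2)) x := by fun_prop
  exact (differentiableAt_sqrt' (fS_slit hx' hw)).comp x h1

lemma fE_diff {w : ℝ} (hw : |w| ≤ 1) : DifferentiableOn ℂ (fE w) (Metric.ball 0 (1 / 16)) := by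
  have h0 := fA_diff
  have h1 := fS_diff hw
  unfold fE
  fun_prop

lemma fU_diff : DifferentiableOn ℂ fU (Metric.ball 0 (1 / 16)) := by
  have h0 := fA_diff
  have h1 := fB_diff
  unfold fU
  fun_prop

lemma fZ_diff : DifferentiableOn ℂ fZ (Metric.ball 0 (1 / 16)) := by
  have h0 := fA_diff
  have h1 := fB_diff
  have h2 : DifferentiableOn ℂ (fun x => fA x / fB x) (Metric.ball 0 (1 / 16)) :=
    h0.div h1 (fun x hx => fB_ne (by simpa using hx))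
  unfold fZ
  fun_prop

/-- linearization of `fS` -/
lemma fS_lin (hx : ‖x‖ < 1 / 16) {w : ℝ} (hw : |w| ≤ 1) :
    ‖fS w x - (fB x + I * w * (x * (fA x / fB x)))‖ ≤ |w| ^ 2 := by
  have hB := fB_ne hx
  have hAB := fAB_norm hx
  have h0 := norm_nonneg x
  have e1 : ‖I * w * (x * (fA x / fB x))‖ ≤ 1 / 10 := by
    rw [norm_mul, norm_mul, norm_mul, Complex.norm_I, Complex.norm_real, Real.norm_eq_abs]
    calc 1 * |w| * (‖x‖ * ‖fA x / fB x‖) ≤ 1 * 1 * (1 / 16 * (14 / 10)) := by gcongr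
      _ ≤ 1 / 10 := by norm_num
  have e2 : (7 / 10 : ℝ) ≤ ‖fS w x + (fB x + I * w * (x * (fA x / fB x)))‖ := by
    have h1 := Complex.re_le_norm (fS w x + (fB x + I * w * (x * (fA x / fB x))))
    rw [Complex.add_re, Complex.add_re] at h1
    have h2 : 0 ≤ (fS w x).re := re_sqrt_nonneg _
    have h3 := fB_re hx
    have h4 := neg_le_of_abs_le (Complex.abs_re_le_norm (I * w * (x * (fA x / fB x))))
    linarith
  have e3 := norm_sub_mul_le (by norm_num) e2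
  refine e3.trans ?_
  have hS : fS w x ^ 2 = 1 + ((13 / 2) ^ 2 * x ^ 2 + 2 * I * w * x * fA x - w ^ 2 * x ^ 2) :=
    sqrt_sq' _
  have hB2 : fB x ^ 2 = 1 + (13 / 2) ^ 2 * x ^ 2 := sqrt_sq' _
  have hI : I ^ 2 = -1 := Complex.I_sq
  have e4 : fS w x ^ 2 - (fB x + I * w * (x * (fA x / fB x))) ^ 2 =
      -(w ^ 2 * x ^ 2 * (1 - (fA x / fB x) ^ 2)) := by
    have : (fB x + I * w * (x * (fA x / fB x))) ^ 2 = fB x ^ 2 + 2 * I * w * x * fA x +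
        I ^ 2 * (w ^ 2 * x ^ 2 * (fA x / fB x) ^ 2) := by
      field_simp
      ring
    rw [this, hI, hS, hB2]
    ring
  rw [e4, norm_neg, norm_mul, norm_mul, norm_pow (w : ℂ), Complex.norm_real, Real.norm_eq_abs,
    div_le_iff₀ (by norm_num)]
  have h5 : ‖1 - (fA x / fB x) ^ 2‖ ≤ 3 := by
    have := norm_sub_le 1 ((fA x / fB x) ^ 2)
    rw [norm_one, norm_pow] at this
    have h6 : ‖fA x / fB x‖ ^ 2 ≤ (14 / 10) ^ 2 := by gcongr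
    linarith
  have h6 := norm_sq_lt hx
  calc |w| ^ 2 * ‖x ^ 2‖ * ‖1 - (fA x / fB x) ^ 2‖ ≤ |w| ^ 2 * (1 / 256) * 3 := by gcongr
    _ ≤ |w| ^ 2 * (7 / 10) := by nlinarith [sq_nonneg |w|]

lemma sw_lin (w : ℝ) : ‖sw w - (13 / 2 + I * w * (23 / 26))‖ ≤ |w| ^ 2 := by
  have e2 : (1 : ℝ) ≤ ‖sw w + (13 / 2 + I * w * (23 / 26))‖ := by
    have h1 := Complex.re_le_norm (sw w + (13 / 2 + I * w * (23 / 26)))
    have h2 : 0 ≤ (sw w).re := re_sqrt_nonneg _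
    have h3 : (sw w + (13 / 2 + I * w * (23 / 26))).re = (sw w).re + 13 / 2 := by
      have : (I * w * (23 / 26) : ℂ) = (((w * (23 / 26) : ℝ)) : ℂ) * I := by push_cast; ring
      rw [this]
      simp
    linarith
  have e3 := norm_sub_mul_le one_pos e2
  refine e3.trans ?_
  have hS : sw w ^ 2 = ((23 / 4 : ℂ) + I * w) ^ 2 + 147 / 16 := sqrt_sq' _
  have e4 : sw w ^ 2 - (13 / 2 + I * w * (23 / 26)) ^ 2 = -(w ^ 2 * (147 / 676) : ℂ) := by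
    rw [hS]
    have hI : I ^ 2 = -1 := Complex.I_sq
    linear_combination (w ^ 2 * (147 / 676) : ℂ) * hI
  rw [e4, norm_neg, norm_mul, norm_pow (w : ℂ), Complex.norm_real, Real.norm_eq_abs, div_one]
  have : ‖(147 / 676 : ℂ)‖ = 147 / 676 := by rw [norm_div]; norm_num
  rw [this]
  nlinarith [sq_nonneg |w|]

/-- the first two terms of the expansion of `Φ_w` -/
noncomputable def pw (w : ℝ) (x : ℂ) : ℂ := 1 + I * w * fU x - w ^ 2 * fZ x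

lemma fE_exp (hx : ‖x‖ < 1 / 16) {w : ℝ} (hw : |w| ≤ 1) :
    ‖fE w x - (1 - 2 * I * w * fU x + 2 * w ^ 2 * fW x)‖ ≤ |w| ^ 3 := by
  have h1 := fS_lin hx hw
  have h2 := sw_lin w
  set σ := fS w x - (fB x + I * w * (x * (fA x / fB x))) with hσ
  set τ := sw w - (13 / 2 + I * w * (23 / 26)) with hτ
  have e : fE w x - (1 - 2 * I * w * fU x + 2 * w ^ 2 * fW x) = -(2 * I * w) * (x * σ - x ^ 2 * τ) := by
    rw [hσ, hτ]
    unfold fE fU fW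
    linear_combination (-(2 * w ^ 2 * x ^ 2 * (fA x / fB x - 23 / 26)) : ℂ) * Complex.I_sq
  rw [e, norm_mul, norm_neg, norm_mul, norm_mul, Complex.norm_I, Complex.norm_real,
    Real.norm_eq_abs]
  have h3 : ‖x * σ - x ^ 2 * τ‖ ≤ |w| ^ 2 * (1 / 4) := by
    have := norm_sub_le (x * σ) (x ^ 2 * τ)
    rw [norm_mul, norm_mul] at this
    have h4 := norm_sq_lt hx
    have h5 : ‖x‖ * ‖σ‖ ≤ 1 / 16 * |w| ^ 2 := by gcongr
    have h6 : ‖x ^ 2‖ * ‖τ‖ ≤ 1 / 256 * |w| ^ 2 := by gcongr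
    nlinarith [sq_nonneg |w|]
  have h3' : ‖(2 : ℂ)‖ = 2 := by norm_num
  rw [h3']
  calc 2 * 1 * |w| * ‖x * σ - x ^ 2 * τ‖ ≤ 2 * 1 * |w| * (|w| ^ 2 * (1 / 4)) := by gcongr
    _ ≤ |w| ^ 3 := by nlinarith [pow_nonneg (abs_nonneg w) 3]

lemma fE_sub_one (hx : ‖x‖ < 1 / 16) {w : ℝ} (hw : |w| ≤ 1 / 12) : ‖fE w x - 1‖ ≤ 1 / 2 := by
  have h0 := abs_nonneg w
  have h1 := fE_exp hx (w := w) (by linarith)
  have h2 := fU_norm hx
  have h3 := fW_norm hx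
  have e1 : ‖2 * I * w * fU x‖ ≤ 1 / 12 := by
    rw [norm_mul, norm_mul, norm_mul, Complex.norm_I, Complex.norm_real, Real.norm_eq_abs]
    have h3' : ‖(2 : ℂ)‖ = 2 := by norm_num
    rw [h3']
    calc 2 * 1 * |w| * ‖fU x‖ ≤ 2 * 1 * (1 / 12) * (1 / 2) := by gcongr
      _ = _ := by norm_num
  have e2 : ‖2 * (w : ℂ) ^ 2 * fW x‖ ≤ 1 / 12 := by
    rw [norm_mul, norm_mul, norm_pow, Complex.norm_real, Real.norm_eq_abs]
    have h3' : ‖(2 : ℂ)‖ = 2 := by norm_num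
    rw [h3']
    calc 2 * |w| ^ 2 * ‖fW x‖ ≤ 2 * (1 / 12) ^ 2 * (1 / 100) := by gcongr
      _ ≤ _ := by norm_num
  have e3 : |w| ^ 3 ≤ 1 / 12 := by
    calc |w| ^ 3 ≤ (1 / 12) ^ 3 := by gcongr
      _ ≤ _ := by norm_num
  have e4 : fE w x - 1 = (fE w x - (1 - 2 * I * w * fU x + 2 * w ^ 2 * fW x)) +
      (-(2 * I * w * fU x) + 2 * w ^ 2 * fW x) := by ring
  have e5 := norm_add_le (fE w x - (1 - 2 * I * w * fU x + 2 * w ^ 2 * fW x))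
      (-(2 * I * w * fU x) + 2 * w ^ 2 * fW x)
  have e6 := norm_add_le (-(2 * I * w * fU x)) (2 * (w : ℂ) ^ 2 * fW x)
  rw [norm_neg] at e6
  rw [e4]
  linarith

lemma fE_ne (hx : ‖x‖ < 1 / 16) {w : ℝ} (hw : |w| ≤ 1 / 12) : fE w x ≠ 0 := by
  intro h
  have := fE_sub_one hx hw
  rw [h, zero_sub, norm_neg, norm_one] at this
  norm_num at this

lemma fE_norm_ge (hx : ‖x‖ < 1 / 16) {w : ℝ} (hw : |w| ≤ 1 / 12) : 1 / 2 ≤ ‖fE w x‖ := by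
  have h1 := fE_sub_one hx hw
  have h2 := norm_sub_norm_le 1 (1 - fE w x)
  rw [norm_one, sub_sub_cancel, norm_sub_rev] at h2
  linarith

lemma fE_slit (hx : ‖x‖ < 1 / 16) {w : ℝ} (hw : |w| ≤ 1 / 12) : fE w x ∈ slitPlane := by
  have : fE w x = 1 + (fE w x - 1) := by ring
  rw [this]
  exact slit_of_norm_lt ((fE_sub_one hx hw).trans_lt (by norm_num))

lemma fPhi_sq (w : ℝ) (x : ℂ) : fPhi w x ^ 2 = 1 / fE w x := by
  unfold fPhi
  rw [div_pow, one_pow, sqrt_sq']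

lemma fPhi_re (w : ℝ) (x : ℂ) : 0 ≤ (fPhi w x).re := by
  unfold fPhi
  rw [one_div, Complex.inv_re]
  exact div_nonneg (re_sqrt_nonneg _) (Complex.normSq_nonneg _)

lemma fPhi_diff {w : ℝ} (hw : |w| ≤ 1 / 12) :
    DifferentiableOn ℂ (fPhi w) (Metric.ball 0 (1 / 16)) := by
  intro x hx
  have hx' : ‖x‖ < 1 / 16 := by simpa using hx
  refine DifferentiableAt.differentiableWithinAt ?_
  unfold fPhi
  have h0 : DifferentiableAt ℂ (fE w) x :=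
    (fE_diff (by linarith [abs_nonneg w]) x hx).differentiableAt (Metric.isOpen_ball.mem_nhds hx)
  have h1 : DifferentiableAt ℂ (fun x => Complex.sqrt (fE w x)) x :=
    (differentiableAt_sqrt' (fE_slit hx' hw)).comp x h0
  refine DifferentiableAt.div (differentiableAt_const _) h1 ?_
  intro h
  have := sqrt_sq' (fE w x)
  rw [h] at this
  exact fE_ne hx' hw (by rw [← this]; ring)

lemma fPhi_norm (hx : ‖x‖ < 1 / 16) {w : ℝ} (hw : |w| ≤ 1 / 12) : ‖fPhi w x‖ ≤ 2 := by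
  have h1 := fE_norm_ge hx hw
  have h2 : ‖fPhi w x‖ ^ 2 ≤ 2 := by
    rw [← norm_pow, fPhi_sq, norm_div, norm_one, div_le_iff₀ (by linarith)]
    linarith
  nlinarith [norm_nonneg (fPhi w x)]

/-- The key algebraic identity. -/
lemma pw_sq_mul (U W Z w : ℂ) (hZ : Z = W + (3 / 2) * U ^ 2) :
    (1 + I * w * U - w ^ 2 * Z) ^ 2 * (1 - 2 * I * w * U + 2 * w ^ 2 * W) - 1 =
      w ^ 3 * ((2 * I * U * Z + 2 * I * U ^ 3 + 4 * I * U * W) +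
        w * (Z ^ 2 - 4 * U ^ 2 * Z - 2 * U ^ 2 * W - 4 * Z * W) +
        w ^ 2 * (-(2 * I * U * Z ^ 2) - 4 * I * U * Z * W) + w ^ 3 * (2 * W * Z ^ 2)) := by
  have h2 : I ^ 2 = -1 := Complex.I_sq
  have h3 : I ^ 3 = -I := by rw [pow_succ, h2]; ring
  subst hZ
  ring_nf
  simp only [h2, h3]
  ring

lemma bracket_le {U W Z w : ℂ} (hU : ‖U‖ ≤ 1 / 2) (hW : ‖W‖ ≤ 1 / 100) (hZ : ‖Z‖ ≤ 1)
    (hw : ‖w‖ ≤ 1 / 12) :
    ‖(2 * I * U * Z + 2 * I * U ^ 3 + 4 * I * U * W) +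
        w * (Z ^ 2 - 4 * U ^ 2 * Z - 2 * U ^ 2 * W - 4 * Z * W) +
        w ^ 2 * (-(2 * I * U * Z ^ 2) - 4 * I * U * Z * W) + w ^ 3 * (2 * W * Z ^ 2)‖ ≤ 10 := by
  have n2 : ‖(2 : ℂ)‖ = 2 := by norm_num
  have n4 : ‖(4 : ℂ)‖ = 4 := by norm_num
  have hu := norm_nonneg U
  have hv := norm_nonneg W
  have hz := norm_nonneg Z
  have hw0 := norm_nonneg w
  have a1 : ‖2 * I * U * Z‖ ≤ 2 * (1 / 2) * 1 := by
    rw [norm_mul, norm_mul, norm_mul, n2, Complex.norm_I, mul_one]; gcongr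
  have a2 : ‖2 * I * U ^ 3‖ ≤ 2 * (1 / 2) ^ 3 := by
    rw [norm_mul, norm_mul, n2, Complex.norm_I, mul_one, norm_pow]; gcongr
  have a3 : ‖4 * I * U * W‖ ≤ 4 * (1 / 2) * (1 / 100) := by
    rw [norm_mul, norm_mul, norm_mul, n4, Complex.norm_I, mul_one]; gcongr
  have b1 : ‖Z ^ 2‖ ≤ 1 := by rw [norm_pow]; exact pow_le_one₀ hz hZ
  have b2 : ‖4 * U ^ 2 * Z‖ ≤ 4 * (1 / 2) ^ 2 * 1 := by
    rw [norm_mul, norm_mul, n4, norm_pow]; gcongr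
  have b3 : ‖2 * U ^ 2 * W‖ ≤ 2 * (1 / 2) ^ 2 * (1 / 100) := by
    rw [norm_mul, norm_mul, n2, norm_pow]; gcongr
  have b4 : ‖4 * Z * W‖ ≤ 4 * 1 * (1 / 100) := by
    rw [norm_mul, norm_mul, n4]; gcongr
  have c1 : ‖2 * I * U * Z ^ 2‖ ≤ 2 * (1 / 2) * 1 ^ 2 := by
    rw [norm_mul, norm_mul, norm_mul, n2, Complex.norm_I, mul_one, norm_pow]; gcongr
  have c2 : ‖4 * I * U * Z * W‖ ≤ 4 * (1 / 2) * 1 * (1 / 100) := by
    rw [norm_mul, norm_mul, norm_mul, norm_mul, n4, Complex.norm_I, mul_one]; gcongr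
  have d1 : ‖2 * W * Z ^ 2‖ ≤ 2 * (1 / 100) * 1 ^ 2 := by
    rw [norm_mul, norm_mul, n2, norm_pow]; gcongr
  have t1 : ‖2 * I * U * Z + 2 * I * U ^ 3 + 4 * I * U * W‖ ≤ 2 := by
    have e1 := norm_add_le (2 * I * U * Z + 2 * I * U ^ 3) (4 * I * U * W)
    have e2 := norm_add_le (2 * I * U * Z) (2 * I * U ^ 3)
    linarith
  have t2 : ‖Z ^ 2 - 4 * U ^ 2 * Z - 2 * U ^ 2 * W - 4 * Z * W‖ ≤ 3 := by
    have e1 := norm_sub_le (Z ^ 2 - 4 * U ^ 2 * Z - 2 * U ^ 2 * W) (4 * Z * W)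
    have e2 := norm_sub_le (Z ^ 2 - 4 * U ^ 2 * Z) (2 * U ^ 2 * W)
    have e3 := norm_sub_le (Z ^ 2) (4 * U ^ 2 * Z)
    linarith
  have t3 : ‖-(2 * I * U * Z ^ 2) - 4 * I * U * Z * W‖ ≤ 3 := by
    have e1 := norm_sub_le (-(2 * I * U * Z ^ 2)) (4 * I * U * Z * W)
    rw [norm_neg] at e1
    linarith
  have s2 : ‖w * (Z ^ 2 - 4 * U ^ 2 * Z - 2 * U ^ 2 * W - 4 * Z * W)‖ ≤ 1 / 12 * 3 := by
    rw [norm_mul]; gcongr
  have s3 : ‖w ^ 2 * (-(2 * I * U * Z ^ 2) - 4 * I * U * Z * W)‖ ≤ (1 / 12) ^ 2 * 3 := by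
    rw [norm_mul, norm_pow]; gcongr
  have s4 : ‖w ^ 3 * (2 * W * Z ^ 2)‖ ≤ (1 / 12) ^ 3 * (2 * (1 / 100) * 1 ^ 2) := by
    rw [norm_mul, norm_pow]; gcongr
  have e1 := norm_add₄_le (a := 2 * I * U * Z + 2 * I * U ^ 3 + 4 * I * U * W)
    (b := w * (Z ^ 2 - 4 * U ^ 2 * Z - 2 * U ^ 2 * W - 4 * Z * W))
    (c := w ^ 2 * (-(2 * I * U * Z ^ 2) - 4 * I * U * Z * W)) (d := w ^ 3 * (2 * W * Z ^ 2))
  linarith

lemma norm_ofReal_abs (w : ℝ) : ‖(w : ℂ)‖ = |w| := by rw [Complex.norm_real, Real.norm_eq_abs]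

lemma pw_norm (hx : ‖x‖ < 1 / 16) {w : ℝ} (hw : |w| ≤ 1 / 12) : ‖pw w x - 1‖ ≤ 1 / 2 := by
  have h1 := fU_norm hx
  have h2 := fZ_norm hx
  have a1 : ‖I * w * fU x‖ ≤ 1 / 12 * (1 / 2) := by
    rw [norm_mul, norm_mul, Complex.norm_I, one_mul, norm_ofReal_abs]; gcongr
  have a2 : ‖(w : ℂ) ^ 2 * fZ x‖ ≤ (1 / 12) ^ 2 * 1 := by
    rw [norm_mul, norm_pow, norm_ofReal_abs]; gcongr
  have e : pw w x - 1 = I * w * fU x - w ^ 2 * fZ x := by unfold pw; ring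
  rw [e]
  have := norm_sub_le (I * w * fU x) ((w : ℂ) ^ 2 * fZ x)
  linarith

/-- Uniform expansion of `Φ_w` to second order in `w`. -/
lemma fPhi_exp (hx : ‖x‖ < 1 / 16) {w : ℝ} (hw : |w| ≤ 1 / 12) :
    ‖pw w x - fPhi w x‖ ≤ 60 * |w| ^ 3 := by
  have h0 := abs_nonneg w
  have hw1 : |w| ≤ 1 := by linarith
  have hE := fE_exp hx hw1
  have hpn := pw_norm hx hw
  have hp2 : ‖pw w x‖ ≤ 3 / 2 := by
    have := norm_add_le (pw w x - 1) 1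
    rw [sub_add_cancel, norm_one] at this
    linarith
  have hpre : 1 / 2 ≤ (pw w x).re := by
    have h3 := neg_le_of_abs_le (Complex.abs_re_le_norm (pw w x - 1))
    simp only [Complex.sub_re, Complex.one_re] at h3
    linarith
  have h1 : ‖pw w x ^ 2 * (1 - 2 * I * w * fU x + 2 * w ^ 2 * fW x) - 1‖ ≤ 10 * |w| ^ 3 := by
    have e := pw_sq_mul (fU x) (fW x) (fZ x) (w : ℂ) (fZ_eq x)
    have e2 : pw w x = 1 + I * w * fU x - w ^ 2 * fZ x := rfl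
    rw [e2, e, norm_mul, norm_pow, norm_ofReal_abs, mul_comm]
    have := bracket_le (fU_norm hx) (fW_norm hx) (fZ_norm hx) (w := (w : ℂ))
      (by rw [norm_ofReal_abs]; exact hw)
    gcongr
  have h2 : ‖pw w x ^ 2 * fE w x - 1‖ ≤ 15 * |w| ^ 3 := by
    have e : pw w x ^ 2 * fE w x - 1 =
        (pw w x ^ 2 * (1 - 2 * I * w * fU x + 2 * w ^ 2 * fW x) - 1) +
        pw w x ^ 2 * (fE w x - (1 - 2 * I * w * fU x + 2 * w ^ 2 * fW x)) := by ring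
    rw [e]
    have e1 := norm_add_le (pw w x ^ 2 * (1 - 2 * I * w * fU x + 2 * w ^ 2 * fW x) - 1)
        (pw w x ^ 2 * (fE w x - (1 - 2 * I * w * fU x + 2 * w ^ 2 * fW x)))
    have e2 : ‖pw w x ^ 2 * (fE w x - (1 - 2 * I * w * fU x + 2 * w ^ 2 * fW x))‖ ≤
        (3 / 2) ^ 2 * |w| ^ 3 := by
      rw [norm_mul, norm_pow]; gcongr
    nlinarith [pow_nonneg h0 3]
  have h3 : ‖pw w x ^ 2 - fPhi w x ^ 2‖ ≤ 30 * |w| ^ 3 := by
    have hne := fE_ne hx hw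
    have e : pw w x ^ 2 - fPhi w x ^ 2 = (pw w x ^ 2 * fE w x - 1) / fE w x := by
      rw [fPhi_sq]; field_simp
    have hge := fE_norm_ge hx hw
    rw [e, norm_div, div_le_iff₀ (by linarith)]
    nlinarith [pow_nonneg h0 3]
  have h4 : (1 / 2 : ℝ) ≤ ‖pw w x + fPhi w x‖ := by
    have e1 := Complex.re_le_norm (pw w x + fPhi w x)
    rw [Complex.add_re] at e1
    have e2 := fPhi_re w x
    linarith
  have h5 := norm_sub_mul_le (by norm_num) h4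
  refine h5.trans ?_
  rw [div_le_iff₀ (by norm_num)]
  linarith

end bounds

end Pool.Agent.Lib.H38.Kp
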