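import Mathlib
import Pool.Agent.Lib.H38.KpSqrt

set_option autoImplicit false

/-!
# From a univalent function of the half plane to members of the class
-/

namespace Pool.Agent.Lib.H38.Kp

open Filter Topology Finset Complex

/-! ### Facts on `x_n` -/

lemma one_sub_ne {z : ℂ} (hz : ‖z‖ < 1) : (1 : ℂ) - z ≠ 0 := by
  intro h
  have : z = 1 := (sub_eq_zero.1 h).symm
  rw [this] at hz
  simp at hz

lemma xn_zero (n : ℕ) : xn n 0 = 1 / (2 * (n : ℂ)) := by unfold xn; simp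

lemma xn_re {n : ℕ} (hn : 1 ≤ n) {z : ℂ} (hz : ‖z‖ < 1) : 0 < (xn n z).re := by
  have hn' : (0 : ℝ) < n := by exact_mod_cast hn
  have h1 : xn n z = ((1 / (2 * (n : ℝ)) : ℝ) : ℂ) * ((1 + z) / (1 - z)) := by
    unfold xn; push_cast; ring
  rw [h1, Complex.re_ofReal_mul]
  have h2 : 0 < ((1 + z) / (1 - z)).re := by
    rw [Complex.div_re, ← add_div]
    have h3 : 0 < Complex.normSq (1 - z) := Complex.normSq_pos.2 (one_sub_ne hz)
    apply div_pos _ h3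
    simp only [Complex.add_re, Complex.one_re, Complex.sub_re, Complex.add_im, Complex.one_im,
      Complex.sub_im, zero_add, zero_sub]
    have h4 : z.re ^ 2 + z.im ^ 2 < 1 := by
      have e1 : ‖z‖ ^ 2 = z.re ^ 2 + z.im ^ 2 := by
        rw [← Complex.normSq_eq_norm_sq, Complex.normSq_apply]; ring
      rw [← e1]
      have := norm_nonneg z
      nlinarith
    nlinarith
  positivity

lemma xn_sub (n : ℕ) {z : ℂ} (hz : ‖z‖ < 1) :
    xn n z - xn n 0 = z / (n * (1 - z)) := by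
  have h1 := one_sub_ne hz
  unfold xn
  rcases Nat.eq_zero_or_pos n with h | h
  · rw [h]; simp
  · have hn' : (n : ℂ) ≠ 0 := by exact_mod_cast h.ne'
    field_simp
    ring

lemma xn_sq_sub (n : ℕ) {z : ℂ} (hz : ‖z‖ < 1) :
    xn n z ^ 2 - xn n 0 ^ 2 = z / (n ^ 2 * (1 - z) ^ 2) := by
  have h1 := one_sub_ne hz
  unfold xn
  rcases Nat.eq_zero_or_pos n with h | h
  · rw [h]; simp
  · have hn' : (n : ℂ) ≠ 0 := by exact_mod_cast h.ne'
    field_simp
    ring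

lemma xn_diffAt (n : ℕ) {z : ℂ} (hz : ‖z‖ < 1) : DifferentiableAt ℂ (xn n) z := by
  have h1 := one_sub_ne hz
  unfold xn
  fun_prop (disch := assumption)

lemma xn_inj {n : ℕ} (hn : 1 ≤ n) {z z' : ℂ} (hz : ‖z‖ < 1) (hz' : ‖z'‖ < 1)
    (h : xn n z = xn n z') : z = z' := by
  have h1 := one_sub_ne hz
  have h2 := one_sub_ne hz'
  have hn' : (n : ℂ) ≠ 0 := by
    have : n ≠ 0 := by lia
    exact_mod_cast this
  unfold xn at h
  field_simp at h
  linear_combination h / 2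

lemma Xb_lt {n : ℕ} (hn : 33 ≤ n) {r : ℝ} (hr : r < 1 - 32 / (n : ℝ)) :
    Xb n r < 1 / 32 := by
  have hn' : (33 : ℝ) ≤ n := by exact_mod_cast hn
  have hpos : (0 : ℝ) < n := by linarith
  have h1 : 32 / (n : ℝ) < 1 - r := by linarith
  have h2 : 32 < n * (1 - r) := by
    rw [div_lt_iff₀ hpos] at h1
    linarith
  have h3 : 0 < 1 - r := by
    have : 0 < 32 / (n : ℝ) := by positivity
    linarith
  unfold Xb
  rw [div_mul_div_comm, one_mul, div_lt_div_iff₀ (by positivity) (by norm_num)]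
  have h4 : r < 1 := by linarith
  nlinarith

lemma norm_xn_lt {n : ℕ} (hn : 33 ≤ n) {z : ℂ} (hz : ‖z‖ < 1 - 32 / (n : ℝ)) :
    ‖xn n z‖ < 1 / 32 := by
  have hn' : (33 : ℝ) ≤ n := by exact_mod_cast hn
  have h1 : (0 : ℝ) < 32 / (n : ℝ) := by positivity
  exact (norm_xn_le n (by linarith)).trans_lt (Xb_lt hn hz)

lemma norm_xn_le' {n : ℕ} (hn : 1 ≤ n) {z : ℂ} (hz : ‖z‖ < 1) :
    max ‖xn n z‖ ‖xn n 0‖ ≤ 1 / (n * ‖1 - z‖) := by
  have hn' : (0 : ℝ) < n := by exact_mod_cast hn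
  have h1 : 0 < ‖1 - z‖ := norm_pos_iff.2 (one_sub_ne hz)
  have h2 : ‖1 - z‖ ≤ 2 := by
    have := norm_sub_le 1 z
    rw [norm_one] at this
    linarith
  have h3 : ‖1 + z‖ ≤ 2 := by
    have := norm_add_le 1 z
    rw [norm_one] at this
    linarith
  refine max_le ?_ ?_
  · unfold xn
    rw [norm_mul, norm_div, norm_div, norm_mul, Complex.norm_natCast]
    simp only [norm_one, Complex.norm_ofNat]
    rw [div_mul_div_comm, one_mul, div_le_div_iff₀ (by positivity) (by positivity)]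
    nlinarith [mul_pos hn' h1]
  · rw [xn_zero, norm_div, norm_mul, Complex.norm_natCast]
    simp only [norm_one, Complex.norm_ofNat]
    rw [div_le_div_iff₀ (by positivity) (by positivity)]
    nlinarith

/-! ### A Lipschitz bound -/

lemma exists_lip {E : ℂ → ℂ} (hE : DifferentiableOn ℂ E (Metric.ball 0 (1 / 16)))
    (hE' : deriv E 0 = 0) : ∃ L : ℝ, 0 ≤ L ∧ ∀ x y : ℂ, ‖x‖ ≤ 1 / 32 → ‖y‖ ≤ 1 / 32 →
      ‖E x - E y‖ ≤ L * (‖x - y‖ * max ‖x‖ ‖y‖) := by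
  have hsub : Metric.closedBall (0 : ℂ) (1 / 32) ⊆ Metric.ball 0 (1 / 16) :=
    Metric.closedBall_subset_ball (by norm_num)
  have h1 : DifferentiableOn ℂ (deriv E) (Metric.ball 0 (1 / 16)) := hE.deriv Metric.isOpen_ball
  have h2 : DifferentiableOn ℂ (deriv (deriv E)) (Metric.ball 0 (1 / 16)) :=
    h1.deriv Metric.isOpen_ball
  obtain ⟨L, hL⟩ := (isCompact_closedBall (0 : ℂ) (1 / 32)).exists_bound_of_continuousOn
    (h2.continuousOn.mono hsub)
  have hL0 : 0 ≤ L := (norm_nonneg _).trans (hL 0 (Metric.mem_closedBall_self (by norm_num)))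
  refine ⟨L, hL0, ?_⟩
  have h3 : ∀ t ∈ Metric.closedBall (0 : ℂ) (1 / 32), ‖deriv E t‖ ≤ L * ‖t‖ := by
    intro t ht
    have := (convex_closedBall (0 : ℂ) (1 / 32)).norm_image_sub_le_of_norm_deriv_le
      (f := deriv E) (C := L) (x := 0) (y := t)
      (fun s hs => (h1 s (hsub hs)).differentiableAt (Metric.isOpen_ball.mem_nhds (hsub hs)))
      (fun s hs => hL s hs) (Metric.mem_closedBall_self (by norm_num)) ht
    rwa [hE', sub_zero, sub_zero] at this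
  intro x y hx hy
  set m := max ‖x‖ ‖y‖ with hm
  have hm1 : m ≤ 1 / 32 := max_le hx hy
  have hm0 : 0 ≤ m := (norm_nonneg x).trans (le_max_left _ _)
  have hsub2 : Metric.closedBall (0 : ℂ) m ⊆ Metric.closedBall 0 (1 / 32) :=
    Metric.closedBall_subset_closedBall hm1
  have := (convex_closedBall (0 : ℂ) m).norm_image_sub_le_of_norm_deriv_le
      (f := E) (C := L * m) (x := y) (y := x)
      (fun s hs => (hE s (hsub (hsub2 hs))).differentiableAt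
        (Metric.isOpen_ball.mem_nhds (hsub (hsub2 hs))))
      (fun s hs => (h3 s (hsub2 hs)).trans (by
        have : ‖s‖ ≤ m := by simpa using hs
        gcongr)) (by rw [mem_closedBall_zero_iff]; exact le_max_right _ _)
      (by rw [mem_closedBall_zero_iff]; exact le_max_left _ _)
  calc ‖E x - E y‖ ≤ L * m * ‖x - y‖ := this
    _ = L * (‖x - y‖ * m) := by ring

/-! ### The local square root -/

noncomputable def errf (E : ℂ → ℂ) (n : ℕ) (z : ℂ) : ℂ :=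
  (1 - z) ^ 2 * dslope (fun z => E (xn n z)) 0 z / (4 * E (xn n 0))

noncomputable def Mf (E : ℂ → ℂ) (n : ℕ) (z : ℂ) : ℂ := (1 / Complex.sqrt (E (xn n z))) / (1 - z)

noncomputable def Nf (E : ℂ → ℂ) (n : ℕ) (z : ℂ) : ℂ :=
  Mf E n z * Complex.sqrt (1 + -errf E n z)

section

variable {E : ℂ → ℂ} (hE : DifferentiableOn ℂ E (Metric.ball 0 (1 / 16)))
  (hE1 : ∀ x, ‖x‖ < 1 / 16 → ‖E x - 1‖ ≤ 1 / 2)

include hE1 in
lemma E_ne {x : ℂ} (hx : ‖x‖ < 1 / 16) : E x ≠ 0 := by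
  intro h
  have := hE1 x hx
  rw [h, zero_sub, norm_neg, norm_one] at this
  norm_num at this

include hE1 in
lemma E_norm_ge {x : ℂ} (hx : ‖x‖ < 1 / 16) : 1 / 2 ≤ ‖E x‖ := by
  have h1 := hE1 x hx
  have h2 := norm_sub_norm_le 1 (1 - E x)
  rw [norm_one, sub_sub_cancel, norm_sub_rev] at h2
  linarith

include hE1 in
lemma E_slit {x : ℂ} (hx : ‖x‖ < 1 / 16) : E x ∈ slitPlane := by
  have : E x = 1 + (E x - 1) := by ring
  rw [this]
  exact slit_of_norm_lt ((hE1 x hx).trans_lt (by norm_num))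

include hE1 in
lemma sqrtE_ne {x : ℂ} (hx : ‖x‖ < 1 / 16) : Complex.sqrt (E x) ≠ 0 := by
  intro h
  have := sqrt_sq' (E x)
  rw [h] at this
  exact E_ne hE1 hx (by rw [← this]; ring)

include hE1 in
lemma sqrtE_norm {x : ℂ} (hx : ‖x‖ < 1 / 16) : ‖1 / Complex.sqrt (E x)‖ ≤ 2 := by
  have h1 := E_norm_ge hE1 hx
  have h2 : ‖1 / Complex.sqrt (E x)‖ ^ 2 ≤ 2 := by
    rw [← norm_pow, div_pow, one_pow, sqrt_sq', norm_div, norm_one, div_le_iff₀ (by linarith)]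
    linarith
  nlinarith [norm_nonneg (1 / Complex.sqrt (E x))]

lemma ball_facts {n : ℕ} (hn : 33 ≤ n) {z : ℂ} (hz : z ∈ Metric.ball (0 : ℂ) (1 - 32 / (n : ℝ))) :
    ‖z‖ < 1 ∧ ‖xn n z‖ < 1 / 32 ∧ ‖xn n z‖ < 1 / 16 := by
  have hn' : (33 : ℝ) ≤ n := by exact_mod_cast hn
  have h1 : (0 : ℝ) < 32 / (n : ℝ) := by positivity
  have hz' : ‖z‖ < 1 - 32 / (n : ℝ) := by simpa using hz
  have h2 := norm_xn_lt hn hz'
  exact ⟨by linarith, h2, by linarith⟩

lemma radius_pos {n : ℕ} (hn : 33 ≤ n) : (0 : ℝ) < 1 - 32 / (n : ℝ) := by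
  have hn' : (33 : ℝ) ≤ n := by exact_mod_cast hn
  have : 32 / (n : ℝ) < 1 := by rw [div_lt_one (by linarith)]; linarith
  linarith

include hE in
lemma Ex_diff {n : ℕ} (hn : 33 ≤ n) :
    DifferentiableOn ℂ (fun z => E (xn n z)) (Metric.ball 0 (1 - 32 / (n : ℝ))) := by
  intro z hz
  obtain ⟨h1, -, h2⟩ := ball_facts hn hz
  have hmem : xn n z ∈ Metric.ball (0 : ℂ) (1 / 16) := by simpa using h2
  have h3 := (hE _ hmem).differentiableAt (Metric.isOpen_ball.mem_nhds hmem)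
  exact (h3.comp z (xn_diffAt n h1)).differentiableWithinAt

include hE in
lemma errf_diff {n : ℕ} (hn : 33 ≤ n) :
    DifferentiableOn ℂ (errf E n) (Metric.ball 0 (1 - 32 / (n : ℝ))) := by
  have h1 : DifferentiableOn ℂ (dslope (fun z => E (xn n z)) 0)
      (Metric.ball 0 (1 - 32 / (n : ℝ))) :=
    (Complex.differentiableOn_dslope
      (Metric.isOpen_ball.mem_nhds (Metric.mem_ball_self (radius_pos hn)))).2 (Ex_diff hE hn)
  unfold errf
  fun_prop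

include hE hE1 in
lemma errf_norm {L : ℝ} (hL0 : 0 ≤ L) (hL : ∀ x y : ℂ, ‖x‖ ≤ 1 / 32 → ‖y‖ ≤ 1 / 32 →
      ‖E x - E y‖ ≤ L * (‖x - y‖ * max ‖x‖ ‖y‖)) {n : ℕ} (hn : 33 ≤ n) {z : ℂ}
    (hz : z ∈ Metric.ball (0 : ℂ) (1 - 32 / (n : ℝ))) :
    ‖errf E n z‖ ≤ L / (2 * (n : ℝ) ^ 2) := by
  have hn' : (33 : ℝ) ≤ n := by exact_mod_cast hn
  have h0mem : (0 : ℂ) ∈ Metric.ball (0 : ℂ) (1 - 32 / (n : ℝ)) :=
    Metric.mem_ball_self (radius_pos hn)
  have hne : ∀ z ∈ Metric.ball (0 : ℂ) (1 - 32 / (n : ℝ)), z ≠ 0 →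
      ‖errf E n z‖ ≤ L / (2 * (n : ℝ) ^ 2) := by
    intro z hz hz0
    obtain ⟨h1, h2, h3⟩ := ball_facts hn hz
    obtain ⟨-, h2', h3'⟩ := ball_facts hn h0mem
    have hd : 0 < ‖1 - z‖ := norm_pos_iff.2 (one_sub_ne h1)
    have hE0 := E_norm_ge hE1 h3'
    have e1 := hL (xn n z) (xn n 0) h2.le h2'.le
    have e2 := norm_xn_le' (n := n) (by lia) h1
    rw [xn_sub n h1, norm_div, norm_mul, Complex.norm_natCast] at e1
    unfold errf
    rw [dslope_of_ne _ hz0, slope_def_field, sub_zero, norm_div, norm_mul, norm_mul, norm_pow,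
      norm_div]
    simp only [Complex.norm_ofNat]
    have hzpos : 0 < ‖z‖ := norm_pos_iff.2 hz0
    have e3 : ‖E (xn n z) - E (xn n 0)‖ ≤ L * (‖z‖ / (n * ‖1 - z‖) * (1 / (n * ‖1 - z‖))) := by
      refine e1.trans ?_
      gcongr
    calc ‖1 - z‖ ^ 2 * (‖E (xn n z) - E (xn n 0)‖ / ‖z‖) / (4 * ‖E (xn n 0)‖)
        ≤ ‖1 - z‖ ^ 2 * ((L * (‖z‖ / (n * ‖1 - z‖) * (1 / (n * ‖1 - z‖)))) / ‖z‖) /
          (4 * (1 / 2)) := by gcongr
      _ = L / (2 * (n : ℝ) ^ 2) := by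
          field_simp
          norm_num
  by_cases hz0 : z = 0
  · subst hz0
    have hc : ContinuousAt (fun z => ‖errf E n z‖) 0 :=
      (((errf_diff hE hn) 0 h0mem).differentiableAt
        (Metric.isOpen_ball.mem_nhds h0mem)).continuousAt.norm
    refine le_of_tendsto (hc.tendsto.mono_left (nhdsWithin_le_nhds (s := {0}ᶜ))) ?_
    have h5 : ∀ᶠ z in 𝓝[≠] (0 : ℂ), z ∈ Metric.ball (0 : ℂ) (1 - 32 / (n : ℝ)) :=
      nhdsWithin_le_nhds (Metric.isOpen_ball.mem_nhds h0mem)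
    filter_upwards [h5, self_mem_nhdsWithin] with z hz hz0
    exact hne z hz hz0
  · exact hne z hz hz0

include hE hE1 in
lemma Mf_diff {n : ℕ} (hn : 33 ≤ n) :
    DifferentiableOn ℂ (Mf E n) (Metric.ball 0 (1 - 32 / (n : ℝ))) := by
  intro z hz
  obtain ⟨h1, h2, h3⟩ := ball_facts hn hz
  have e1 : DifferentiableAt ℂ (fun z => E (xn n z)) z :=
    ((Ex_diff hE hn) z hz).differentiableAt (Metric.isOpen_ball.mem_nhds hz)
  have e2 : DifferentiableAt ℂ (fun z => Complex.sqrt (E (xn n z))) z :=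
    DifferentiableAt.comp (g := Complex.sqrt) z (differentiableAt_sqrt' (E_slit hE1 h3)) e1
  have e3 := sqrtE_ne hE1 h3
  have e4 := one_sub_ne h1
  refine DifferentiableAt.differentiableWithinAt ?_
  unfold Mf
  fun_prop (disch := assumption)

include hE1 in
lemma Mf_norm {n : ℕ} (hn : 33 ≤ n) {z : ℂ} (hz : z ∈ Metric.ball (0 : ℂ) (1 - 32 / (n : ℝ))) :
    ‖Mf E n z‖ ≤ n := by
  obtain ⟨h1, h2, h3⟩ := ball_facts hn hz
  have hn' : (33 : ℝ) ≤ n := by exact_mod_cast hn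
  have hz' : ‖z‖ < 1 - 32 / (n : ℝ) := by simpa using hz
  have e1 := sqrtE_norm hE1 h3
  have e2 : 32 / (n : ℝ) ≤ ‖1 - z‖ := by
    have := norm_sub_norm_le 1 z
    rw [norm_one] at this
    linarith
  have e3 : 0 < 32 / (n : ℝ) := by positivity
  unfold Mf
  rw [norm_div, div_le_iff₀ (by linarith)]
  calc ‖1 / Complex.sqrt (E (xn n z))‖ ≤ 2 := e1
    _ ≤ n * (32 / n) := by
        rw [mul_div_cancel₀ _ (by linarith)]; norm_num
    _ ≤ n * ‖1 - z‖ := by gcongr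

include hE in
lemma sqrt_err_diff {n : ℕ} (hn : 33 ≤ n) (he : ∀ z ∈ Metric.ball (0 : ℂ) (1 - 32 / (n : ℝ)),
    ‖errf E n z‖ < 1) :
    DifferentiableOn ℂ (fun z => Complex.sqrt (1 + -errf E n z))
      (Metric.ball 0 (1 - 32 / (n : ℝ))) := by
  intro z hz
  have e1 : DifferentiableAt ℂ (errf E n) z :=
    ((errf_diff hE hn) z hz).differentiableAt (Metric.isOpen_ball.mem_nhds hz)
  have e2 : DifferentiableAt ℂ (fun z => 1 + -errf E n z) z := by fun_prop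
  have e3 : (1 + -errf E n z) ∈ slitPlane := slit_of_norm_lt (by rw [norm_neg]; exact he z hz)
  exact ((differentiableAt_sqrt' e3).comp z e2).differentiableWithinAt

include hE hE1 in
lemma Nf_diff {n : ℕ} (hn : 33 ≤ n) (he : ∀ z ∈ Metric.ball (0 : ℂ) (1 - 32 / (n : ℝ)),
    ‖errf E n z‖ < 1) :
    DifferentiableOn ℂ (Nf E n) (Metric.ball 0 (1 - 32 / (n : ℝ))) :=
  (Mf_diff hE hE1 hn).mul (sqrt_err_diff hE hn he)

include hE1 in
lemma Nf_sq {G : ℂ → ℂ} (hGE : ∀ x : ℂ, 0 < x.re → ‖x‖ < 1 / 16 → G x = x ^ 2 / E x)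
    {n : ℕ} (hn : 33 ≤ n) {z : ℂ} (hz : z ∈ Metric.ball (0 : ℂ) (1 - 32 / (n : ℝ))) :
    z * Nf E n z ^ 2 = (n : ℂ) ^ 2 * G (xn n z) - (n : ℂ) ^ 2 * G (xn n 0) := by
  obtain ⟨h1, h2, h3⟩ := ball_facts hn hz
  have h0mem : (0 : ℂ) ∈ Metric.ball (0 : ℂ) (1 - 32 / (n : ℝ)) :=
    Metric.mem_ball_self (radius_pos hn)
  obtain ⟨h1', h2', h3'⟩ := ball_facts hn h0mem
  rw [hGE _ (xn_re (by lia) h1) h3, hGE _ (xn_re (by lia) h1') h3']
  have hs : z * dslope (fun z => E (xn n z)) 0 z = E (xn n z) - E (xn n 0) := by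
    by_cases hz0 : z = 0
    · subst hz0; simp
    · rw [dslope_of_ne _ hz0, slope_def_field, sub_zero]
      field_simp
  have hne := E_ne hE1 h3
  have hne0 := E_ne hE1 h3'
  have e4 := one_sub_ne h1
  have hn' : (n : ℂ) ≠ 0 := by
    have : n ≠ 0 := by lia
    exact_mod_cast this
  have e5 : z * Nf E n z ^ 2 = (z - (1 - z) ^ 2 * (E (xn n z) - E (xn n 0)) /
      (4 * E (xn n 0))) / (E (xn n z) * (1 - z) ^ 2) := by
    unfold Nf Mf
    rw [mul_pow, sqrt_sq', div_pow, div_pow, sqrt_sq', ← hs]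
    unfold errf
    field_simp
    ring
  have e6 := xn_sq_sub n h1
  have e7 : (n : ℂ) ^ 2 * xn n 0 ^ 2 = 1 / 4 := by
    rw [xn_zero]; field_simp; norm_num
  have e8 : (n : ℂ) ^ 2 * xn n z ^ 2 = 1 / 4 + z / (1 - z) ^ 2 := by
    rw [← e7]
    have : xn n z ^ 2 = xn n 0 ^ 2 + z / (n ^ 2 * (1 - z) ^ 2) := by rw [← e6]; ring
    rw [this]
    field_simp
  have e9 : (n : ℂ) ^ 2 * (xn n z ^ 2 / E (xn n z)) - (n : ℂ) ^ 2 * (xn n 0 ^ 2 / E (xn n 0)) =
      (1 / 4 + z / (1 - z) ^ 2) / E (xn n z) - 1 / 4 / E (xn n 0) := by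
    rw [← e8, ← e7]; ring
  rw [e9, e5]
  field_simp
  ring

end

end Pool.Agent.Lib.H38.Kp
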