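import Mathlib
import Pool.Agent.Lib.H38.KpSoft

set_option autoImplicit false

/-!
# The soft part of the asymptotics
-/

namespace Pool.Agent.Lib.H38.Kp

open Filter Topology Finset Complex

lemma tendsto_xn0 : Tendsto (fun n : ℕ => xn n 0) atTop (𝓝 0) := by
  have h1 : (fun n : ℕ => xn n 0) = fun n : ℕ => (((1 / 2 : ℝ) * (1 / (n : ℝ)) : ℝ) : ℂ) := by
    funext n
    rw [xn_zero]
    push_cast
    rw [one_div_mul_one_div]
  rw [h1]
  have h2 : Tendsto (fun n : ℕ => (1 / 2 : ℝ) * (1 / (n : ℝ))) atTop (𝓝 ((1 / 2) * 0)) :=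
    (tendsto_const_div_atTop_nhds_zero_nat 1).const_mul _
  rw [mul_zero] at h2
  exact (Complex.continuous_ofReal.tendsto' 0 0 (by simp)).comp h2

theorem soft {E G : ℂ → ℂ} (hE : DifferentiableOn ℂ E (Metric.ball 0 (1 / 16)))
    (hE1 : ∀ x, ‖x‖ < 1 / 16 → ‖E x - 1‖ ≤ 1 / 2) (hE0 : E 0 = 1) (hE' : deriv E 0 = 0)
    (hG : DifferentiableOn ℂ G {x : ℂ | 0 < x.re}) (hGinj : Set.InjOn G {x : ℂ | 0 < x.re})
    (hGE : ∀ x : ℂ, 0 < x.re → ‖x‖ < 1 / 16 → G x = x ^ 2 / E x) :
    ∃ (e : ℕ → ℂ) (ν : ℕ → ℝ), Tendsto e atTop (𝓝 0) ∧ Tendsto ν atTop (𝓝 1) ∧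
      ∀ᶠ n in atTop, ‖coef n (Mf E n) + e n‖ / ν n ∈ CS n := by
  obtain ⟨L, hL0, hL⟩ := exists_lip hE hE'
  -- eventually the error is small
  have hlim : Tendsto (fun n : ℕ => L / (2 * (n : ℝ) ^ 2)) atTop (𝓝 0) := by
    have h1 : Tendsto (fun n : ℕ => (2 * (n : ℝ) ^ 2)) atTop atTop := by
      refine Tendsto.const_mul_atTop (by norm_num) ?_
      exact (tendsto_pow_atTop (by norm_num)).comp tendsto_natCast_atTop_atTop
    exact h1.const_div_atTop L
  have hsmall : ∀ᶠ n : ℕ in atTop, L / (2 * (n : ℝ) ^ 2) < 1 := hlim.eventually_lt_const (by norm_num)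
  -- facts valid for large `n`
  have hfacts : ∀ᶠ n : ℕ in atTop, 33 ≤ n ∧
      ∀ z ∈ Metric.ball (0 : ℂ) (1 - 32 / (n : ℝ)), ‖errf E n z‖ ≤ L / (2 * (n : ℝ) ^ 2) ∧
        ‖errf E n z‖ < 1 := by
    filter_upwards [eventually_ge_atTop 33, hsmall] with n hn hs
    refine ⟨hn, fun z hz => ?_⟩
    have := errf_norm hE hE1 hL0 hL hn hz
    exact ⟨this, this.trans_lt hs⟩
  refine ⟨fun n => coef n (Nf E n) - coef n (Mf E n), fun n => ‖Nf E n 0‖, ?_, ?_, ?_⟩
  · -- the error term
    have hr : Tendsto (fun n : ℕ => (1 - 32 / (n : ℝ)) ^ n) atTop (𝓝 (Real.exp (-32))) := by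
      have := Real.tendsto_one_add_div_pow_exp (-32)
      refine this.congr (fun n => ?_)
      congr 1
      ring
    have hlow : ∀ᶠ n : ℕ in atTop, Real.exp (-32) / 2 < (1 - 32 / (n : ℝ)) ^ n :=
      hr.eventually_const_lt (by have := Real.exp_pos (-32); linarith)
    have hb : ∀ᶠ n : ℕ in atTop, ‖coef n (Nf E n) - coef n (Mf E n)‖ ≤
        (n * (L / (2 * (n : ℝ) ^ 2))) / (Real.exp (-32) / 2) := by
      filter_upwards [hfacts, hlow] with n hn hlown
      obtain ⟨hn, he⟩ := hn
      have hrp := radius_pos hn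
      have hdM := Mf_diff hE hE1 hn
      have hdN := Nf_diff hE hE1 hn (fun z hz => (he z hz).2)
      have e1 : coef n (fun z => Mf E n z + (Nf E n z + (-1) * Mf E n z)) =
          coef n (Mf E n) + coef n (fun z => Nf E n z + (-1) * Mf E n z) :=
        coef_add hrp hdM (hdN.add (hdM.const_mul (-1))) n
      have e2 : (fun z => Mf E n z + (Nf E n z + (-1) * Mf E n z)) = Nf E n := by
        funext z; ring
      rw [e2] at e1
      have e3 : coef n (Nf E n) - coef n (Mf E n) = coef n (fun z => Nf E n z + (-1) * Mf E n z) := by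
        rw [e1]; ring
      rw [e3]
      have hbd : ∀ z ∈ Metric.ball (0 : ℂ) (1 - 32 / (n : ℝ)),
          ‖Nf E n z + (-1) * Mf E n z‖ ≤ n * (L / (2 * (n : ℝ) ^ 2)) := by
        intro z hz
        have e4 : Nf E n z + (-1) * Mf E n z =
            Mf E n z * (Complex.sqrt (1 + -errf E n z) - 1) := by
          unfold Nf; ring
        rw [e4, norm_mul]
        have e5 := norm_sqrt_sub_one_le (-errf E n z)
        rw [norm_neg] at e5
        have e6 := Mf_norm hE1 hn hz
        have e7 := (he z hz).1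
        gcongr
        exact e5.trans e7
      have hdd : DifferentiableOn ℂ (fun z => Nf E n z + (-1) * Mf E n z)
          (Metric.ball 0 (1 - 32 / (n : ℝ))) := hdN.add (hdM.const_mul (-1))
      have h3 := norm_coef_le hrp hdd hbd n
      rw [le_div_iff₀ (by positivity)]
      refine le_trans ?_ h3
      gcongr
    have hz : Tendsto (fun n : ℕ => (n * (L / (2 * (n : ℝ) ^ 2))) / (Real.exp (-32) / 2)) atTop
        (𝓝 0) := by
      have h1 : Tendsto (fun n : ℕ => (L / (Real.exp (-32))) * (1 / (n : ℝ))) atTop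
          (𝓝 ((L / (Real.exp (-32))) * 0)) :=
        (tendsto_const_div_atTop_nhds_zero_nat 1).const_mul _
      rw [mul_zero] at h1
      refine h1.congr' ?_
      filter_upwards [eventually_ge_atTop 1] with n hn
      have hn' : (n : ℝ) ≠ 0 := by
        have : n ≠ 0 := by lia
        exact_mod_cast this
      have := (Real.exp_pos (-32)).ne'
      field_simp
    exact squeeze_zero_norm' hb hz
  · -- the normalization
    have hEx : Tendsto (fun n : ℕ => E (xn n 0)) atTop (𝓝 1) := by
      have hc : ContinuousAt E 0 :=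
        ((hE 0 (Metric.mem_ball_self (by norm_num))).differentiableAt
          (Metric.isOpen_ball.mem_nhds (Metric.mem_ball_self (by norm_num)))).continuousAt
      have := hc.tendsto.comp tendsto_xn0
      rwa [hE0] at this
    have hcs : ContinuousAt Complex.sqrt 1 :=
      (differentiableAt_sqrt' (by simp [Complex.mem_slitPlane_iff])).continuousAt
    have hs1 : Complex.sqrt 1 = 1 := Complex.sqrt_one
    have h1 : Tendsto (fun n : ℕ => Complex.sqrt (E (xn n 0))) atTop (𝓝 1) := by
      have := hcs.tendsto.comp hEx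
      rwa [hs1] at this
    have h2 : Tendsto (fun n : ℕ => Mf E n 0) atTop (𝓝 1) := by
      have := (tendsto_const_nhds (x := (1 : ℂ))).div h1 one_ne_zero
      simp only [div_one] at this
      refine this.congr (fun n => ?_)
      unfold Mf
      simp
    have h3 : Tendsto (fun n : ℕ => errf E n 0) atTop (𝓝 0) := by
      refine squeeze_zero_norm' ?_ hlim
      filter_upwards [hfacts] with n hn
      exact (hn.2 0 (Metric.mem_ball_self (radius_pos hn.1))).1
    have h4 : Tendsto (fun n : ℕ => Complex.sqrt (1 + -errf E n 0)) atTop (𝓝 1) := by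
      have h5 : Tendsto (fun n : ℕ => 1 + -errf E n 0) atTop (𝓝 1) := by
        have := (tendsto_const_nhds (x := (1 : ℂ))).add h3.neg
        simpa using this
      have := hcs.tendsto.comp h5
      rwa [hs1] at this
    have h5 := (h2.mul h4).norm
    simpa [Nf] using h5
  · filter_upwards [hfacts] with n hn
    obtain ⟨hn, he⟩ := hn
    have hrp := radius_pos hn
    have hn1 : 1 ≤ n := by lia
    have hne : (n : ℂ) ≠ 0 := by
      have : n ≠ 0 := by lia
      exact_mod_cast this
    have h0mem := Metric.mem_ball_self (x := (0 : ℂ)) hrp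
    obtain ⟨h1', h2', h3'⟩ := ball_facts hn h0mem
    have hN0 : Nf E n 0 ≠ 0 := by
      have e1 : Mf E n 0 ≠ 0 := by
        unfold Mf
        have := sqrtE_ne hE1 h3'
        simp [this]
      have e2 : Complex.sqrt (1 + -errf E n 0) ≠ 0 := by
        intro h
        have h1 := sqrt_sq' (1 + -errf E n 0)
        rw [h] at h1
        have h2 : errf E n 0 = 1 := by linear_combination h1
        have h3 := (he 0 h0mem).2
        rw [h2, norm_one] at h3
        exact lt_irrefl _ h3
      exact mul_ne_zero e1 e2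
    have hmem := mem_CS (F := fun z => (n : ℂ) ^ 2 * G (xn n z)) (N := Nf E n) hrp
      (by have : (0 : ℝ) ≤ 32 / (n : ℝ) := by positivity
          linarith)
      ?_ ?_ (Nf_diff hE hE1 hn (fun z hz => (he z hz).2)) hN0
      (fun z hz => Nf_sq hE1 hGE hn hz) n
    · have e : coef n (Mf E n) + (coef n (Nf E n) - coef n (Mf E n)) = coef n (Nf E n) := by ring
      simp only [e]
      exact hmem
    · intro z hz
      have hz' : ‖z‖ < 1 := by simpa using hz
      have hre := xn_re hn1 hz'
      have hopen : IsOpen {x : ℂ | 0 < x.re} := isOpen_lt continuous_const Complex.continuous_re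
      have e1 : DifferentiableAt ℂ G (xn n z) := (hG _ hre).differentiableAt (hopen.mem_nhds hre)
      have e2 : DifferentiableAt ℂ (fun z => G (xn n z)) z :=
        DifferentiableAt.comp (g := G) z e1 (xn_diffAt n hz')
      exact (e2.const_mul _).differentiableWithinAt
    · intro z hz z' hz' h
      have h1 : ‖z‖ < 1 := by simpa using hz
      have h2 : ‖z'‖ < 1 := by simpa using hz'
      simp only at h
      have h3 := mul_left_cancel₀ (pow_ne_zero 2 hne) h
      exact xn_inj hn1 h1 h2 (hGinj (xn_re hn1 h1) (xn_re hn1 h2) h3)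

end Pool.Agent.Lib.H38.Kp
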