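import Mathlib
import Pool.Agent.Lib.H38.KpExp
import Pool.Agent.Lib.H38.KpSoft2

set_option autoImplicit false

/-!
# The univalent map of the half plane
-/

namespace Pool.Agent.Lib.H38.Kp

open Filter Topology Finset Complex

noncomputable def qf (ζ : ℂ) : ℂ := Complex.sqrt (ζ ^ 2 + (23 / 4) ^ 2)
noncomputable def Sf (w : ℝ) (ζ : ℂ) : ℂ := Complex.sqrt ((qf ζ + I * w) ^ 2 + 147 / 16)
noncomputable def Hf (w : ℝ) (ζ : ℂ) : ℂ := (Sf w ζ - I * w) ^ 2 - (sw w - I * w) ^ 2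
noncomputable def Gf (w : ℝ) (x : ℂ) : ℂ := 1 / Hf w (1 / x)

lemma slit_sq_add {ζ : ℂ} (h : 0 < ζ.re) {r : ℝ} (hr : 0 ≤ r) :
    ζ ^ 2 + (r : ℂ) ∈ slitPlane := by
  rw [Complex.mem_slitPlane_iff]
  by_cases him : ζ.im = 0
  · left
    simp only [sq, Complex.add_re, Complex.mul_re, Complex.ofReal_re, him]
    nlinarith
  · right
    simp only [sq, Complex.add_im, Complex.mul_im, Complex.ofReal_im]
    intro h2
    have : ζ.re * ζ.im = 0 := by linarith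
    rcases mul_eq_zero.1 this with h3 | h3
    · exact h.ne' h3
    · exact him h3

lemma qf_slit {ζ : ℂ} (h : 0 < ζ.re) : ζ ^ 2 + (23 / 4) ^ 2 ∈ slitPlane := by
  have := slit_sq_add h (r := (23 / 4) ^ 2) (by positivity)
  push_cast at this
  exact this

lemma add_I_re (z : ℂ) (w : ℝ) : (z + I * w).re = z.re := by
  simp [Complex.add_re, Complex.mul_re]

lemma sub_I_re (z : ℂ) (w : ℝ) : (z - I * w).re = z.re := by
  simp [Complex.sub_re, Complex.mul_re]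

lemma qf_re {ζ : ℂ} (h : 0 < ζ.re) : 0 < (qf ζ).re := re_sqrt_pos (qf_slit h)

lemma Sf_slit {ζ : ℂ} (h : 0 < ζ.re) (w : ℝ) : (qf ζ + I * w) ^ 2 + 147 / 16 ∈ slitPlane := by
  have := slit_sq_add (ζ := qf ζ + I * w) (by rw [add_I_re]; exact qf_re h)
    (r := 147 / 16) (by positivity)
  push_cast at this
  exact this

lemma Sf_re {ζ : ℂ} (h : 0 < ζ.re) (w : ℝ) : 0 < (Sf w ζ).re := re_sqrt_pos (Sf_slit h w)

lemma sw_re (w : ℝ) : 0 < (sw w).re := by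
  have h := slit_sq_add (ζ := 23 / 4 + I * w) (by rw [add_I_re]; norm_num)
    (r := 147 / 16) (by positivity)
  push_cast at h
  exact re_sqrt_pos h

lemma qf_inj {ζ ζ' : ℂ} (h : 0 < ζ.re) (h' : 0 < ζ'.re) (e : qf ζ = qf ζ') : ζ = ζ' := by
  have h1 : qf ζ ^ 2 = ζ ^ 2 + (23 / 4) ^ 2 := sqrt_sq' _
  have h2 : qf ζ' ^ 2 = ζ' ^ 2 + (23 / 4) ^ 2 := sqrt_sq' _
  refine eq_of_sq_of_re_pos ?_ h h'
  rw [e] at h1
  linear_combination h2 - h1

lemma Sf_inj {ζ ζ' : ℂ} (h : 0 < ζ.re) (h' : 0 < ζ'.re) {w : ℝ} (e : Sf w ζ = Sf w ζ') :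
    ζ = ζ' := by
  have h1 : Sf w ζ ^ 2 = (qf ζ + I * w) ^ 2 + 147 / 16 := sqrt_sq' _
  have h2 : Sf w ζ' ^ 2 = (qf ζ' + I * w) ^ 2 + 147 / 16 := sqrt_sq' _
  rw [e] at h1
  have h3 : qf ζ + I * w = qf ζ' + I * w := by
    refine eq_of_sq_of_re_pos ?_ (by rw [add_I_re]; exact qf_re h)
      (by rw [add_I_re]; exact qf_re h')
    linear_combination h2 - h1
  exact qf_inj h h' (add_right_cancel h3)

lemma Hf_inj {ζ ζ' : ℂ} (h : 0 < ζ.re) (h' : 0 < ζ'.re) {w : ℝ} (e : Hf w ζ = Hf w ζ') :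
    ζ = ζ' := by
  unfold Hf at e
  have h3 : Sf w ζ - I * w = Sf w ζ' - I * w := by
    refine eq_of_sq_of_re_pos ?_ (by rw [sub_I_re]; exact Sf_re h w)
      (by rw [sub_I_re]; exact Sf_re h' w)
    linear_combination e
  exact Sf_inj h h' (sub_left_injective h3)

lemma Hf_ne {ζ : ℂ} (h : 0 < ζ.re) (w : ℝ) : Hf w ζ ≠ 0 := by
  intro e
  unfold Hf at e
  have h3 : Sf w ζ - I * w = sw w - I * w := by
    refine eq_of_sq_of_re_pos ?_ (by rw [sub_I_re]; exact Sf_re h w)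
      (by rw [sub_I_re]; exact sw_re w)
    linear_combination e
  have h4 : Sf w ζ = sw w := sub_left_injective h3
  have h1 : Sf w ζ ^ 2 = (qf ζ + I * w) ^ 2 + 147 / 16 := sqrt_sq' _
  have h2 : sw w ^ 2 = ((23 / 4 : ℂ) + I * w) ^ 2 + 147 / 16 := sqrt_sq' _
  rw [h4] at h1
  have h5 : qf ζ + I * w = (23 / 4 : ℂ) + I * w := by
    refine eq_of_sq_of_re_pos ?_ (by rw [add_I_re]; exact qf_re h)
      (by rw [add_I_re]; norm_num)
    linear_combination h2 - h1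
  have h6 : qf ζ = 23 / 4 := add_right_cancel h5
  have h7 : qf ζ ^ 2 = ζ ^ 2 + (23 / 4) ^ 2 := sqrt_sq' _
  rw [h6] at h7
  have h8 : ζ ^ 2 = 0 := by linear_combination -h7
  have h9 : ζ = 0 := by simpa using h8
  rw [h9] at h
  simp at h

lemma qf_diffAt {ζ : ℂ} (h : 0 < ζ.re) : DifferentiableAt ℂ qf ζ := by
  have h1 : DifferentiableAt ℂ (fun ζ : ℂ => ζ ^ 2 + (23 / 4) ^ 2) ζ := by fun_prop
  exact DifferentiableAt.comp (g := Complex.sqrt) ζ (differentiableAt_sqrt' (qf_slit h)) h1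

lemma Sf_diffAt {ζ : ℂ} (h : 0 < ζ.re) (w : ℝ) : DifferentiableAt ℂ (Sf w) ζ := by
  have h0 := qf_diffAt h
  have h1 : DifferentiableAt ℂ (fun ζ : ℂ => (qf ζ + I * w) ^ 2 + 147 / 16) ζ := by fun_prop
  exact DifferentiableAt.comp (g := Complex.sqrt) ζ (differentiableAt_sqrt' (Sf_slit h w)) h1

lemma Hf_diffAt {ζ : ℂ} (h : 0 < ζ.re) (w : ℝ) : DifferentiableAt ℂ (Hf w) ζ := by
  have h0 := Sf_diffAt h w
  unfold Hf
  fun_prop

lemma inv_re_pos {x : ℂ} (h : 0 < x.re) : 0 < (1 / x).re := by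
  rw [one_div, Complex.inv_re]
  refine div_pos h (Complex.normSq_pos.2 ?_)
  intro h2; rw [h2] at h; simp at h

lemma ne_of_re_pos {x : ℂ} (h : 0 < x.re) : x ≠ 0 := by
  intro h2; rw [h2] at h; simp at h

lemma Gf_diff (w : ℝ) : DifferentiableOn ℂ (Gf w) {x : ℂ | 0 < x.re} := by
  intro x hx
  have hx : 0 < x.re := hx
  have hx0 := ne_of_re_pos hx
  have h1 : DifferentiableAt ℂ (fun x : ℂ => 1 / x) x := by fun_prop (disch := assumption)
  have h2 : DifferentiableAt ℂ (fun x : ℂ => Hf w (1 / x)) x :=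
    DifferentiableAt.comp (g := Hf w) x (Hf_diffAt (inv_re_pos hx) w) h1
  have h3 := Hf_ne (inv_re_pos hx) w
  refine DifferentiableAt.differentiableWithinAt ?_
  unfold Gf
  fun_prop (disch := assumption)

lemma Gf_inj (w : ℝ) : Set.InjOn (Gf w) {x : ℂ | 0 < x.re} := by
  intro x hx y hy h
  have hx : 0 < x.re := hx
  have hy : 0 < y.re := hy
  unfold Gf at h
  have h1 := Hf_ne (inv_re_pos hx) w
  have h2 := Hf_ne (inv_re_pos hy) w
  have h3 : Hf w (1 / x) = Hf w (1 / y) := by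
    field_simp at h
    exact h.symm
  have h4 := Hf_inj (inv_re_pos hx) (inv_re_pos hy) h3
  have hx0 := ne_of_re_pos hx
  have hy0 := ne_of_re_pos hy
  field_simp at h4
  exact h4.symm

/-! ### Matching with the local functions -/

lemma match_aux {f g : ℂ → ℂ}
    (hf : ContinuousOn f {x : ℂ | 0 < x.re ∧ ‖x‖ < 1 / 16})
    (hg : ContinuousOn g {x : ℂ | 0 < x.re ∧ ‖x‖ < 1 / 16})
    (hsq : ∀ x : ℂ, 0 < x.re → ‖x‖ < 1 / 16 → f x ^ 2 = g x ^ 2)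
    (hne : ∀ x : ℂ, 0 < x.re → ‖x‖ < 1 / 16 → g x ≠ 0)
    (h1 : 0 < (f (((1 / 32 : ℝ)) : ℂ)).re) (h2 : 0 < (g (((1 / 32 : ℝ)) : ℂ)).re)
    {x : ℂ} (hx : 0 < x.re) (hx' : ‖x‖ < 1 / 16) : f x = g x := by
  have hconv : Convex ℝ {x : ℂ | 0 < x.re ∧ ‖x‖ < 1 / 16} := by
    have e : {x : ℂ | 0 < x.re ∧ ‖x‖ < 1 / 16} = {x : ℂ | 0 < x.re} ∩ Metric.ball 0 (1 / 16) := by
      ext x; simp
    rw [e]
    exact (convex_halfSpace_re_gt 0).inter (convex_ball _ _)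
  have hmem : (((1 / 32 : ℝ)) : ℂ) ∈ {x : ℂ | 0 < x.re ∧ ‖x‖ < 1 / 16} := by
    refine ⟨?_, ?_⟩
    · rw [Complex.ofReal_re]; norm_num
    · rw [Complex.norm_real]; norm_num
  have := hconv.isPreconnected.eq_of_sq_eq hf hg (fun x hx => by
    simp only [Pi.pow_apply]; exact hsq x hx.1 hx.2) (fun {x} hx => hne x hx.1 hx.2) hmem
    (eq_of_sq_of_re_pos (hsq _ hmem.1 hmem.2) h1 h2)
  exact this ⟨hx, hx'⟩

lemma fA_re {x : ℂ} (hx : ‖x‖ < 1 / 16) : 0 < (fA x).re := re_sqrt_pos (fA_slit hx)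

lemma fS_re {x : ℂ} (hx : ‖x‖ < 1 / 16) {w : ℝ} (hw : |w| ≤ 1) : 0 < (fS w x).re :=
  re_sqrt_pos (fS_slit hx hw)

lemma x_qf {x : ℂ} (hx : 0 < x.re) (hx' : ‖x‖ < 1 / 16) : x * qf (1 / x) = fA x := by
  refine match_aux (f := fun x => x * qf (1 / x)) (g := fA) ?_ ?_ ?_ ?_ ?_ ?_ hx hx'
  · intro x hx
    have hx0 := ne_of_re_pos hx.1
    have h1 : DifferentiableAt ℂ (fun x : ℂ => 1 / x) x := by fun_prop (disch := assumption)
    have h2 : DifferentiableAt ℂ (fun x : ℂ => qf (1 / x)) x :=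
      DifferentiableAt.comp (g := qf) x (qf_diffAt (inv_re_pos hx.1)) h1
    exact (differentiableAt_id.mul h2).continuousAt.continuousWithinAt
  · exact fA_diff.continuousOn.mono (fun x hx => by simpa using hx.2)
  · intro x hx hx'
    have hx0 := ne_of_re_pos hx
    have h1 : qf (1 / x) ^ 2 = (1 / x) ^ 2 + (23 / 4) ^ 2 := sqrt_sq' _
    have h2 : fA x ^ 2 = 1 + (23 / 4) ^ 2 * x ^ 2 := sqrt_sq' _
    rw [mul_pow, h1, h2]
    field_simp
  · intro x _ hx'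
    exact ne_of_re_pos (fA_re hx')
  · rw [Complex.re_ofReal_mul]
    have : 0 < (1 / (((1 / 32 : ℝ)) : ℂ)).re := inv_re_pos (by rw [Complex.ofReal_re]; norm_num)
    have := qf_re this
    positivity
  · exact fA_re (by rw [Complex.norm_real]; norm_num)

lemma x_Sf {x : ℂ} (hx : 0 < x.re) (hx' : ‖x‖ < 1 / 16) {w : ℝ} (hw : |w| ≤ 1) :
    x * Sf w (1 / x) = fS w x := by
  refine match_aux (f := fun x => x * Sf w (1 / x)) (g := fS w) ?_ ?_ ?_ ?_ ?_ ?_ hx hx'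
  · intro x hx
    have hx0 := ne_of_re_pos hx.1
    have h1 : DifferentiableAt ℂ (fun x : ℂ => 1 / x) x := by fun_prop (disch := assumption)
    have h2 : DifferentiableAt ℂ (fun x : ℂ => Sf w (1 / x)) x :=
      DifferentiableAt.comp (g := Sf w) x (Sf_diffAt (inv_re_pos hx.1) w) h1
    exact (differentiableAt_id.mul h2).continuousAt.continuousWithinAt
  · exact (fS_diff hw).continuousOn.mono (fun x hx => by simpa using hx.2)
  · intro x hx hx'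
    have hx0 := ne_of_re_pos hx
    have h1 : Sf w (1 / x) ^ 2 = (qf (1 / x) + I * w) ^ 2 + 147 / 16 := sqrt_sq' _
    have h2 : fS w x ^ 2 = 1 + ((13 / 2) ^ 2 * x ^ 2 + 2 * I * w * x * fA x - w ^ 2 * x ^ 2) :=
      sqrt_sq' _
    have h3 := x_qf hx hx'
    have h4 : fA x ^ 2 = 1 + (23 / 4) ^ 2 * x ^ 2 := sqrt_sq' _
    rw [mul_pow, h1, h2]
    have h5 : x ^ 2 * ((qf (1 / x) + I * w) ^ 2 + 147 / 16) =
        (x * qf (1 / x) + I * w * x) ^ 2 + 147 / 16 * x ^ 2 := by ring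
    rw [h5, h3]
    linear_combination h4 + (w : ℂ) ^ 2 * x ^ 2 * Complex.I_sq
  · intro x _ hx'
    exact ne_of_re_pos (fS_re hx' hw)
  · rw [Complex.re_ofReal_mul]
    have : 0 < (1 / (((1 / 32 : ℝ)) : ℂ)).re := inv_re_pos (by rw [Complex.ofReal_re]; norm_num)
    have := Sf_re this w
    positivity
  · exact fS_re (by rw [Complex.norm_real]; norm_num) hw

lemma Gf_eq {x : ℂ} (hx : 0 < x.re) (hx' : ‖x‖ < 1 / 16) {w : ℝ} (hw : |w| ≤ 1) :
    Gf w x = x ^ 2 / fE w x := by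
  have hx0 := ne_of_re_pos hx
  have h1 := x_Sf hx hx' hw
  have h2 : fS w x ^ 2 = 1 + ((13 / 2) ^ 2 * x ^ 2 + 2 * I * w * x * fA x - w ^ 2 * x ^ 2) :=
      sqrt_sq' _
  have h3 : sw w ^ 2 = ((23 / 4 : ℂ) + I * w) ^ 2 + 147 / 16 := sqrt_sq' _
  have h4 : x ^ 2 * Hf w (1 / x) = fE w x := by
    unfold Hf fE
    have h5 : x ^ 2 * ((Sf w (1 / x) - I * w) ^ 2 - (sw w - I * w) ^ 2) =
        (x * Sf w (1 / x) - I * w * x) ^ 2 - x ^ 2 * (sw w - I * w) ^ 2 := by ring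
    rw [h5, h1]
    linear_combination h2 - x ^ 2 * h3 - (w : ℂ) ^ 2 * x ^ 2 * Complex.I_sq
  unfold Gf
  rw [← h4]
  have h5 := Hf_ne (inv_re_pos hx) w
  field_simp

lemma fE_zero (w : ℝ) : fE w 0 = 1 := by unfold fE; simp

lemma fA_zero : fA 0 = 1 := by unfold fA; simp
lemma fS_zero (w : ℝ) : fS w 0 = 1 := by unfold fS; simp

lemma fE_deriv {w : ℝ} (hw : |w| ≤ 1) : deriv (fE w) 0 = 0 := by
  have hmem : (0 : ℂ) ∈ Metric.ball (0 : ℂ) (1 / 16) := Metric.mem_ball_self (by norm_num)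
  have hA : HasDerivAt fA (deriv fA 0) 0 :=
    ((fA_diff 0 hmem).differentiableAt (Metric.isOpen_ball.mem_nhds hmem)).hasDerivAt
  have hS : HasDerivAt (fS w) (deriv (fS w) 0) 0 :=
    ((fS_diff hw 0 hmem).differentiableAt (Metric.isOpen_ball.mem_nhds hmem)).hasDerivAt
  have h1 := (hasDerivAt_id (0 : ℂ)).mul (hS.sub hA)
  have h2 := ((hasDerivAt_id (0 : ℂ)).pow 2).mul_const (sw w - 23 / 4)
  have h3 := ((h1.sub h2).const_mul (2 * I * w)).const_sub 1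
  have h4 : HasDerivAt (fE w) 0 0 := by
    convert! h3 using 1
    simp [fA_zero, fS_zero]
  exact h4.deriv

/-- Members of the class, for the parameter `w`. -/
theorem members {w : ℝ} (hw : |w| ≤ 1 / 12) :
    ∃ (e : ℕ → ℂ) (ν : ℕ → ℝ), Tendsto e atTop (𝓝 0) ∧ Tendsto ν atTop (𝓝 1) ∧
      ∀ᶠ n in atTop, ‖coef n (Mf (fE w) n) + e n‖ / ν n ∈ CS n :=
  soft (fE_diff (by linarith)) (fun _ hx => fE_sub_one hx hw) (fE_zero w)
    (fE_deriv (by linarith)) (Gf_diff w) (Gf_inj w)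
    (fun _ hx hx' => Gf_eq hx hx' (by linarith))

end Pool.Agent.Lib.H38.Kp
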