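import Mathlib
import Pool.Agent.Lib.H38.KpExp

set_option autoImplicit false

/-!
# Exact integer certificate for the second order term
-/

namespace Pool.Agent.Lib.H38.Kp

open Filter Topology Finset Complex

/-! ### Polynomials as integer lists -/

def addL : List ℤ → List ℤ → List ℤ
  | [], m => m
  | a :: l, [] => a :: l
  | a :: l, b :: m => (a + b) :: addL l m

def smulL (c : ℤ) : List ℤ → List ℤ
  | [] => []
  | a :: l => (c * a) :: smulL c l

def mulL : List ℤ → List ℤ → List ℤ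
  | [], _ => []
  | a :: l, m => addL (smulL a m) (0 :: mulL l m)

def ex2 : List ℤ → List ℤ
  | [] => []
  | a :: l => a :: 0 :: ex2 l

def l1 : List ℤ → ℕ
  | [] => 0
  | a :: l => a.natAbs + l1 l

def bor : List ℤ → ℕ → ℚ
  | [], _ => 0
  | a :: l, k => a + 16 / ((k : ℚ) + 1) * bor l (k + 1)

noncomputable def evL : List ℤ → ℂ → ℂ
  | [], _ => 0
  | a :: l, t => (a : ℂ) + t * evL l t

lemma evL_add (l m : List ℤ) (t : ℂ) : evL (addL l m) t = evL l t + evL m t := by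
  induction l generalizing m with
  | nil => simp [addL, evL]
  | cons a l ih =>
    cases m with
    | nil => simp [addL, evL]
    | cons b m =>
      simp only [addL, evL, ih, Int.cast_add]
      ring

lemma evL_smul (c : ℤ) (l : List ℤ) (t : ℂ) : evL (smulL c l) t = c * evL l t := by
  induction l with
  | nil => simp [smulL, evL]
  | cons a l ih =>
    simp only [smulL, evL, ih, Int.cast_mul]
    ring

lemma evL_mul (l m : List ℤ) (t : ℂ) : evL (mulL l m) t = evL l t * evL m t := by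
  induction l with
  | nil => simp [mulL, evL]
  | cons a l ih =>
    simp only [mulL, evL, evL_add, evL_smul, ih, Int.cast_zero]
    ring

lemma evL_ex2 (l : List ℤ) (t : ℂ) : evL (ex2 l) t = evL l (t ^ 2) := by
  induction l with
  | nil => simp [ex2, evL]
  | cons a l ih =>
    simp only [ex2, evL, ih, Int.cast_zero]
    ring

lemma norm_evL_le (l : List ℤ) {t : ℂ} (ht : ‖t‖ ≤ 1) : ‖evL l t‖ ≤ (l1 l : ℝ) := by
  induction l with
  | nil => simp [evL, l1]
  | cons a l ih =>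
    simp only [evL, l1, Nat.cast_add]
    refine (norm_add_le _ _).trans ?_
    have h1 : ‖(a : ℂ)‖ = ((a.natAbs : ℕ) : ℝ) := by
      rw [Complex.norm_intCast, Nat.cast_natAbs, Int.cast_abs]
    rw [h1, norm_mul]
    have h2 : ‖t‖ * ‖evL l t‖ ≤ 1 * ‖evL l t‖ := by gcongr
    linarith

/-- the lists as sums of monomials -/
lemma evL_eq_sum (l : List ℤ) (x : ℂ) (c : ℂ) :
    evL l (c * x) = ∑ m ∈ range l.length, ((l.getD m 0 : ℤ) : ℂ) * c ^ m * x ^ m := by
  induction l with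
  | nil => simp [evL]
  | cons a l ih =>
    rw [List.length_cons, sum_range_succ']
    simp only [evL, List.getD_cons_succ, List.getD_cons_zero, pow_zero, mul_one]
    rw [ih, mul_sum, add_comm]
    congr 1
    refine sum_congr rfl (fun m _ => ?_)
    ring

lemma bor_eq_sum (l : List ℤ) (k : ℕ) :
    bor l k = ∑ m ∈ range l.length, ((l.getD m 0 : ℤ) : ℚ) * 16 ^ m *
      ((k.factorial : ℚ) / ((k + m).factorial : ℚ)) := by
  induction l generalizing k with
  | nil => simp [bor]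
  | cons a l ih =>
    rw [List.length_cons, sum_range_succ']
    simp only [bor, List.getD_cons_succ, List.getD_cons_zero, pow_zero, mul_one, add_zero]
    have hk : ((k.factorial : ℚ)) ≠ 0 := by exact_mod_cast k.factorial_ne_zero
    rw [ih, mul_sum, add_comm, div_self hk, mul_one]
    congr 1
    refine sum_congr rfl (fun m _ => ?_)
    rw [show k + 1 + m = k + (m + 1) by ring, Nat.factorial_succ k]
    have h2 : (((k + (m + 1)).factorial : ℕ) : ℚ) ≠ 0 := by
      exact_mod_cast (k + (m + 1)).factorial_ne_zero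
    have h3 : ((k : ℚ) + 1) ≠ 0 := by positivity
    push_cast
    field_simp
    ring

/-! ### The data -/

def LA : List ℤ := [
  1152921504606846976, 74450131339968512, -2403815886159872, 155226880344064, -12529757644960,
  1132756165998, -109721925991, 11134066116, -1168349803, 125744028, -13803907, 1539674, -173993,
  19878, -2292, 266, -31, 4]

def LB : List ℤ := [
  1152921504606846976, 95138542128201728, -3925393950113792, 323921668734976, -33412330332160,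
  3860037771772, -477792761301, 61957083096, -8308087864, 1142632527, -160292151, 22847039,
  -3299322, 481688, -70980, 10543, -1577, 237]

def LC : List ℤ := [
  1152921504606846976, -95138542128201728, 11776181850341376, -1619608343674880, 233886312325120,
  -34740339945948, 5255720374310, -805442080243, 124621317957, -19424752956, 3045550866,
  -479787821, 75884410, -12042204, 1916454, -305747, 48883, -7830]

def SS : ℤ := 2 ^ 60

def DD : List ℤ :=
  addL (0 :: smulL 64 (addL (ex2 LB) (smulL (-1) (ex2 LA)))) [0, 0, -(3 * SS)]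

def LZ : List ℤ :=
  addL (0 :: 0 :: addL (smulL 106496 (mulL (ex2 LA) (ex2 LC))) [-(94208 * SS ^ 2)])
    (smulL 39 (mulL DD DD))

lemma resA : l1 (addL (mulL LA LA) [-(SS ^ 2), -(529 * 2 ^ 108)]) * 10 ^ 15 ≤ 2 ^ 120 := by
  decide +kernel
lemma resB : l1 (addL (mulL LB LB) [-(SS ^ 2), -(169 * 2 ^ 110)]) * 10 ^ 15 ≤ 2 ^ 120 := by
  decide +kernel
lemma resC : l1 (addL (mulL LC LB) [-(SS ^ 2)]) * 10 ^ 14 ≤ 2 ^ 120 := by
  decide +kernel
lemma tailA : l1 (addL LA [-SS]) * 4 ≤ 2 ^ 60 := by decide +kernel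
lemma tailB : l1 (addL LB [-SS]) * 4 ≤ 2 ^ 60 := by decide +kernel
lemma tailC : l1 (addL LC [-SS]) * 4 ≤ 2 ^ 60 := by decide +kernel
lemma borZ : bor LZ 0 * 10 ^ 5 ≤ -(5 * (27262976 * 2 ^ 120)) := by decide +kernel


/-! ### Approximation of the square roots -/

lemma norm_sub_le_of_l1 {L : List ℤ} {v : ℂ} (hv : ‖v‖ ≤ 1) {c D : ℕ} (hc : 0 < c) (hD : 0 < D)
    (h : l1 L * c ≤ D) : ‖evL L v / (D : ℂ)‖ ≤ 1 / (c : ℝ) := by
  have hD' : (0 : ℝ) < D := by exact_mod_cast hD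
  have hc' : (0 : ℝ) < c := by exact_mod_cast hc
  rw [norm_div, Complex.norm_natCast, div_le_div_iff₀ hD' hc', one_mul]
  have h1 := norm_evL_le L hv
  have h2 : (l1 L : ℝ) * c ≤ D := by exact_mod_cast h
  calc ‖evL L v‖ * c ≤ (l1 L : ℝ) * c := by gcongr
    _ ≤ D := h2

/-- evaluation of the truncated series -/
noncomputable def pv (L : List ℤ) (v : ℂ) : ℂ := evL L v / 2 ^ 60

lemma pv_sub_one {L : List ℤ} {v : ℂ} (hv : ‖v‖ ≤ 1) (h : l1 (addL L [-SS]) * 4 ≤ 2 ^ 60) :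
    ‖pv L v - 1‖ ≤ 1 / 4 := by
  have h1 := norm_sub_le_of_l1 hv (by norm_num) (by positivity) h
  rw [evL_add] at h1
  have e : (evL L v + evL [-SS] v) / ((2 ^ 60 : ℕ) : ℂ) = pv L v - 1 := by
    unfold pv SS
    simp only [evL]
    push_cast
    field_simp
    ring
  rw [e] at h1
  exact_mod_cast h1

lemma sqrt_approx {L : List ℤ} {c : ℤ} {v : ℂ} (hv : ‖v‖ ≤ 1)
    (hres : l1 (addL (mulL L L) [-(SS ^ 2), -c]) * 10 ^ 15 ≤ 2 ^ 120)
    (htail : l1 (addL L [-SS]) * 4 ≤ 2 ^ 60) :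
    ‖Complex.sqrt (1 + c * v / 2 ^ 120) - pv L v‖ ≤ 2 / 10 ^ 15 := by
  have h1 := norm_sub_le_of_l1 hv (by positivity) (by positivity) hres
  rw [evL_add, evL_mul] at h1
  have e : (evL L v * evL L v + evL [-(SS ^ 2), -c] v) / ((2 ^ 120 : ℕ) : ℂ) =
      pv L v ^ 2 - (1 + c * v / 2 ^ 120) := by
    unfold pv SS
    simp only [evL]
    push_cast
    field_simp
    ring
  rw [e] at h1
  have h2 := pv_sub_one hv htail
  have h3 : 3 / 4 ≤ (pv L v).re := by
    have h3 := neg_le_of_abs_le (Complex.abs_re_le_norm (pv L v - 1))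
    simp only [Complex.sub_re, Complex.one_re] at h3
    linarith
  have h4 : (1 / 2 : ℝ) ≤ ‖Complex.sqrt (1 + c * v / 2 ^ 120) + pv L v‖ := by
    have e1 := Complex.re_le_norm (Complex.sqrt (1 + c * v / 2 ^ 120) + pv L v)
    rw [Complex.add_re] at e1
    have := re_sqrt_nonneg (1 + c * v / 2 ^ 120)
    linarith
  have h5 := norm_sub_mul_le (by norm_num) h4
  have h6 : ‖(1 + c * v / 2 ^ 120) - pv L v ^ 2‖ = ‖pv L v ^ 2 - (1 + c * v / 2 ^ 120)‖ :=
    norm_sub_rev _ _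
  rw [sqrt_sq', h6] at h5
  refine h5.trans ?_
  rw [div_le_iff₀ (by norm_num)]
  push_cast at h1
  linarith

section approx

variable {x : ℂ}

lemma norm_v (hx : ‖x‖ < 1 / 16) : ‖(16 * x) ^ 2‖ ≤ 1 := by
  rw [norm_pow, norm_mul]
  have h16 : ‖(16 : ℂ)‖ = 16 := by norm_num
  rw [h16]
  have := norm_nonneg x
  exact pow_le_one₀ (by positivity) (by linarith)

lemma approxA (hx : ‖x‖ < 1 / 16) : ‖fA x - pv LA ((16 * x) ^ 2)‖ ≤ 2 / 10 ^ 15 := by
  have h := sqrt_approx (norm_v hx) resA tailA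
  have e : (1 + ((529 * 2 ^ 108 : ℤ) : ℂ) * (16 * x) ^ 2 / 2 ^ 120) = 1 + (23 / 4) ^ 2 * x ^ 2 := by
    push_cast
    field_simp
    ring
  rw [e] at h
  exact h

lemma approxB (hx : ‖x‖ < 1 / 16) : ‖fB x - pv LB ((16 * x) ^ 2)‖ ≤ 2 / 10 ^ 15 := by
  have h := sqrt_approx (norm_v hx) resB tailB
  have e : (1 + ((169 * 2 ^ 110 : ℤ) : ℂ) * (16 * x) ^ 2 / 2 ^ 120) = 1 + (13 / 2) ^ 2 * x ^ 2 := by
    push_cast
    field_simp
    ring
  rw [e] at h
  exact h

lemma approxC (hx : ‖x‖ < 1 / 16) : ‖1 / fB x - pv LC ((16 * x) ^ 2)‖ ≤ 2 / 10 ^ 14 := by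
  have hv := norm_v hx
  have h1 := norm_sub_le_of_l1 hv (by positivity) (by positivity) resC
  rw [evL_add, evL_mul] at h1
  have e : (evL LC ((16 * x) ^ 2) * evL LB ((16 * x) ^ 2) + evL [-(SS ^ 2)] ((16 * x) ^ 2)) /
      ((2 ^ 120 : ℕ) : ℂ) = pv LC ((16 * x) ^ 2) * pv LB ((16 * x) ^ 2) - 1 := by
    unfold pv SS
    simp only [evL]
    push_cast
    field_simp
    ring
  rw [e] at h1
  push_cast at h1
  have hB := approxB hx
  have hne := fB_ne hx
  have hge := fB_norm_ge hx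
  have hC := pv_sub_one hv tailC
  set pC := pv LC ((16 * x) ^ 2)
  set pB := pv LB ((16 * x) ^ 2)
  have hCn : ‖pC‖ ≤ 5 / 4 := by
    have := norm_add_le (pC - 1) 1
    rw [sub_add_cancel, norm_one] at this
    linarith
  have e2 : 1 / fB x - pC = (-(pC * pB - 1) - pC * (fB x - pB)) / fB x := by
    field_simp
    ring
  rw [e2, norm_div, div_le_iff₀ (by linarith)]
  have e3 := norm_sub_le (-(pC * pB - 1)) (pC * (fB x - pB))
  rw [norm_neg, norm_mul pC] at e3
  have e4 : ‖pC‖ * ‖fB x - pB‖ ≤ 5 / 4 * (2 / 10 ^ 15) := by gcongr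
  nlinarith

/-- the approximating polynomial -/
noncomputable def pZ (x : ℂ) : ℂ :=
  x ^ 2 * (pv LA ((16 * x) ^ 2) * pv LC ((16 * x) ^ 2) - 23 / 26) +
    (3 / 2) * (x * (pv LB ((16 * x) ^ 2) - pv LA ((16 * x) ^ 2)) - x ^ 2 * (3 / 4)) ^ 2

lemma pZ_eq (x : ℂ) : evL LZ (16 * x) = 27262976 * 2 ^ 120 * pZ x := by
  have h1 : evL LZ (16 * x) = 16 * x * (16 * x * (106496 * (evL LA ((16 * x) ^ 2) *
      evL LC ((16 * x) ^ 2)) + -(94208 * (2 ^ 60) ^ 2))) +
      39 * (evL DD (16 * x) * evL DD (16 * x)) := by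
    unfold LZ SS
    simp only [evL_add, evL, evL_smul, evL_mul, evL_ex2]
    push_cast
    ring
  have h2 : evL DD (16 * x) = 16 * x * (64 * (evL LB ((16 * x) ^ 2) - evL LA ((16 * x) ^ 2))) +
      -(3 * 2 ^ 60) * (16 * x) ^ 2 := by
    unfold DD SS
    simp only [evL_add, evL, evL_smul, evL_ex2]
    push_cast
    ring
  rw [h1, h2]
  unfold pZ pv
  field_simp
  ring

lemma approxZ (hx : ‖x‖ < 1 / 16) : ‖fZ x - pZ x‖ ≤ 1 / 10 ^ 13 := by
  have hv := norm_v hx
  have hA := approxA hx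
  have hB := approxB hx
  have hC := approxC hx
  have hAn := fA_norm hx
  have hC1 := pv_sub_one hv tailC
  have hx2 := norm_sq_lt hx
  have hU := fU_norm hx
  have hx0 := norm_nonneg x
  unfold fU at hU
  unfold fZ pZ
  set pC := pv LC ((16 * x) ^ 2)
  set pB := pv LB ((16 * x) ^ 2)
  set pA := pv LA ((16 * x) ^ 2)
  set D := x * (fB x - fA x) - x ^ 2 * (3 / 4) with hD
  have hCn : ‖pC‖ ≤ 5 / 4 := by
    have := norm_add_le (pC - 1) 1
    rw [sub_add_cancel, norm_one] at this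
    linarith
  have e1 : ‖fA x / fB x - pA * pC‖ ≤ 4 / 10 ^ 14 := by
    have e2 : fA x / fB x - pA * pC = fA x * (1 / fB x - pC) + (fA x - pA) * pC := by ring
    rw [e2]
    have e3 := norm_add_le (fA x * (1 / fB x - pC)) ((fA x - pA) * pC)
    rw [norm_mul, norm_mul] at e3
    have e4 : ‖fA x‖ * ‖1 / fB x - pC‖ ≤ 113 / 100 * (2 / 10 ^ 14) := by gcongr
    have e5 : ‖fA x - pA‖ * ‖pC‖ ≤ 2 / 10 ^ 15 * (5 / 4) := by gcongr
    linarith
  have e2 : ‖D - (x * (pB - pA) - x ^ 2 * (3 / 4))‖ ≤ 1 / 10 ^ 15 := by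
    have e3 : D - (x * (pB - pA) - x ^ 2 * (3 / 4)) = x * ((fB x - pB) - (fA x - pA)) := by
      rw [hD]; ring
    rw [e3, norm_mul]
    have e4 := norm_sub_le (fB x - pB) (fA x - pA)
    calc ‖x‖ * ‖fB x - pB - (fA x - pA)‖ ≤ 1 / 16 * (2 / 10 ^ 15 + 2 / 10 ^ 15) := by
          gcongr
          linarith
      _ ≤ 1 / 10 ^ 15 := by norm_num
  set pD := x * (pB - pA) - x ^ 2 * (3 / 4) with hpD
  have e3 : x ^ 2 * (fA x / fB x - 23 / 26) + 3 / 2 * D ^ 2 -
      (x ^ 2 * (pA * pC - 23 / 26) + 3 / 2 * pD ^ 2) =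
      x ^ 2 * (fA x / fB x - pA * pC) + 3 / 2 * ((D - pD) * (2 * D - (D - pD))) := by ring
  rw [e3]
  have e4 := norm_add_le (x ^ 2 * (fA x / fB x - pA * pC))
    (3 / 2 * ((D - pD) * (2 * D - (D - pD))))
  rw [norm_mul (x ^ 2), norm_mul (3 / 2 : ℂ), norm_mul (D - pD)] at e4
  have h32 : ‖(3 / 2 : ℂ)‖ = 3 / 2 := by rw [norm_div]; norm_num
  have h2 : ‖(2 : ℂ)‖ = 2 := by norm_num
  have e5 : ‖2 * D - (D - pD)‖ ≤ 2 := by
    have := norm_sub_le (2 * D) (D - pD)
    rw [norm_mul, h2] at this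
    have h9 : (1 : ℝ) / 10 ^ 15 ≤ 1 := by norm_num
    linarith
  rw [h32] at e4
  have e6 : ‖x ^ 2‖ * ‖fA x / fB x - pA * pC‖ ≤ 1 / 256 * (4 / 10 ^ 14) := by gcongr
  have e7 : 3 / 2 * (‖D - pD‖ * ‖2 * D - (D - pD)‖) ≤ 3 / 2 * (1 / 10 ^ 15 * 2) := by gcongr
  refine e4.trans ((add_le_add e6 e7).trans ?_)
  norm_num

end approx

/-- The polynomial approximation of `fZ` and the sign of the limit functional. -/
theorem exists_poly : ∃ (N : ℕ) (z : ℕ → ℝ),
    (∀ x : ℂ, ‖x‖ < 1 / 16 → ‖fZ x - ∑ m ∈ range N, (z m : ℂ) * x ^ m‖ ≤ 1 / 10 ^ 13) ∧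
    ∑ m ∈ range N, z m / (m.factorial : ℝ) ≤ -(5 / 10 ^ 5 : ℝ) := by
  refine ⟨LZ.length, fun m => ((LZ.getD m 0 : ℤ) : ℝ) * 16 ^ m / (27262976 * 2 ^ 120), ?_, ?_⟩
  · intro x hx
    have h := approxZ hx
    have h1 := pZ_eq x
    rw [evL_eq_sum] at h1
    have e : ∑ m ∈ range LZ.length,
        (((((LZ.getD m 0 : ℤ) : ℝ) * 16 ^ m / (27262976 * 2 ^ 120) : ℝ)) : ℂ) * x ^ m = pZ x := by
      have h2 : pZ x = (27262976 * 2 ^ 120)⁻¹ *
          ∑ m ∈ range LZ.length, ((LZ.getD m 0 : ℤ) : ℂ) * 16 ^ m * x ^ m := by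
        rw [h1]; field_simp
      rw [h2, mul_sum]
      refine sum_congr rfl (fun m _ => ?_)
      push_cast
      field_simp
    rw [e]
    exact h
  · have h := borZ
    rw [bor_eq_sum] at h
    have h2 : (((∑ m ∈ range LZ.length, ((LZ.getD m 0 : ℤ) : ℚ) * 16 ^ m *
      (((0 : ℕ).factorial : ℚ) / ((0 + m).factorial : ℚ))) * 10 ^ 5 : ℚ) : ℝ) ≤
        ((-(5 * (27262976 * 2 ^ 120)) : ℚ) : ℝ) := by exact_mod_cast h
    push_cast at h2
    have e : ∑ m ∈ range LZ.length, ((LZ.getD m 0 : ℤ) : ℝ) * 16 ^ m / (27262976 * 2 ^ 120) /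
        (m.factorial : ℝ) = (27262976 * 2 ^ 120)⁻¹ * ∑ m ∈ range LZ.length,
          ((LZ.getD m 0 : ℤ) : ℝ) * 16 ^ m * (((0 : ℕ).factorial : ℝ) / ((0 + m).factorial : ℝ)) := by
      rw [mul_sum]
      refine sum_congr rfl (fun m _ => ?_)
      rw [zero_add, Nat.factorial_zero, Nat.cast_one]
      ring
    rw [e]
    rw [inv_mul_le_iff₀ (by positivity)]
    linarith

end Pool.Agent.Lib.H38.Kp
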