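import Mathlib
import Pool.Agent.Lib.H38.KpNum
import Pool.Agent.Lib.H38.KpMap

set_option autoImplicit false

/-!
# The gain at `p = 1/2`
-/

namespace Pool.Agent.Lib.H38.Kp

open Filter Topology Finset Complex

/-- the coefficient functional -/
noncomputable def TT (n : ℕ) (Θ : ℂ → ℂ) : ℂ := coef n (fun z => Θ (xn n z) / (1 - z))

lemma diff_T {Θ : ℂ → ℂ} (hΘ : DifferentiableOn ℂ Θ (Metric.ball 0 (1 / 16))) {n : ℕ}
    (hn : 33 ≤ n) :
    DifferentiableOn ℂ (fun z => Θ (xn n z) / (1 - z)) (Metric.ball 0 (1 - 32 / (n : ℝ))) := by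
  intro z hz
  obtain ⟨h1, -, h2⟩ := ball_facts hn hz
  have e1 : DifferentiableAt ℂ (fun z => Θ (xn n z)) z :=
    ((Ex_diff hΘ hn) z hz).differentiableAt (Metric.isOpen_ball.mem_nhds hz)
  have e2 : DifferentiableAt ℂ (fun z : ℂ => 1 - z) z := by fun_prop
  exact (e1.div e2 (one_sub_ne h1)).differentiableWithinAt

lemma TT_add {Θ₁ Θ₂ : ℂ → ℂ} (h1 : DifferentiableOn ℂ Θ₁ (Metric.ball 0 (1 / 16)))
    (h2 : DifferentiableOn ℂ Θ₂ (Metric.ball 0 (1 / 16))) {n : ℕ} (hn : 33 ≤ n) :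
    TT n (fun x => Θ₁ x + Θ₂ x) = TT n Θ₁ + TT n Θ₂ := by
  unfold TT
  rw [← coef_add (radius_pos hn) (diff_T h1 hn) (diff_T h2 hn)]
  congr 1
  funext z
  ring

lemma TT_smul {Θ : ℂ → ℂ} (h1 : DifferentiableOn ℂ Θ (Metric.ball 0 (1 / 16))) (a : ℂ) {n : ℕ}
    (hn : 33 ≤ n) : TT n (fun x => a * Θ x) = a * TT n Θ := by
  unfold TT
  rw [← coef_const_mul (radius_pos hn) (diff_T h1 hn)]
  congr 1
  funext z
  ring

lemma TT_one (n : ℕ) : TT n (fun _ => 1) = 1 := by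
  have := coef_monomial n 0 n
  unfold TT
  simpa using this

lemma TT_sum (z : ℕ → ℝ) {n : ℕ} (hn : 33 ≤ n) (N : ℕ) :
    TT n (fun x => ∑ m ∈ range N, (z m : ℂ) * x ^ m) =
      ∑ m ∈ range N, (z m : ℂ) * coef n (fun y => xn n y ^ m / (1 - y)) := by
  induction N with
  | zero =>
    simp only [range_zero, sum_empty]
    have := TT_smul (Θ := fun _ => 1) (differentiableOn_const 1) 0 hn
    simpa using this
  | succ N ih =>
    simp only [sum_range_succ]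
    have hd1 : DifferentiableOn ℂ (fun x : ℂ => ∑ m ∈ range N, (z m : ℂ) * x ^ m)
        (Metric.ball 0 (1 / 16)) := by fun_prop
    have hd2 : DifferentiableOn ℂ (fun x : ℂ => x ^ N) (Metric.ball 0 (1 / 16)) := by fun_prop
    rw [TT_add hd1 (hd2.const_mul (z N : ℂ)) hn, ih, TT_smul hd2 _ hn]
    rfl

lemma TT_bound {R : ℂ → ℂ} {K : ℝ} (hR : DifferentiableOn ℂ R (Metric.ball 0 (1 / 16)))
    (hK : ∀ x, ‖x‖ < 1 / 16 → ‖R x‖ ≤ K) (hK0 : 0 ≤ K) {n : ℕ} (hn : 64 ≤ n) :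
    ‖TT n R‖ ≤ K * (14 * 10 ^ 7) := by
  have h := norm_coef_subst_le (δ := 1 / 16) (by norm_num) hR
    (fun z hz => hK z (by simpa using hz)) (n₀ := 64) (by norm_num) hn
  unfold TT
  refine h.trans ?_
  gcongr
  norm_num

/-- The second order functional is eventually negative. -/
lemma TT_fZ : ∀ᶠ n : ℕ in atTop, (TT n fZ).re ≤ -(2 / 10 ^ 5) := by
  obtain ⟨N, z, hz1, hz2⟩ := exists_poly
  have hlim : Tendsto (fun n : ℕ => ∑ m ∈ range N, (z m : ℂ) *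
      coef n (fun y => xn n y ^ m / (1 - y))) atTop
      (𝓝 (∑ m ∈ range N, (z m : ℂ) * ((1 / (m.factorial : ℝ) : ℝ) : ℂ))) :=
    tendsto_finsetSum _ (fun m _ => (tendsto_mono m).const_mul _)
  have hlim2 := (Complex.continuous_re.tendsto _).comp hlim
  have hval : (∑ m ∈ range N, (z m : ℂ) * ((1 / (m.factorial : ℝ) : ℝ) : ℂ)).re ≤
      -(5 / 10 ^ 5 : ℝ) := by
    have e : (∑ m ∈ range N, (z m : ℂ) * ((1 / (m.factorial : ℝ) : ℝ) : ℂ)) =
        ((∑ m ∈ range N, z m / (m.factorial : ℝ) : ℝ) : ℂ) := by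
      push_cast
      refine sum_congr rfl (fun m _ => ?_)
      ring
    rw [e, Complex.ofReal_re]
    exact hz2
  have hev : ∀ᶠ n : ℕ in atTop, (∑ m ∈ range N, (z m : ℂ) *
      coef n (fun y => xn n y ^ m / (1 - y))).re < -(4 / 10 ^ 5) :=
    hlim2.eventually_lt_const (hval.trans_lt (by norm_num))
  filter_upwards [hev, eventually_ge_atTop 64] with n hn hn64
  have hn33 : 33 ≤ n := by lia
  have hdp : DifferentiableOn ℂ (fun x : ℂ => ∑ m ∈ range N, (z m : ℂ) * x ^ m)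
      (Metric.ball 0 (1 / 16)) := by fun_prop
  have hdR : DifferentiableOn ℂ (fun x : ℂ => fZ x - ∑ m ∈ range N, (z m : ℂ) * x ^ m)
      (Metric.ball 0 (1 / 16)) := fZ_diff.sub hdp
  have e1 : TT n fZ = TT n (fun x => ∑ m ∈ range N, (z m : ℂ) * x ^ m) +
      TT n (fun x => fZ x - ∑ m ∈ range N, (z m : ℂ) * x ^ m) := by
    rw [← TT_add hdp hdR hn33]
    congr 1
    funext x
    ring
  have e2 := TT_bound hdR hz1 (by positivity) hn64
  rw [e1, Complex.add_re, TT_sum z hn33 N]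
  have e3 := Complex.re_le_norm (TT n (fun x => fZ x - ∑ m ∈ range N, (z m : ℂ) * x ^ m))
  have e4 : (1 : ℝ) / 10 ^ 13 * (14 * 10 ^ 7) ≤ 15 / 10 ^ 6 := by norm_num
  have e5 : -(4 / 10 ^ 5 : ℝ) + 15 / 10 ^ 6 ≤ -(2 / 10 ^ 5) := by norm_num
  linarith

/-- the parameter -/
noncomputable def w0 : ℝ := 1 / 10 ^ 15

lemma w0_abs : |w0| ≤ 1 / 12 := by
  unfold w0
  rw [abs_of_pos (by positivity)]
  norm_num

lemma w0_abs' : |-w0| ≤ 1 / 12 := by rw [abs_neg]; exact w0_abs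

/-- The averaged coefficient exceeds `1`. -/
lemma avg_gain : ∀ᶠ n : ℕ in atTop,
    2 + 2 / 10 ^ 35 ≤ (TT n (fPhi w0)).re + (TT n (fPhi (-w0))).re := by
  filter_upwards [TT_fZ, eventually_ge_atTop 64] with n hZ hn64
  have hn33 : 33 ≤ n := by lia
  set R : ℂ → ℂ := fun x => (fPhi w0 x + fPhi (-w0) x) + ((-2) * 1 + (2 * (w0 : ℂ) ^ 2) * fZ x)
    with hR
  have hd1 : DifferentiableOn ℂ (fun _ : ℂ => (1 : ℂ)) (Metric.ball 0 (1 / 16)) :=
    differentiableOn_const 1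
  have hd2 : DifferentiableOn ℂ (fun x : ℂ => fPhi w0 x + fPhi (-w0) x)
      (Metric.ball 0 (1 / 16)) := (fPhi_diff w0_abs).add (fPhi_diff w0_abs')
  have hd3 : DifferentiableOn ℂ (fun x : ℂ => (-2) * (1 : ℂ) + (2 * (w0 : ℂ) ^ 2) * fZ x)
      (Metric.ball 0 (1 / 16)) := (hd1.const_mul (-2)).add (fZ_diff.const_mul _)
  have hdR : DifferentiableOn ℂ R (Metric.ball 0 (1 / 16)) := hd2.add hd3
  have hRb : ∀ x, ‖x‖ < 1 / 16 → ‖R x‖ ≤ 120 * w0 ^ 3 := by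
    intro x hx
    have h1 := fPhi_exp hx w0_abs
    have h2 := fPhi_exp hx w0_abs'
    have h0 : |w0| = w0 := abs_of_pos (by unfold w0; positivity)
    rw [abs_neg, h0] at h2
    rw [h0] at h1
    have e : R x = -((pw w0 x - fPhi w0 x) + (pw (-w0) x - fPhi (-w0) x)) := by
      rw [hR]
      simp only
      unfold pw
      push_cast
      ring
    rw [e, norm_neg]
    have := norm_add_le (pw w0 x - fPhi w0 x) (pw (-w0) x - fPhi (-w0) x)
    linarith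
  have e1 : TT n R = (TT n (fPhi w0) + TT n (fPhi (-w0))) +
      ((-2) * 1 + (2 * (w0 : ℂ) ^ 2) * TT n fZ) := by
    rw [hR, TT_add hd2 hd3 hn33, TT_add (fPhi_diff w0_abs) (fPhi_diff w0_abs') hn33,
      TT_add (hd1.const_mul (-2)) (fZ_diff.const_mul _) hn33, TT_smul hd1 _ hn33,
      TT_smul fZ_diff _ hn33, TT_one]
  have e2 := TT_bound hdR hRb (by unfold w0; positivity) hn64
  have e3 : (TT n (fPhi w0)).re + (TT n (fPhi (-w0))).re =
      2 - 2 * w0 ^ 2 * (TT n fZ).re + (TT n R).re := by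
    have e4 : TT n (fPhi w0) + TT n (fPhi (-w0)) =
        2 - (((2 * w0 ^ 2 : ℝ)) : ℂ) * TT n fZ + TT n R := by
      rw [e1]; push_cast; ring
    have e5 := congrArg Complex.re e4
    rw [Complex.add_re, Complex.add_re, Complex.sub_re, Complex.re_ofReal_mul] at e5
    simpa using e5
  rw [e3]
  have e6 := neg_le_of_abs_le (Complex.abs_re_le_norm (TT n R))
  have e7 : 120 * w0 ^ 3 * (14 * 10 ^ 7) ≤ 2 / 10 ^ 35 := by
    unfold w0
    norm_num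
  have e8 : 2 * w0 ^ 2 * (2 / 10 ^ 5) = 4 / 10 ^ 35 := by
    unfold w0
    norm_num
  have e9 : 2 * w0 ^ 2 * (TT n fZ).re ≤ 2 * w0 ^ 2 * (-(2 / 10 ^ 5)) := by
    have : 0 ≤ 2 * w0 ^ 2 := by positivity
    exact mul_le_mul_of_nonneg_left hZ this
  have e10 : 2 * w0 ^ 2 * (-(2 / 10 ^ 5)) = -(4 / 10 ^ 35) := by rw [mul_neg, e8]
  rw [e10] at e9
  have e11 : (2 : ℝ) / 10 ^ 35 = 4 / 10 ^ 35 - 2 / 10 ^ 35 := by norm_num
  linarith

/-- Uniform gain over the Koebe function at `p = 1/2`. -/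
theorem exists_gain : ∃ ε : ℝ, 0 < ε ∧ ∀ᶠ n : ℕ in atTop, ∃ c ∈ CS n, 1 + ε ≤ c := by
  refine ⟨5 / 10 ^ 36, by positivity, ?_⟩
  obtain ⟨e₁, ν₁, he₁, hν₁, hm₁⟩ := members w0_abs
  obtain ⟨e₂, ν₂, he₂, hν₂, hm₂⟩ := members w0_abs'
  have hsmall : ∀ {e : ℕ → ℂ}, Tendsto e atTop (𝓝 0) → ∀ᶠ n in atTop, ‖e n‖ < 2 / 10 ^ 36 := by
    intro e he
    have := he.norm
    rw [norm_zero] at this
    exact this.eventually_lt_const (by positivity)
  have hnu : ∀ {ν : ℕ → ℝ}, Tendsto ν atTop (𝓝 1) →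
      ∀ᶠ n in atTop, 1 / 2 < ν n ∧ ν n < 1 + 2 / 10 ^ 36 := by
    intro ν hν
    exact (hν.eventually_const_lt (by norm_num)).and (hν.eventually_lt_const (by norm_num))
  have key : ∀ {t e : ℂ} {ν : ℝ}, 1 + 1 / 10 ^ 35 ≤ t.re → ‖e‖ < 2 / 10 ^ 36 → 1 / 2 < ν →
      ν < 1 + 2 / 10 ^ 36 → 1 + 5 / 10 ^ 36 ≤ ‖t + e‖ / ν := by
    intro t e ν ht he hν hν'
    rw [le_div_iff₀ (by linarith)]
    have h1 := Complex.re_le_norm (t + e)
    rw [Complex.add_re] at h1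
    have h2 := neg_le_of_abs_le (Complex.abs_re_le_norm e)
    have h3 : (1 + 5 / 10 ^ 36 : ℝ) * ν ≤ (1 + 5 / 10 ^ 36) * (1 + 2 / 10 ^ 36) := by gcongr
    have h4 : (1 + 5 / 10 ^ 36 : ℝ) * (1 + 2 / 10 ^ 36) ≤ 1 + 1 / 10 ^ 35 - 2 / 10 ^ 36 := by
      norm_num
    linarith
  filter_upwards [avg_gain, hm₁, hm₂, hsmall he₁, hsmall he₂, hnu hν₁, hnu hν₂]
    with n hg h1 h2 s1 s2 n1 n2
  have hM : ∀ w : ℝ, Mf (fE w) n = fun z => fPhi w (xn n z) / (1 - z) := fun w => rfl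
  have hT : ∀ w : ℝ, coef n (Mf (fE w) n) = TT n (fPhi w) := fun w => rfl
  rw [hT] at h1 h2
  by_cases hc : 1 + 1 / 10 ^ 35 ≤ (TT n (fPhi w0)).re
  · exact ⟨_, h1, key hc s1 n1.1 n1.2⟩
  · refine ⟨_, h2, key ?_ s2 n2.1 n2.2⟩
    push Not at hc
    have e : (2 : ℝ) / 10 ^ 35 = 1 / 10 ^ 35 + 1 / 10 ^ 35 := by norm_num
    linarith

end Pool.Agent.Lib.H38.Kp
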